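import Mathlib
import Pool.Agent.H469R10.HO.N7

set_option autoImplicit false

/-!
# The nonlinear contraction with an arbitrary dual operator

The fixed point theorem of `Pool.Agent.H469R10.HO` (N4-N6) with the operator `DD m` replaced by any linear operator `𝔇`
which satisfies the same bounds (an adaptation of these files).
-/

open Finset MeasureTheory

namespace Pool.Agent.Q286.AP

open Pool.Agent.H469R10.HO

/-- The formal properties of a dual operator: continuity, a bound on `[0, 2]`, homogeneity, infinite sums. -/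
structure Dual (D : (ℝ → ℝ) → ℝ → ℝ) (K : ℝ) : Prop where
  K0 : 0 ≤ K
  cont : ∀ {f : ℝ → ℝ} {C : ℝ}, Continuous f → (∀ y, |f y| ≤ C) → Continuous (D f)
  bdd : ∀ {f : ℝ → ℝ} {C : ℝ}, Continuous f → (∀ y, |f y| ≤ C) → ∀ x ∈ Set.Icc (0:ℝ) 2, |D f x| ≤ K * C
  smul : ∀ (a : ℝ) (f : ℝ → ℝ) (x : ℝ), D (fun y => a * f y) x = a * D f x
  sum : ∀ {f : ℕ → ℝ → ℝ} {a : ℕ → ℝ} {g : ℝ → ℝ}, (∀ n, Continuous (f n)) → (∀ n y, |f n y| ≤ a n) →
    Summable a → (∀ y, HasSum (fun n => f n y) (g y)) → ∀ x, HasSum (fun n => D (f n) x) (D g x)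

/-- the two norm bounds on trigonometric sums -/
def MB (D : (ℝ → ℝ) → ℝ → ℝ) (κ : ℝ) : Prop := ∀ (S : Finset ℕ) (cl : ℕ → ℕ) (ω β : ℕ → ℝ),
  (∀ i ∈ S, |ω i - xx (cl i)| ≤ 1) →
  (∀ J : ℕ, ∑ j ∈ range J, (PP (D (fun y => ∑ i ∈ S, β i * Real.cos (ω i * y))) j) ^ 2 ≤
      κ * QQ (fun _ => 1) S cl β) ∧
  (∀ J : ℕ, ∑ j ∈ range J, (1 + (j : ℝ)) ^ 2 * (PP (D (fun y => ∑ i ∈ S, β i * Real.cos (ω i * y))) j) ^ 2 ≤
      κ * QQ (fun y => (1 + (y : ℝ)) ^ 2) S cl β)

/-- the column of `n` (zero for `n = 1` and for non squarefree `n`, which do not occur) -/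
noncomputable def TG (c lam : ℝ) (D : (ℝ → ℝ) → ℝ → ℝ) (n j : ℕ) : ℝ :=
  if n = 0 ∨ n.Prime then
    - PP (fun t => Real.cos (uu c lam n * t) - Real.cos (xx (jj c lam n) * t)) j
      + PP (D (fun y => Real.cos (uu c lam n * y))) j
  else if Squarefree n ∧ 2 ≤ n.primeFactors.card then
    - PP (fun t => Real.cos (uu c lam n * t)) j + PP (D (fun y => Real.cos (uu c lam n * y))) j
  else 0

namespace Dual

variable {D : (ℝ → ℝ) → ℝ → ℝ} {K : ℝ} (hD : Dual D K)
include hD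

lemma zero (x : ℝ) : D (fun _ => 0) x = 0 := by
  have h := hD.smul 0 (fun _ => 0) x
  simpa using h

lemma fin_sum (S : Finset ℕ) (β ω : ℕ → ℝ) (x : ℝ) :
    D (fun y => ∑ i ∈ S, β i * Real.cos (ω i * y)) x = ∑ i ∈ S, β i * D (fun y => Real.cos (ω i * y)) x := by
  classical
  have h := hD.sum (f := fun n y => if n ∈ S then β n * Real.cos (ω n * y) else 0)
    (a := fun n => if n ∈ S then |β n| else 0) (g := fun y => ∑ i ∈ S, β i * Real.cos (ω i * y))
    (fun n => by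
      by_cases hn : n ∈ S
      · simp only [hn, if_true]; fun_prop
      · simp only [hn, if_false]; fun_prop)
    (fun n y => by
      by_cases hn : n ∈ S
      · simp only [hn, if_true]
        rw [abs_mul]
        exact mul_le_of_le_one_right (abs_nonneg _) (Real.abs_cos_le_one _)
      · simp [hn])
    (summable_of_ne_finset_zero (s := S) (fun n hn => by simp [hn]))
    (fun y => by
      have h1 := hasSum_sum_of_ne_finset_zero (L := SummationFilter.unconditional ℕ)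
        (f := fun n => if n ∈ S then β n * Real.cos (ω n * y) else 0) (s := S)
        (fun n hn => by simp [hn])
      have h2 : ∑ n ∈ S, (if n ∈ S then β n * Real.cos (ω n * y) else 0) =
          ∑ i ∈ S, β i * Real.cos (ω i * y) := sum_congr rfl fun n hn => by rw [if_pos hn]
      rwa [h2] at h1) x
  have h3 := hasSum_sum_of_ne_finset_zero (L := SummationFilter.unconditional ℕ)
    (f := fun n => D (fun y => if n ∈ S then β n * Real.cos (ω n * y) else 0) x) (s := S)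
    (fun n hn => by
      simp only [hn, if_false]
      exact hD.zero x)
  rw [h.unique h3]
  refine sum_congr rfl fun n hn => ?_
  simp only [hn, if_true]
  exact hD.smul _ _ x

lemma cos_cont (w : ℝ) : Continuous (D fun y => Real.cos (w * y)) :=
  hD.cont (by fun_prop) (C := 1) fun y => Real.abs_cos_le_one _

lemma PP_sum' (S : Finset ℕ) (β ω : ℕ → ℝ) (j : ℕ) :
    ∑ i ∈ S, β i * PP (D fun y => Real.cos (ω i * y)) j = PP (D fun y => ∑ i ∈ S, β i * Real.cos (ω i * y)) j := by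
  rw [← PP_sum S β (fun i => D fun y => Real.cos (ω i * y)) (fun i _ => hD.cos_cont _)]
  congr 1
  funext x
  exact (hD.fin_sum S β ω x).symm

lemma PP_cos_le (w : ℝ) (j : ℕ) : |PP (D fun y => Real.cos (w * y)) j| ≤ 2 * K := by
  refine Pool.Agent.H853R3.U469.PP_abs_le _ K (fun x h0 h2 => ?_) hD.K0 j
  have := hD.bdd (f := fun y => Real.cos (w * y)) (C := 1) (by fun_prop) (fun y => Real.abs_cos_le_one _) x ⟨h0, h2⟩
  linarith

lemma TG_le (c lam : ℝ) (n j : ℕ) : |TG c lam D n j| ≤ 4 + 2 * K := by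
  have hP := hD.PP_cos_le (uu c lam n) j
  have hK := hD.K0
  unfold TG
  split_ifs
  · have h1 : |PP (fun t => Real.cos (uu c lam n * t) - Real.cos (xx (jj c lam n) * t)) j| ≤ 2 * 2 := by
      apply Pool.Agent.H853R3.U469.PP_abs_le _ 2 _ (by norm_num) j
      intro x _ _
      have h2 := Real.abs_cos_le_one (uu c lam n * x)
      have h3 := Real.abs_cos_le_one (xx (jj c lam n) * x)
      refine (abs_sub _ _).trans ?_
      linarith
    refine (abs_add_le _ _).trans ?_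
    rw [abs_neg]
    linarith
  · have h1 : |PP (fun t => Real.cos (uu c lam n * t)) j| ≤ 2 * 1 := by
      apply Pool.Agent.H853R3.U469.PP_abs_le _ 1 _ (by norm_num) j
      intro x _ _
      exact Real.abs_cos_le_one _
    refine (abs_add_le _ _).trans ?_
    rw [abs_neg]
    linarith
  · rw [abs_zero]; linarith

end Dual

section

variable (c lam : ℝ) (B : ℕ → Finset ℕ) (D : (ℝ → ℝ) → ℝ → ℝ)

noncomputable def G1 (n j : ℕ) : ℝ := by
  classical
  exact if n = 0 ∨ n ∈ B (jj c lam n) then TG c lam D n j else 0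

noncomputable def G2 (n j : ℕ) : ℝ := by
  classical
  exact if ¬ (n = 0 ∨ n.Prime) ∧ (Squarefree n ∧ 2 ≤ n.primeFactors.card) then TG c lam D n j else 0

end

lemma MB_nonneg {D : (ℝ → ℝ) → ℝ → ℝ} {κ : ℝ} (hM : MB D κ) : 0 ≤ κ := by
  have h := (hM {0} (fun _ => 0) (fun _ => 0) (fun _ => 1) (fun i _ => by simp [xx])).1 0
  simp [QQ] at h
  exact h

lemma G1_bounds {c lam e κ K : ℝ} {B : ℕ → Finset ℕ} {D : (ℝ → ℝ) → ℝ → ℝ} (hD : Dual D K) (hlam : 1 ≤ lam)
    (he0 : 0 ≤ e) (he : e ≤ 1 / 2)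
    (hB : ∀ j, ∀ p ∈ B j, 1 ≤ j ∧ p.Prime ∧ |uu c lam p - xx j| ≤ e) (hM : MB D κ)
    (S : Finset ℕ) (β : ℕ → ℝ) (J : ℕ) :
    (∑ j ∈ range J, (∑ n ∈ S, β n * G1 c lam B D n j) ^ 2 ≤ (800 * e ^ 2 + 2 * κ) * QQ (fun _ => 1) S (jj c lam) β) ∧
    (∑ j ∈ range J, (1 + (j : ℝ)) ^ 2 * (∑ n ∈ S, β n * G1 c lam B D n j) ^ 2 ≤
      (800 * e ^ 2 + 2 * κ) * QQ (fun y => (1 + (y : ℝ)) ^ 2) S (jj c lam) β) := by
  classical
  have hpr : ∀ n, n ∈ B (jj c lam n) → n.Prime ∧ |uu c lam n - xx (jj c lam n)| ≤ e :=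
    fun n hn => ⟨(hB _ n hn).2.1, (hB _ n hn).2.2⟩
  set S' := S.filter (fun n => n = 0 ∨ n ∈ B (jj c lam n)) with hS'
  have hnear : ∀ i ∈ S', |uu c lam i - xx (jj c lam i)| ≤ e := by
    intro i hi
    rw [hS', mem_filter] at hi
    rcases hi.2 with h | h
    · subst h
      rw [uu_zero hlam, jj_zero hlam]
      simp [xx, he0]
    · exact (hpr i h).2
  have hnear1 : ∀ i ∈ S', |uu c lam i - xx (jj c lam i)| ≤ 1 := fun i hi => (hnear i hi).trans (by linarith)
  have e1 : ∀ j, ∑ n ∈ S, β n * G1 c lam B D n j =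
      - ∑ n ∈ S', β n * PP (fun t => Real.cos (uu c lam n * t) - Real.cos (xx (jj c lam n) * t)) j +
      PP (D (fun y => ∑ i ∈ S', β i * Real.cos (uu c lam i * y))) j := by
    intro j
    rw [← hD.PP_sum', ← sum_neg_distrib, ← sum_add_distrib]
    have : ∀ n, G1 c lam B D n j = if (n = 0 ∨ n ∈ B (jj c lam n)) then TG c lam D n j else 0 := by
      intro n; unfold G1; rfl
    simp_rw [this]
    rw [sum_filter_mul S (fun n => n = 0 ∨ n ∈ B (jj c lam n)) β (fun n => TG c lam D n j), ← hS']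
    apply sum_congr rfl
    intro n hn
    have h0 : n = 0 ∨ n.Prime := by
      rw [hS', mem_filter] at hn
      rcases hn.2 with h | h
      · exact Or.inl h
      · exact Or.inr (hpr n h).1
    unfold TG
    rw [if_pos h0]
    ring
  have hsub : S' ⊆ S := filter_subset _ _
  have hq1 := QQ_subset (w := fun _ => 1) (fun _ => zero_le_one) hsub (jj c lam) β
  have hq2 := QQ_subset (w := fun y => (1 + (y : ℝ)) ^ 2) (fun _ => by positivity) hsub (jj c lam) β
  have hn1 := QQ_nonneg (w := fun _ => 1) (fun _ => zero_le_one) S' (jj c lam) β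
  have hn2 := QQ_nonneg (w := fun y => (1 + (y : ℝ)) ^ 2) (fun _ => by positivity) S' (jj c lam) β
  have hMS := hM S' (jj c lam) (uu c lam) β hnear1
  have hκ : 0 ≤ κ * QQ (fun _ => 1) S' (jj c lam) β := by simpa using hMS.1 0
  have hκ2 : 0 ≤ κ * QQ (fun y => (1 + (y : ℝ)) ^ 2) S' (jj c lam) β := by simpa using hMS.2 0
  have hκ' : 0 ≤ κ := MB_nonneg hM
  have c1 := colR_one S' (jj c lam) (uu c lam) β hnear (range J)
  have c2 := colR_two S' (jj c lam) (uu c lam) β he0 (by linarith) hnear (range J)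
  simp_rw [e1]
  constructor
  · calc ∑ j ∈ range J, (- ∑ n ∈ S', β n * PP (fun t => Real.cos (uu c lam n * t) - Real.cos (xx (jj c lam n) * t)) j +
      PP (D (fun y => ∑ i ∈ S', β i * Real.cos (uu c lam i * y))) j) ^ 2
        ≤ ∑ j ∈ range J, (2 * (∑ n ∈ S', β n * PP (fun t => Real.cos (uu c lam n * t) - Real.cos (xx (jj c lam n) * t)) j) ^ 2 +
          2 * (PP (D (fun y => ∑ i ∈ S', β i * Real.cos (uu c lam i * y))) j) ^ 2) := by
          apply sum_le_sum; intro j _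
          nlinarith [sq_nonneg ((∑ n ∈ S', β n * PP (fun t => Real.cos (uu c lam n * t) - Real.cos (xx (jj c lam n) * t)) j) +
            PP (D (fun y => ∑ i ∈ S', β i * Real.cos (uu c lam i * y))) j)]
      _ ≤ 2 * (24 * e ^ 2 * QQ (fun _ => 1) S' (jj c lam) β) + 2 * (κ * QQ (fun _ => 1) S' (jj c lam) β) := by
          rw [sum_add_distrib, ← mul_sum, ← mul_sum]
          have := hMS.1 J
          linarith
      _ ≤ (800 * e ^ 2 + 2 * κ) * QQ (fun _ => 1) S' (jj c lam) β := by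
          have : 0 ≤ e ^ 2 * QQ (fun _ => 1) S' (jj c lam) β := mul_nonneg (sq_nonneg _) hn1
          nlinarith
      _ ≤ _ := mul_le_mul_of_nonneg_left hq1 (by positivity)
  · calc ∑ j ∈ range J, (1 + (j : ℝ)) ^ 2 * (- ∑ n ∈ S', β n * PP (fun t => Real.cos (uu c lam n * t) - Real.cos (xx (jj c lam n) * t)) j +
      PP (D (fun y => ∑ i ∈ S', β i * Real.cos (uu c lam i * y))) j) ^ 2
        ≤ ∑ j ∈ range J, (2 * ((1 + (j : ℝ)) ^ 2 * (∑ n ∈ S', β n * PP (fun t => Real.cos (uu c lam n * t) - Real.cos (xx (jj c lam n) * t)) j) ^ 2) +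
          2 * ((1 + (j : ℝ)) ^ 2 * (PP (D (fun y => ∑ i ∈ S', β i * Real.cos (uu c lam i * y))) j) ^ 2)) := by
          apply sum_le_sum; intro j _
          have h0 : 0 ≤ (1 + (j : ℝ)) ^ 2 := by positivity
          have h1 := mul_nonneg h0 (sq_nonneg ((∑ n ∈ S', β n * PP (fun t => Real.cos (uu c lam n * t) - Real.cos (xx (jj c lam n) * t)) j) +
            PP (D (fun y => ∑ i ∈ S', β i * Real.cos (uu c lam i * y))) j))
          nlinarith
      _ ≤ 2 * (400 * e ^ 2 * QQ (fun y => (1 + (y : ℝ)) ^ 2) S' (jj c lam) β) + 2 * (κ * QQ (fun y => (1 + (y : ℝ)) ^ 2) S' (jj c lam) β) := by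
          rw [sum_add_distrib, ← mul_sum, ← mul_sum]
          have := hMS.2 J
          linarith
      _ = (800 * e ^ 2 + 2 * κ) * QQ (fun y => (1 + (y : ℝ)) ^ 2) S' (jj c lam) β := by ring
      _ ≤ _ := mul_le_mul_of_nonneg_left hq2 (by positivity)

lemma G2_bounds {c lam κ K : ℝ} {D : (ℝ → ℝ) → ℝ → ℝ} (hD : Dual D K) (hc : 0 ≤ c) (hM : MB D κ)
    (S : Finset ℕ) (β : ℕ → ℝ) (J : ℕ) :
    (∑ j ∈ range J, (∑ n ∈ S, β n * G2 c lam D n j) ^ 2 ≤ (720 + 2 * κ) * QQ (fun _ => 1) S (jj c lam) β) ∧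
    (∑ j ∈ range J, (1 + (j : ℝ)) ^ 2 * (∑ n ∈ S, β n * G2 c lam D n j) ^ 2 ≤
      (720 + 2 * κ) * QQ (fun y => (1 + (y : ℝ)) ^ 2) S (jj c lam) β) := by
  classical
  set S' := S.filter (fun n => ¬ (n = 0 ∨ n.Prime) ∧ (Squarefree n ∧ 2 ≤ n.primeFactors.card)) with hS'
  have hnear1 : ∀ i ∈ S', |uu c lam i - xx (jj c lam i)| ≤ 1 := fun i _ => cell_near (uu_nonneg hc i)
  have e1 : ∀ j, ∑ n ∈ S, β n * G2 c lam D n j =
      - ∑ n ∈ S', β n * PP (fun t => Real.cos (uu c lam n * t)) j +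
      PP (D (fun y => ∑ i ∈ S', β i * Real.cos (uu c lam i * y))) j := by
    intro j
    rw [← hD.PP_sum', ← sum_neg_distrib, ← sum_add_distrib]
    have : ∀ n, G2 c lam D n j = if (¬ (n = 0 ∨ n.Prime) ∧ (Squarefree n ∧ 2 ≤ n.primeFactors.card)) then TG c lam D n j else 0 := by
      intro n; unfold G2; rfl
    simp_rw [this]
    rw [sum_filter_mul S (fun n => ¬ (n = 0 ∨ n.Prime) ∧ (Squarefree n ∧ 2 ≤ n.primeFactors.card)) β (fun n => TG c lam D n j), ← hS']
    apply sum_congr rfl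
    intro n hn
    rw [hS', mem_filter] at hn
    unfold TG
    rw [if_neg hn.2.1, if_pos hn.2.2]
    ring
  have hsub : S' ⊆ S := filter_subset _ _
  have hq1 := QQ_subset (w := fun _ => 1) (fun _ => zero_le_one) hsub (jj c lam) β
  have hq2 := QQ_subset (w := fun y => (1 + (y : ℝ)) ^ 2) (fun _ => by positivity) hsub (jj c lam) β
  have hn1 := QQ_nonneg (w := fun _ => 1) (fun _ => zero_le_one) S' (jj c lam) β
  have hn2 := QQ_nonneg (w := fun y => (1 + (y : ℝ)) ^ 2) (fun _ => by positivity) S' (jj c lam) β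
  have hMS := hM S' (jj c lam) (uu c lam) β hnear1
  have hκ' : 0 ≤ κ := MB_nonneg hM
  have c1 := colP_one S' (jj c lam) (uu c lam) β hnear1 (range J)
  have c2 := colP_two S' (jj c lam) (uu c lam) β hnear1 (range J)
  simp_rw [e1]
  constructor
  · calc ∑ j ∈ range J, (- ∑ n ∈ S', β n * PP (fun t => Real.cos (uu c lam n * t)) j +
      PP (D (fun y => ∑ i ∈ S', β i * Real.cos (uu c lam i * y))) j) ^ 2
        ≤ ∑ j ∈ range J, (2 * (∑ n ∈ S', β n * PP (fun t => Real.cos (uu c lam n * t)) j) ^ 2 +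
          2 * (PP (D (fun y => ∑ i ∈ S', β i * Real.cos (uu c lam i * y))) j) ^ 2) := by
          apply sum_le_sum; intro j _
          nlinarith [sq_nonneg ((∑ n ∈ S', β n * PP (fun t => Real.cos (uu c lam n * t)) j) +
            PP (D (fun y => ∑ i ∈ S', β i * Real.cos (uu c lam i * y))) j)]
      _ ≤ 2 * (60 * QQ (fun _ => 1) S' (jj c lam) β) + 2 * (κ * QQ (fun _ => 1) S' (jj c lam) β) := by
          rw [sum_add_distrib, ← mul_sum, ← mul_sum]
          have := hMS.1 J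
          linarith
      _ ≤ (720 + 2 * κ) * QQ (fun _ => 1) S' (jj c lam) β := by nlinarith
      _ ≤ _ := mul_le_mul_of_nonneg_left hq1 (by positivity)
  · calc ∑ j ∈ range J, (1 + (j : ℝ)) ^ 2 * (- ∑ n ∈ S', β n * PP (fun t => Real.cos (uu c lam n * t)) j +
      PP (D (fun y => ∑ i ∈ S', β i * Real.cos (uu c lam i * y))) j) ^ 2
        ≤ ∑ j ∈ range J, (2 * ((1 + (j : ℝ)) ^ 2 * (∑ n ∈ S', β n * PP (fun t => Real.cos (uu c lam n * t)) j) ^ 2) +
          2 * ((1 + (j : ℝ)) ^ 2 * (PP (D (fun y => ∑ i ∈ S', β i * Real.cos (uu c lam i * y))) j) ^ 2)) := by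
          apply sum_le_sum; intro j _
          have h0 : 0 ≤ (1 + (j : ℝ)) ^ 2 := by positivity
          have h1 := mul_nonneg h0 (sq_nonneg ((∑ n ∈ S', β n * PP (fun t => Real.cos (uu c lam n * t)) j) +
            PP (D (fun y => ∑ i ∈ S', β i * Real.cos (uu c lam i * y))) j))
          nlinarith
      _ ≤ 2 * (360 * QQ (fun y => (1 + (y : ℝ)) ^ 2) S' (jj c lam) β) + 2 * (κ * QQ (fun y => (1 + (y : ℝ)) ^ 2) S' (jj c lam) β) := by
          rw [sum_add_distrib, ← mul_sum, ← mul_sum]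
          have := hMS.2 J
          linarith
      _ = (720 + 2 * κ) * QQ (fun y => (1 + (y : ℝ)) ^ 2) S' (jj c lam) β := by ring
      _ ≤ _ := mul_le_mul_of_nonneg_left hq2 (by positivity)

section fix

variable {c lam e κ CJ CH K : ℝ} {B : ℕ → Finset ℕ} {m : ℕ} {D : (ℝ → ℝ) → ℝ → ℝ}
variable (h : Hyp c lam e κ CJ CH B m) (hD : Dual D K) (hM : MB D κ)
include h hD hM

lemma W1 (S : Finset ℕ) (β : ℕ → ℝ) (J : ℕ) :
    ∑ j ∈ range J, WW c j * (∑ n ∈ S, β n * G1 c lam B D n j) ^ 2 ≤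
      CJ * (800 * e ^ 2 + 2 * κ) * QQ (WW c) S (jj c lam) β := by
  have h1 := fun S β J => G1_bounds hD h.hlam h.he0 h.he h.hB hM S β J
  refine h.hJ (jj c lam) (G1 c lam B D) (800 * e ^ 2 + 2 * κ) (by have := h.hκ; positivity) ?_ ?_ S β J
  · intro S β J
    have := (h1 S β J).1
    simpa [QQ] using this
  · intro S β J
    have := (h1 S β J).2
    simpa [QQ] using this

lemma W2 (S : Finset ℕ) (β : ℕ → ℝ) (J : ℕ) :
    ∑ j ∈ range J, WW c j * (∑ n ∈ S, β n * G2 c lam D n j) ^ 2 ≤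
      CJ * (720 + 2 * κ) * QQ (WW c) S (jj c lam) β := by
  have h1 := fun S β J => G2_bounds (lam := lam) hD h.hc.le hM S β J
  refine h.hJ (jj c lam) (G2 c lam D) (720 + 2 * κ) (by have := h.hκ; positivity) ?_ ?_ S β J
  · intro S β J
    have := (h1 S β J).1
    simpa [QQ] using this
  · intro S β J
    have := (h1 S β J).2
    simpa [QQ] using this

omit hD hM in
/-- `alp = G1 part + G2 part` -/
lemma split (b : ℕ → ℝ) (n j : ℕ) :
    alp c lam B b n * TG c lam D n j = alp c lam B b n * G1 c lam B D n j + alp c lam B b n * G2 c lam D n j := by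
  classical
  unfold G1 G2
  by_cases h0 : n = 0
  · subst h0; simp
  by_cases hp : n.Prime
  · by_cases hB : n ∈ B (jj c lam n)
    · simp [hp, hB]
    · have : alp c lam B b n = 0 := by
        rw [Hyp.alp_prime b hp]; unfold bet; rw [if_neg hB]
      rw [this]; simp
  · have hnB : ¬ (n = 0 ∨ n ∈ B (jj c lam n)) := by
      rintro (h1 | h1)
      · exact h0 h1
      · exact hp (h.hB _ n h1).2.1
    rw [if_neg hnB, mul_zero, zero_add]
    by_cases hs : Squarefree n ∧ 2 ≤ n.primeFactors.card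
    · rw [if_pos ⟨by tauto, hs⟩]
    · rw [if_neg (by tauto)]
      unfold TG
      rw [if_neg (by tauto), if_neg hs]

omit hD hM in
lemma fin_split (b b' : ℕ → ℝ) (S : Finset ℕ) (j : ℕ) :
    ∑ n ∈ S, (alp c lam B b n - alp c lam B b' n) * TG c lam D n j =
      ∑ n ∈ S, Hyp.gg c lam B b b' n * G1 c lam B D n j + ∑ n ∈ S, Hyp.hh c lam B b b' n * G2 c lam D n j := by
  classical
  rw [← sum_add_distrib]
  apply sum_congr rfl
  intro n _
  have h1 := split (D := D) h b n j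
  have h2 := split (D := D) h b' n j
  have h3 : Hyp.gg c lam B b b' n * G1 c lam B D n j = (alp c lam B b n - alp c lam B b' n) * G1 c lam B D n j := by
    unfold Hyp.gg G1
    split_ifs <;> ring
  have h4 : Hyp.hh c lam B b b' n * G2 c lam D n j = (alp c lam B b n - alp c lam B b' n) * G2 c lam D n j := by
    unfold Hyp.hh G2
    split_ifs <;> ring
  rw [h3, h4, sub_mul, h1, h2]
  ring

lemma fin_lip {b b' : ℕ → ℝ} {ρ R : ℝ} (hρ0 : 0 < ρ) (hR0 : 0 ≤ R) (hρ : 9 * ρ ^ 2 ≤ 1)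
    (hb : ∀ J : ℕ, ∑ j ∈ range J, WW c j * b j ^ 2 ≤ ρ ^ 2) (hb' : ∀ J : ℕ, ∑ j ∈ range J, WW c j * b' j ^ 2 ≤ ρ ^ 2)
    (hR : ∀ J : ℕ, ∑ j ∈ range J, WW c j * (b j - b' j) ^ 2 ≤ R ^ 2) (S : Finset ℕ) (J : ℕ) :
    ∑ j ∈ range J, WW c j * (∑ n ∈ S, (alp c lam B b n - alp c lam B b' n) * TG c lam D n j) ^ 2 ≤
      (2 * (CJ * (800 * e ^ 2 + 2 * κ)) + 2 * (CJ * (720 + 2 * κ)) * (CH * 81 * ρ ^ 2)) * R ^ 2 := by
  have hW := WW_pos h.hc h.hc1
  have hCJ := h.hCJ
  have hCH := h.hCH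
  have hκ := h.hκ
  rcases hR0.eq_or_lt with hR00 | hRpos
  · have hbb : b = b' := by
      funext j
      have h1 := hR (j + 1)
      rw [← hR00] at h1
      have h2 : WW c j * (b j - b' j) ^ 2 ≤ ∑ i ∈ range (j + 1), WW c i * (b i - b' i) ^ 2 :=
        single_le_sum (f := fun i => WW c i * (b i - b' i) ^ 2) (fun i _ => mul_nonneg (hW i).le (sq_nonneg _))
          (mem_range.2 (Nat.lt_succ_self j))
      have h3 : (b j - b' j) ^ 2 ≤ 0 := by
        have := hW j
        nlinarith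
      have h4 : b j - b' j = 0 := by nlinarith
      linarith
    subst hbb
    simp
    positivity
  · set τ := ρ / R with hτ
    have hτ0 : 0 < τ := by positivity
    have hτR : τ * R = ρ := by rw [hτ]; field_simp
    have hh1 := h.QQ_hh hτ0 hR0 hτR.le hρ hb hb' hR S
    have hh2 : QQ (WW c) S (jj c lam) (Hyp.hh c lam B b b') ≤ CH * 81 * ρ ^ 2 * R ^ 2 := by
      have e1 : CH * (9 * ρ ^ 2) ^ 2 = τ ^ 2 * (CH * 81 * ρ ^ 2 * R ^ 2) := by
        rw [← hτR]; ring
      rw [e1] at hh1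
      exact le_of_mul_le_mul_left hh1 (by positivity)
    have g1 := h.QQ_gg hR S
    have w1 := W1 h hD hM S (Hyp.gg c lam B b b') J
    have w2 := W2 h hD hM S (Hyp.hh c lam B b b') J
    simp_rw [fin_split h b b' S]
    calc ∑ j ∈ range J, WW c j * (∑ n ∈ S, Hyp.gg c lam B b b' n * G1 c lam B D n j + ∑ n ∈ S, Hyp.hh c lam B b b' n * G2 c lam D n j) ^ 2
        ≤ ∑ j ∈ range J, (2 * (WW c j * (∑ n ∈ S, Hyp.gg c lam B b b' n * G1 c lam B D n j) ^ 2) +
          2 * (WW c j * (∑ n ∈ S, Hyp.hh c lam B b b' n * G2 c lam D n j) ^ 2)) := by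
          apply sum_le_sum
          intro j _
          have := mul_nonneg (hW j).le (sq_nonneg ((∑ n ∈ S, Hyp.gg c lam B b b' n * G1 c lam B D n j) - ∑ n ∈ S, Hyp.hh c lam B b b' n * G2 c lam D n j))
          nlinarith
      _ = 2 * ∑ j ∈ range J, WW c j * (∑ n ∈ S, Hyp.gg c lam B b b' n * G1 c lam B D n j) ^ 2 +
          2 * ∑ j ∈ range J, WW c j * (∑ n ∈ S, Hyp.hh c lam B b b' n * G2 c lam D n j) ^ 2 := by
          rw [sum_add_distrib, mul_sum, mul_sum]
      _ ≤ 2 * (CJ * (800 * e ^ 2 + 2 * κ) * R ^ 2) + 2 * (CJ * (720 + 2 * κ) * (CH * 81 * ρ ^ 2 * R ^ 2)) := by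
          have a1 : CJ * (800 * e ^ 2 + 2 * κ) * QQ (WW c) S (jj c lam) (Hyp.gg c lam B b b') ≤ CJ * (800 * e ^ 2 + 2 * κ) * R ^ 2 :=
            mul_le_mul_of_nonneg_left g1 (by positivity)
          have a2 : CJ * (720 + 2 * κ) * QQ (WW c) S (jj c lam) (Hyp.hh c lam B b b') ≤ CJ * (720 + 2 * κ) * (CH * 81 * ρ ^ 2 * R ^ 2) :=
            mul_le_mul_of_nonneg_left hh2 (by positivity)
          linarith
      _ = _ := by ring

omit h hM in
lemma summable_term {b : ℕ → ℝ} (hs : Summable fun n => |alp c lam B b n|) (j : ℕ) :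
    Summable fun n => alp c lam B b n * TG c lam D n j := by
  refine Summable.of_norm_bounded (hs.mul_right (4 + 2 * K)) fun n => ?_
  rw [Real.norm_eq_abs, abs_mul]
  exact mul_le_mul_of_nonneg_left (hD.TG_le c lam n j) (abs_nonneg _)

/-- **Existence of the fixed point** for an arbitrary source. -/
theorem fixed (hQ : TaskQ) {ρ : ℝ} (hρ0 : 0 < ρ) (hρ : 9 * ρ ^ 2 ≤ 1)
    (hK : 2 * (CJ * (800 * e ^ 2 + 2 * κ)) + 2 * (CJ * (720 + 2 * κ)) * (CH * 81 * ρ ^ 2) ≤ 1 / 4)
    (s : ℕ → ℝ) (hs : ∀ J : ℕ, ∑ j ∈ range J, WW c j * s j ^ 2 ≤ (ρ / 2) ^ 2) :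
    ∃ b : ℕ → ℝ, (∀ J : ℕ, ∑ j ∈ range J, WW c j * b j ^ 2 ≤ ρ ^ 2) ∧
      (Summable fun n => |alp c lam B b n|) ∧
      ∀ j, b j = s j + ∑' n, alp c lam B b n * TG c lam D n j := by
  have hW := WW_pos h.hc h.hc1
  suffices key : ∃ b : ℕ → ℝ, (∀ J : ℕ, ∑ j ∈ range J, WW c j * b j ^ 2 ≤ ρ ^ 2) ∧
      ∀ j, b j = s j + ∑' n, alp c lam B b n * TG c lam D n j by
    obtain ⟨b, hb1, hb2⟩ := key
    exact ⟨b, hb1, h.summable_alp hρ0 hρ hb1, hb2⟩
  refine hQ (WW c) hW (fun b j => s j + ∑' n, alp c lam B b n * TG c lam D n j) ρ (1 / 2) hρ0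
    (by norm_num) (by norm_num) ?_ ?_
  · intro J
    have e1 : ∀ j, ∑' n, alp c lam B (fun _ => 0) n * TG c lam D n j = 0 := by
      intro j
      have : ∀ n, alp c lam B (fun _ => 0) n * TG c lam D n j = 0 := by
        intro n
        rw [Hyp.alp_zero]
        split_ifs with h1
        · subst h1
          unfold TG
          simp
          intro hp1
          exact absurd hp1 Nat.not_prime_one
        · simp
      simp_rw [this]
      exact tsum_zero
    simp_rw [e1, add_zero]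
    refine (hs J).trans (le_of_eq ?_)
    ring
  · intro b b' hb hb' R hR0 hR J
    have hsb := h.summable_alp hρ0 hρ hb
    have hsb' := h.summable_alp hρ0 hρ hb'
    have e1 : ∀ j, (s j + ∑' n, alp c lam B b n * TG c lam D n j) - (s j + ∑' n, alp c lam B b' n * TG c lam D n j) =
        ∑' n, (alp c lam B b n - alp c lam B b' n) * TG c lam D n j := by
      intro j
      rw [add_sub_add_left_eq_sub, ← (summable_term hD hsb j).tsum_sub (summable_term hD hsb' j)]
      exact tsum_congr fun n => by ring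
    simp_rw [e1]
    have hsum : ∀ j, HasSum (fun n => (alp c lam B b n - alp c lam B b' n) * TG c lam D n j)
        (∑' n, (alp c lam B b n - alp c lam B b' n) * TG c lam D n j) := by
      intro j
      apply Summable.hasSum
      have := (summable_term hD hsb j).sub (summable_term hD hsb' j)
      refine this.congr fun n => by ring
    have ht : Filter.Tendsto (fun S : Finset ℕ => ∑ j ∈ range J, WW c j * (∑ n ∈ S, (alp c lam B b n - alp c lam B b' n) * TG c lam D n j) ^ 2)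
        Filter.atTop (nhds (∑ j ∈ range J, WW c j * (∑' n, (alp c lam B b n - alp c lam B b' n) * TG c lam D n j) ^ 2)) :=
      tendsto_finsetSum _ fun j _ => ((hsum j).pow 2).const_mul _
    refine le_of_tendsto' ht fun S => ?_
    refine (fin_lip h hD hM hρ0 hR0 hρ hb hb' hR S J).trans ?_
    calc _ ≤ 1 / 4 * R ^ 2 := mul_le_mul_of_nonneg_right hK (sq_nonneg _)
      _ = _ := by ring

end fix

end Pool.Agent.Q286.AP
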