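import Mathlib
import Pool.Agent.Q286.AP.Gen
import Pool.Agent.H469R10.HO.Final
import Pool.Agent.Y532.SC.Core

set_option autoImplicit false

/-!
# All constants of the contraction; fixed points for a general dual operator
-/

open Finset MeasureTheory

namespace Pool.Agent.Q286.AP

open Pool.Agent.H469R10.HO

/-- `exists_hyp` with the constant `κ` chosen first -/
theorem exists_hyp' : ∃ κ : ℝ, 0 < κ ∧ ∃ (m₀ : ℕ) (lam₀ : ℝ), 8 ≤ lam₀ ∧ ∀ m : ℕ, m₀ ≤ m → ∀ lam : ℝ, lam₀ ≤ lam →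
    ∃ e CJ CH η ρ c₀ : ℝ, 0 < e ∧ e ≤ 1 / 2 ∧ 0 < η ∧ 0 < ρ ∧ 9 * ρ ^ 2 ≤ 1 ∧
      2 * (CJ * (800 * e ^ 2 + 2 * κ)) + 2 * (CJ * (720 + 2 * κ)) * (CH * 81 * ρ ^ 2) ≤ 1 / 4 ∧ 0 < c₀ ∧
      ∀ c : ℝ, 0 < c → c ≤ c₀ → ∃ B : ℕ → Finset ℕ, Hyp c lam e κ CJ CH B m ∧
        (∀ j, 1 ≤ j → (B j).Nonempty ∧ ∀ p ∈ B j, η * p ≤ (B j).card * xx j * Real.log p) := by
  obtain ⟨lamK, hK⟩ := Pool.Agent.H154R3.Blocks.taskK hoheisel
  obtain ⟨CJ, cJ, hCJ, hcJ, hJ⟩ := Pool.Agent.H82R3.T469J.taskJ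
  -- choice of `e`, `κ`
  set κ : ℝ := 1 / (64 * (CJ + 1)) with hκdef
  have hCJ1 : 0 < CJ + 1 := by linarith
  have hκ : 0 < κ := by positivity
  have hκCJ : CJ * κ ≤ 1 / 64 := by
    rw [hκdef, mul_one_div, div_le_div_iff₀ (by positivity) (by norm_num)]
    linarith
  set e : ℝ := min (1 / 2) (1 / (1600 * (CJ + 1))) with hedef
  have he0 : 0 < e := lt_min (by norm_num) (by positivity)
  have he : e ≤ 1 / 2 := min_le_left _ _
  have heCJ : CJ * e ≤ 1 / 1600 := by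
    have h1 : e ≤ 1 / (1600 * (CJ + 1)) := min_le_right _ _
    have h2 : CJ * e ≤ CJ * (1 / (1600 * (CJ + 1))) := mul_le_mul_of_nonneg_left h1 hCJ.le
    refine h2.trans ?_
    rw [mul_one_div, div_le_div_iff₀ (by positivity) (by norm_num)]
    linarith
  obtain ⟨m₀, hm₀⟩ := Pool.Agent.H99R3.M469.taskM κ hκ
  refine ⟨κ, hκ, max m₀ 2, max lamK 8, le_max_right _ _, fun m hm lam hlam => ?_⟩
  have hm2 : 2 ≤ m := (le_max_right _ _).trans hm
  have hm0 : m₀ ≤ m := (le_max_left _ _).trans hm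
  have hlam8 : 8 ≤ lam := (le_max_right _ _).trans hlam
  have hlamK : lamK ≤ lam := (le_max_left _ _).trans hlam
  obtain ⟨η, cK, hη, hcK, hKB⟩ := hK lam hlamK e he0 he
  obtain ⟨CH, cH, hCH, hcH, hH⟩ := Pool.Agent.H853R3.NL.taskH lam η hlam8 hη
  -- choice of `ρ`
  set G : ℝ := 2 * (CJ * (720 + 2 * κ)) * (CH * 81) with hG
  have hG0 : 0 < G := by positivity
  set ρ : ℝ := min (1 / 3) (1 / (16 * (G + 1))) with hρdef
  have hρ0 : 0 < ρ := lt_min (by norm_num) (by positivity)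
  have hρ3 : ρ ≤ 1 / 3 := min_le_left _ _
  have hρ9 : 9 * ρ ^ 2 ≤ 1 := by nlinarith
  have hGρ : G * ρ ≤ 1 / 16 := by
    have h1 : ρ ≤ 1 / (16 * (G + 1)) := min_le_right _ _
    have h2 : G * ρ ≤ G * (1 / (16 * (G + 1))) := mul_le_mul_of_nonneg_left h1 hG0.le
    refine h2.trans ?_
    rw [mul_one_div, div_le_div_iff₀ (by positivity) (by norm_num)]
    linarith
  have hGρ2 : 2 * (CJ * (720 + 2 * κ)) * (CH * 81 * ρ ^ 2) ≤ 1 / 16 := by
    have : 2 * (CJ * (720 + 2 * κ)) * (CH * 81 * ρ ^ 2) = (G * ρ) * ρ := by rw [hG]; ring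
    rw [this]
    have h3 : 0 ≤ G * ρ := by positivity
    nlinarith
  have hfin : 2 * (CJ * (800 * e ^ 2 + 2 * κ)) + 2 * (CJ * (720 + 2 * κ)) * (CH * 81 * ρ ^ 2) ≤ 1 / 4 := by
    have h1 : 2 * (CJ * (800 * e ^ 2 + 2 * κ)) = 2 * (CJ * (800 * e ^ 2)) + 4 * (CJ * κ) := by ring
    have h5 : CJ * (800 * e ^ 2) ≤ 1 / 32 := by
      have : CJ * (800 * e ^ 2) = 800 * (CJ * e) * e := by ring
      rw [this]
      have h2 : 0 ≤ CJ * e := by positivity
      have h6 : e ≤ 1 / 1600 := by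
        refine (min_le_right _ _).trans ?_
        rw [div_le_div_iff₀ (by positivity) (by norm_num)]
        nlinarith
      nlinarith
    rw [h1]
    linarith
  refine ⟨e, CJ, CH, η, ρ, min (min cJ cK) (min cH (1 / 10)), he0, he, hη, hρ0, hρ9, hfin,
    lt_min (lt_min hcJ hcK) (lt_min hcH (by norm_num)), fun c hc hcc => ?_⟩
  have hc1 : c ≤ cJ := hcc.trans ((min_le_left _ _).trans (min_le_left _ _))
  have hc2 : c ≤ cK := hcc.trans ((min_le_left _ _).trans (min_le_right _ _))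
  have hc3 : c ≤ cH := hcc.trans ((min_le_right _ _).trans (min_le_left _ _))
  have hc4 : c ≤ 1 / 10 := hcc.trans ((min_le_right _ _).trans (min_le_right _ _))
  obtain ⟨B, hB1, hB2⟩ := hKB c hc hc2
  refine ⟨B, ?_, hB2⟩
  exact
    { hc := hc
      hc1 := hc4
      hlam := by linarith
      hm := by omega
      he0 := he0.le
      he := he
      hκ := hκ.le
      hCJ := hCJ.le
      hCH := hCH.le
      hB := hB1
      hBne := fun j hj => (hB2 j hj).1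
      hM := hm₀ m hm0
      hJ := hJ c hc hc1
      hH := fun b β h1 h2 h3 E hE h4 S hS Y =>
        hH c hc hc3 B (fun j p hp => ⟨(hB1 j p hp).1, (hB1 j p hp).2.1, (hB1 j p hp).2.2.trans he⟩) hB2 b β h1 h2 h3
          E hE h4 S hS Y
      hR := Pool.Agent.H853R3.RS.taskR' c hc hc4
      hS := Pool.Agent.H853R3.RS.taskS'
      hU := Pool.Agent.H853R3.U469.taskU }

end Pool.Agent.Q286.AP
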