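import Mathlib
import Pool.Agent.Q286.AP.Gen
import Pool.Agent.H54R3.Task469O

set_option autoImplicit false

/-!
# A fixed point gives the equation `h = D h + r` on `[0, 2]`

Adaptation of `Pool.Agent.H54R3.T469O.taskO` to a general dual operator and an extra source `r`.
-/

open Finset MeasureTheory

namespace Pool.Agent.Q286.AP

open Pool.Agent.H469R10.HO
open Pool.Agent.H54R3.T469O (PP_add PP_sub PP_const_mul PP_cos PP_hasSum jj_of_near alp_prime alp_eq_zero)

/-- the theta series on the boundary -/
noncomputable def Th (c lam : ℝ) (α : ℕ → ℝ) (x : ℝ) : ℝ := ∑' n, α n * Real.cos (uu c lam n * x)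

/-- the coefficients -/
noncomputable def al (c lam : ℝ) (B : ℕ → Finset ℕ) (b : ℕ → ℝ) (n : ℕ) : ℝ :=
  if n = 0 then b 0 - 1 else if Squarefree n then ∏ p ∈ n.primeFactors, bet c lam B b p else 0

theorem fixO {c lam K : ℝ} {D : (ℝ → ℝ) → ℝ → ℝ} (hD : Dual D K) {B : ℕ → Finset ℕ} {b : ℕ → ℝ}
    (hlam : 1 ≤ lam)
    (hB : ∀ j, ∀ p ∈ B j, 1 ≤ j ∧ p.Prime ∧ |uu c lam p - xx j| ≤ 1 / 2) (hne : ∀ j, 1 ≤ j → (B j).Nonempty)
    (hsum : Summable (fun n => |alp c lam B b n|)) {r : ℝ → ℝ} (hr : Continuous r)
    (hfix : ∀ j, b j = (- PP (s0 c) j + PP (D (s0 c)) j + PP r j) + ∑' n, alp c lam B b n * TG c lam D n j) :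
    (Summable fun n => |al c lam B b n|) ∧
    ∀ x ∈ Set.Icc (0:ℝ) 2, Th c lam (al c lam B b) x = D (Th c lam (al c lam B b)) x + r x := by
  classical
  -- coefficients without `n = 1`
  let a : ℕ → ℝ := fun n => if n = 1 then 0 else alp c lam B b n
  have ha : Summable (fun n => |a n|) := by
    refine Summable.of_nonneg_of_le (fun _ => abs_nonneg _) (fun n => ?_) hsum
    simp only [a]
    split_ifs
    · rw [abs_zero]; exact abs_nonneg _
    · exact le_rfl
  let G : ℝ → ℝ := fun x => ∑' n, a n * Real.cos (uu c lam n * x)
  have hGb : ∀ n x, ‖a n * Real.cos (uu c lam n * x)‖ ≤ |a n| := by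
    intro n x
    rw [Real.norm_eq_abs, abs_mul]
    calc |a n| * |Real.cos (uu c lam n * x)| ≤ |a n| * 1 := by
          gcongr
          exact Real.abs_cos_le_one _
      _ = |a n| := mul_one _
  have hGs : ∀ x, HasSum (fun n => a n * Real.cos (uu c lam n * x)) (G x) := fun x =>
    (Summable.of_norm_bounded ha (fun n => hGb n x)).hasSum
  have hGc : Continuous G := continuous_tsum (fun n => by fun_prop) ha hGb
  have hGB : ∀ x, |G x| ≤ ∑' n, |a n| := fun x => tsum_of_norm_bounded ha.hasSum (fun n => hGb n x)
  have hs0c : Continuous (s0 c) := by unfold s0; fun_prop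
  have hs0B : ∀ x, |s0 c x| ≤ 2 := by
    intro x
    unfold s0
    rw [abs_le]
    constructor <;> linarith [Real.neg_one_le_cos (c * x), Real.cos_le_one (c * x)]
  let h : ℝ → ℝ := fun x => s0 c x + G x
  have hhc : Continuous h := hs0c.add hGc
  have hhB : ∀ x, |h x| ≤ 2 + ∑' n, |a n| := fun x =>
    (abs_add_le _ _).trans (add_le_add (hs0B x) (hGB x))
  -- the sum over `n = 0` and primes
  have hE : ∀ j, HasSum (fun n => if n = 0 ∨ n.Prime then (if jj c lam n = j then alp c lam B b n else 0) else 0)
      (b j) := by
    intro j
    rcases Nat.eq_zero_or_pos j with rfl | hj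
    · have h1 := hasSum_sum_of_ne_finset_zero (L := SummationFilter.unconditional ℕ) (f := fun n => if n = 0 ∨ n.Prime then
          (if jj c lam n = 0 then alp c lam B b n else 0) else 0) (s := {0}) (fun n hn => by
        have hn0 : n ≠ 0 := by simpa using hn
        by_cases hp : n.Prime
        · simp only [hn0, hp, false_or, if_true]
          split_ifs with hj
          · rw [alp_prime hp]
            unfold bet
            rw [hj]
            rw [if_neg]
            intro hmem
            have := (hB 0 n hmem).1
            omega
          · rfl
        · simp [hn0, hp])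
      simp only [sum_singleton, true_or, if_true, jj_zero hlam] at h1
      have h2 : alp c lam B b 0 = b 0 := by unfold alp; rw [if_pos rfl]
      rwa [h2] at h1
    · have h1 := hasSum_sum_of_ne_finset_zero (L := SummationFilter.unconditional ℕ) (f := fun n => if n = 0 ∨ n.Prime then
          (if jj c lam n = j then alp c lam B b n else 0) else 0) (s := B j) (fun n hn => by
        by_cases hn0 : n = 0
        · subst hn0
          simp only [true_or, if_true, jj_zero hlam]
          rw [if_neg (by omega)]
        by_cases hp : n.Prime
        · simp only [hn0, hp, false_or, if_true]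
          split_ifs with hj
          · rw [alp_prime hp]
            unfold bet
            rw [hj, if_neg hn]
          · rfl
        · simp [hn0, hp])
      have h2 : ∑ n ∈ B j, (if n = 0 ∨ n.Prime then
          (if jj c lam n = j then alp c lam B b n else 0) else 0) = b j := by
        have h3 : ∀ n ∈ B j, (if n = 0 ∨ n.Prime then
          (if jj c lam n = j then alp c lam B b n else 0) else 0) = b j / (B j).card := by
          intro n hn
          obtain ⟨-, hp, hnear⟩ := hB j n hn
          have hjn := jj_of_near hnear
          rw [if_pos (Or.inr hp), if_pos hjn, alp_prime hp]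
          unfold bet
          rw [hjn, if_pos hn]
        rw [sum_congr rfl h3, sum_const, nsmul_eq_mul]
        have h4 : ((B j).card : ℝ) ≠ 0 := by
          have := (hne j hj).card_pos
          positivity
        field_simp
      rwa [h2] at h1
  -- linearity of `D`
  have hDadd : ∀ x, D h x = D (s0 c) x + D G x := by
    intro x
    have h1 := hD.sum (f := fun n y => if n = 0 then s0 c y else if n = 1 then G y else 0)
      (a := fun n => if n = 0 then 2 else if n = 1 then ∑' n, |a n| else 0) (g := h)
      (fun n => by
        by_cases h0 : n = 0
        · simp only [h0, if_true]; exact hs0c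
        by_cases h1 : n = 1
        · simp only [h1, if_true, one_ne_zero, if_false]; exact hGc
        · simp only [h0, h1, if_false]; exact continuous_const)
      (fun n y => by
        by_cases h0 : n = 0
        · simp only [h0, if_true]; exact hs0B y
        by_cases h1 : n = 1
        · simp only [h1, if_true, one_ne_zero, if_false]; exact hGB y
        · simp only [h0, h1, if_false, abs_zero, le_refl])
      (summable_of_ne_finset_zero (s := {0, 1}) (fun n hn => by
        simp only [mem_insert, mem_singleton, not_or] at hn
        simp [hn.1, hn.2]))
      (fun y => by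
        have h2 := hasSum_sum_of_ne_finset_zero (L := SummationFilter.unconditional ℕ)
          (f := fun n => if n = 0 then s0 c y else if n = 1 then G y else 0) (s := {0, 1})
          (fun n hn => by
            simp only [mem_insert, mem_singleton, not_or] at hn
            simp [hn.1, hn.2])
        simpa using h2) x
    have h3 := hasSum_sum_of_ne_finset_zero (L := SummationFilter.unconditional ℕ)
      (f := fun n => D (fun y => if n = 0 then s0 c y else if n = 1 then G y else 0) x) (s := {0, 1})
      (fun n hn => by
        simp only [mem_insert, mem_singleton, not_or] at hn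
        simp only [hn.1, hn.2, if_false]
        exact hD.zero x)
    rw [h1.unique h3]
    simp
  have hDhc : Continuous (D h) := hD.cont hhc hhB
  have hDsc : Continuous (D (s0 c)) := hD.cont hs0c hs0B
  have hDGc : Continuous (D G) := hD.cont hGc hGB
  -- the projections
  have hP : ∀ j, PP h j = PP (D h) j + PP r j := by
    intro j
    have H1 : HasSum (fun n => a n * PP (fun t => Real.cos (uu c lam n * t)) j) (PP G j) := by
      have h1 := PP_hasSum (F := fun n x => a n * Real.cos (uu c lam n * x)) (a := fun n => |a n|)
        (fun n => by fun_prop) (fun n x _ => hGb n x) ha j (f := G) (fun x _ => hGs x)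
      simpa only [PP_const_mul] using h1
    have hDc : ∀ n, Continuous (D (fun y => Real.cos (uu c lam n * y))) := fun n => hD.cos_cont _
    have H2 : HasSum (fun n => a n * PP (D (fun y => Real.cos (uu c lam n * y))) j) (PP (D G) j) := by
      have h1 := PP_hasSum (F := fun n x => a n * D (fun y => Real.cos (uu c lam n * y)) x)
        (a := fun n => |a n| * K)
        (fun n => continuous_const.mul (hDc n)) (fun n x hx => by
          rw [abs_mul]
          have h2 := hD.bdd (f := fun y => Real.cos (uu c lam n * y)) (C := 1) (by fun_prop)
            (fun y => Real.abs_cos_le_one _) x hx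
          rw [mul_one] at h2
          gcongr) (ha.mul_right _) j (f := D G) (fun x _ => by
          have h2 := hD.sum (f := fun n y => a n * Real.cos (uu c lam n * y)) (a := fun n => |a n|) (g := G)
            (fun n => by fun_prop) (fun n y => by
              have := hGb n y
              rwa [Real.norm_eq_abs] at this) ha hGs x
          refine h2.congr_fun fun n => ?_
          exact (hD.smul _ _ x).symm)
      simpa only [PP_const_mul] using h1
    have H4 : HasSum (fun n => alp c lam B b n * TG c lam D n j) (- PP G j + PP (D G) j + b j) := by
      have h1 := ((H1.neg).add H2).add (hE j)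
      have h2 : (fun n => alp c lam B b n * TG c lam D n j) = fun n =>
          -(a n * PP (fun t => Real.cos (uu c lam n * t)) j) +
            a n * PP (D (fun y => Real.cos (uu c lam n * y))) j +
            (if n = 0 ∨ n.Prime then (if jj c lam n = j then alp c lam B b n else 0) else 0) := by
        funext n
        by_cases h0 : n = 0 ∨ n.Prime
        · have hn1 : n ≠ 1 := by
            rintro rfl
            rcases h0 with h0 | h0
            · omega
            · exact Nat.not_prime_one h0
          have han : a n = alp c lam B b n := if_neg hn1
          unfold TG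
          rw [if_pos h0, if_pos h0, han, PP_sub (by fun_prop) (by fun_prop), PP_cos]
          split_ifs <;> ring
        · by_cases h3 : Squarefree n ∧ 2 ≤ n.primeFactors.card
          · have hn1 : n ≠ 1 := by
              rintro rfl
              simp at h3
            have han : a n = alp c lam B b n := if_neg hn1
            unfold TG
            rw [if_neg h0, if_neg h0, if_pos h3, han]
            ring
          · by_cases hn1 : n = 1
            · have han : a n = 0 := if_pos hn1
              unfold TG
              rw [if_neg h0, if_neg h0, if_neg h3, han]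
              ring
            · have h4 := alp_eq_zero (c := c) (lam := lam) (B := B) (b := b) h0 h3 hn1
              have han : a n = 0 := (if_neg hn1).trans h4
              rw [if_neg h0, h4, han]
              ring
      rw [h2]
      exact h1
    have h5 := hfix j
    rw [H4.tsum_eq] at h5
    have h6 : PP h j = PP (s0 c) j + PP G j := PP_add hs0c hGc j
    have h7 : PP (D h) j = PP (D (s0 c)) j + PP (D G) j := by
      rw [← PP_add hDsc hDGc]
      congr 1
      funext x
      exact hDadd x
    linarith
  have hL := Pool.Agent.H82R3.T469L.taskL (fun x => h x - (D h x + r x)) (hhc.sub (hDhc.add hr)) (fun j => by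
    have h1 : PP (fun x => h x - (D h x + r x)) j = 0 := by
      have hc2 : Continuous (fun x => D h x + r x) := hDhc.add hr
      rw [PP_sub hhc hc2, PP_add hDhc hr, hP j, sub_self]
    unfold PP at h1
    have h2 : ww j ≠ 0 := by have := ww_ge j; positivity
    exact (div_eq_zero_iff.mp h1).resolve_right h2)
  have hser0 : ∀ x, HasSum (fun n => al c lam B b n * Real.cos (uu c lam n * x)) (h x) := by
    intro x
    have h1 : HasSum (fun n => a n * Real.cos (uu c lam n * x) +
        ((if n = 0 then -1 else 0) + (if n = 1 then Real.cos (c * x) else 0)))
        (G x + (-1 + Real.cos (c * x))) :=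
      (hGs x).add ((hasSum_ite_eq 0 (-1)).add (hasSum_ite_eq 1 (Real.cos (c * x))))
    have h2 : (fun n => al c lam B b n * Real.cos (uu c lam n * x)) = fun n => a n * Real.cos (uu c lam n * x) +
        ((if n = 0 then -1 else 0) + (if n = 1 then Real.cos (c * x) else 0)) := by
      funext n
      unfold al
      by_cases hn0 : n = 0
      · subst hn0
        have h3 : a 0 = b 0 := by
          simp only [a]
          rw [if_neg (by norm_num)]
          unfold alp
          rw [if_pos rfl]
        rw [if_pos rfl, if_pos rfl, if_neg (by norm_num), h3, uu_zero hlam, zero_mul, Real.cos_zero]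
        ring
      by_cases hn1 : n = 1
      · subst hn1
        have h3 : a 1 = 0 := if_pos rfl
        rw [if_neg (by norm_num), if_pos squarefree_one, if_neg (by norm_num), if_pos rfl, h3,
          Pool.Agent.H54R3.T469O.uu_one, Nat.primeFactors_one, prod_empty]
        ring
      · have h3 : a n = alp c lam B b n := if_neg hn1
        rw [if_neg hn0, if_neg hn0, if_neg hn1, h3]
        unfold alp
        rw [if_neg hn0]
        ring
    rw [h2]
    have e : h x = G x + (-1 + Real.cos (c * x)) := by
      simp only [h, s0]
      ring
    rw [e]
    exact h1
  have hser : Th c lam (al c lam B b) = h := by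
    funext x
    exact (hser0 x).tsum_eq
  refine ⟨?_, fun x hx => ?_⟩
  · refine hsum.congr_cofinite ?_
    rw [Filter.EventuallyEq, Filter.eventually_cofinite]
    refine (Set.finite_singleton 0).subset ?_
    intro n hn
    by_contra h0
    apply hn
    have h0' : n ≠ 0 := h0
    simp only [alp, al, if_neg h0']
  · rw [hser]
    have := hL x hx
    linarith

end Pool.Agent.Q286.AP
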