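import Mathlib
import Pool.Agent.Q286.AP.FixO
import Pool.Agent.H99R3.Task469M

set_option autoImplicit false

/-!
# Norms of `k(x) f(s x)` and `k(x) f(s / x)` for trigonometric sums `f` and `k` supported in `[3/4, 4/3]`
-/

open Finset MeasureTheory

namespace Pool.Agent.Q286.AP

open Pool.Agent.H469R10.HO
open Pool.Agent.H99R3.M469 (tr tr_cont tr_bd tr_cell QQ_w QQ_1w f0 f1 f0_eq f0_hd)

/-- the argument `s x` or `s / x` -/
noncomputable def ar (b : Bool) (s x : ℝ) : ℝ := if b then s * x else s * x⁻¹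

/-- its derivative -/
noncomputable def ar' (b : Bool) (s x : ℝ) : ℝ := if b then s else -(s * (x ^ 2)⁻¹)

section win

variable {S : Finset ℕ} {cl : ℕ → ℕ} {β ω φ : ℕ → ℝ}

lemma tr_win (hω : ∀ i ∈ S, |ω i - xx (cl i)| ≤ 1) (A : ℝ) (K : ℕ) :
    ∫ y in A..(A + 2 * K), tr S β ω φ y ^ 2 ≤ K * (60 * QQ (fun _ => 1) S cl β) := by
  have hc : Continuous fun y => tr S β ω φ y ^ 2 := (tr_cont S β ω φ).pow 2
  induction K with
  | zero => simp
  | succ K ih =>
    have h1 := tr_cell (β := β) (φ := φ) hω (A + 2 * K)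
    have e : A + 2 * ((K + 1 : ℕ) : ℝ) = A + 2 * K + 2 := by push_cast; ring
    rw [e, ← intervalIntegral.integral_add_adjacent_intervals (b := A + 2 * K)
      (hc.intervalIntegrable _ _) (hc.intervalIntegrable _ _)]
    push_cast
    linarith

lemma tr_scale (hω : ∀ i ∈ S, |ω i - xx (cl i)| ≤ 1) {s : ℝ} (hs : 1 ≤ s) :
    ∫ x in (3/4:ℝ)..(4/3), tr S β ω φ (s * x) ^ 2 ≤ 120 * QQ (fun _ => 1) S cl β := by
  have hs0 : 0 < s := by linarith
  have hc : Continuous fun y => tr S β ω φ y ^ 2 := (tr_cont S β ω φ).pow 2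
  have h1 : ∫ x in (3/4:ℝ)..(4/3), tr S β ω φ (s * x) ^ 2 =
      s⁻¹ * ∫ y in (s * (3/4))..(s * (4/3)), tr S β ω φ y ^ 2 := by
    rw [intervalIntegral.integral_comp_mul_left (fun y => tr S β ω φ y ^ 2) hs0.ne', smul_eq_mul]
  have hK : s ≤ (⌈s⌉₊ : ℝ) := Nat.le_ceil s
  have hK2 : (⌈s⌉₊ : ℝ) ≤ s + 1 := (Nat.ceil_lt_add_one hs0.le).le
  have hQ : 0 ≤ QQ (fun _ => 1) S cl β := QQ_nonneg (fun _ => zero_le_one) S cl β
  have h2 := tr_win (β := β) (φ := φ) hω (s * (3/4)) ⌈s⌉₊
  have h3 : ∫ y in (s * (3/4))..(s * (4/3)), tr S β ω φ y ^ 2 ≤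
      ∫ y in (s * (3/4))..(s * (3/4) + 2 * (⌈s⌉₊ : ℝ)), tr S β ω φ y ^ 2 := by
    apply intervalIntegral.integral_mono_interval le_rfl (by nlinarith) (by nlinarith)
    · filter_upwards with y; exact sq_nonneg _
    · exact hc.intervalIntegrable _ _
  rw [h1, inv_mul_le_iff₀ hs0]
  refine h3.trans (h2.trans ?_)
  have : (⌈s⌉₊ : ℝ) * (60 * QQ (fun _ => 1) S cl β) ≤ (2 * s) * (60 * QQ (fun _ => 1) S cl β) :=
    mul_le_mul_of_nonneg_right (by linarith) (by positivity)
  linarith

lemma inv_int {F : ℝ → ℝ} (hF : Continuous F) (hF0 : ∀ x, 0 ≤ F x) :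
    ∫ x in (3/4:ℝ)..(4/3), F x⁻¹ ≤ 16 / 9 * ∫ x in (3/4:ℝ)..(4/3), F x := by
  have hpos : ∀ y ∈ Set.uIcc (3/4:ℝ) (4/3), 0 < y := by
    intro y hy
    rw [Set.uIcc_of_le (by norm_num)] at hy
    linarith [hy.1]
  have h1 : ∫ y in (3/4:ℝ)..(4/3), ((fun x => F x * (x ^ 2)⁻¹) ∘ fun y : ℝ => y⁻¹) y * (-(y ^ 2)⁻¹) =
      ∫ x in (3/4:ℝ)⁻¹..(4/3)⁻¹, F x * (x ^ 2)⁻¹ := by
    apply intervalIntegral.integral_comp_mul_deriv' (f := fun y : ℝ => y⁻¹)
      (g := fun x => F x * (x ^ 2)⁻¹)
    · intro y hy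
      exact hasDerivAt_inv (hpos y hy).ne'
    · apply ContinuousOn.neg
      apply ContinuousOn.inv₀ (by fun_prop)
      intro y hy
      exact (pow_pos (hpos y hy) 2).ne'
    · apply ContinuousOn.mul hF.continuousOn
      apply ContinuousOn.inv₀ (by fun_prop)
      rintro _ ⟨y, hy, rfl⟩
      exact (pow_pos (inv_pos.2 (hpos y hy)) 2).ne'
  have e1 : (3/4:ℝ)⁻¹ = 4/3 := by norm_num
  have e2 : (4/3:ℝ)⁻¹ = 3/4 := by norm_num
  rw [e1, e2, intervalIntegral.integral_symm (3/4) (4/3)] at h1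
  have h2 : ∫ y in (3/4:ℝ)..(4/3), F y⁻¹ = ∫ x in (3/4:ℝ)..(4/3), F x * (x ^ 2)⁻¹ := by
    have h3 : ∫ y in (3/4:ℝ)..(4/3), ((fun x => F x * (x ^ 2)⁻¹) ∘ fun y : ℝ => y⁻¹) y * (-(y ^ 2)⁻¹) =
        - ∫ y in (3/4:ℝ)..(4/3), F y⁻¹ := by
      rw [← intervalIntegral.integral_neg]
      apply intervalIntegral.integral_congr
      intro y hy
      have hy0 := hpos y hy
      simp only [Function.comp]
      field_simp
    linarith
  rw [h2, ← intervalIntegral.integral_const_mul]
  apply intervalIntegral.integral_mono_on (by norm_num)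
  · apply ContinuousOn.intervalIntegrable
    apply ContinuousOn.mul hF.continuousOn
    apply ContinuousOn.inv₀ (by fun_prop)
    intro y hy
    exact (pow_pos (hpos y hy) 2).ne'
  · exact (Continuous.intervalIntegrable (by fun_prop) _ _)
  · intro x hx
    have hx0 : 0 < x := by linarith [hx.1]
    have h4 : (x ^ 2)⁻¹ ≤ 16 / 9 := by
      rw [inv_le_comm₀ (by positivity) (by norm_num)]
      have := hx.1
      nlinarith
    calc F x * (x ^ 2)⁻¹ ≤ F x * (16 / 9) := mul_le_mul_of_nonneg_left h4 (hF0 x)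
      _ = _ := by ring

lemma tr_arg (hω : ∀ i ∈ S, |ω i - xx (cl i)| ≤ 1) {s : ℝ} (hs : 1 ≤ s) (b : Bool) :
    ∫ x in (3/4:ℝ)..(4/3), tr S β ω φ (ar b s x) ^ 2 ≤ 214 * QQ (fun _ => 1) S cl β := by
  have h1 := tr_scale (β := β) (φ := φ) hω hs
  have hQ : 0 ≤ QQ (fun _ => 1) S cl β := QQ_nonneg (fun _ => zero_le_one) S cl β
  unfold ar
  cases b
  · have h2 := inv_int (F := fun x => tr S β ω φ (s * x) ^ 2)
      (((tr_cont S β ω φ).comp (by fun_prop)).pow 2) (fun x => sq_nonneg _)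
    simp only [Bool.false_eq_true, if_false]
    linarith
  · simp only [if_true]
    linarith

end win

/-- a `C^1` weight supported in `[3/4, 4/3]` -/
structure Wt (k k' : ℝ → ℝ) (B0 B1 : ℝ) : Prop where
  hd : ∀ x, HasDerivAt k (k' x) x
  hc : Continuous k'
  z0 : ∀ x, (x < 3/4 ∨ 4/3 < x) → k x = 0
  h0 : ∀ x, |k x| ≤ B0
  h1 : ∀ x, |k' x| ≤ B1

namespace Wt

variable {k k' : ℝ → ℝ} {B0 B1 : ℝ} (w : Wt k k' B0 B1)
include w

lemma B0_nn : 0 ≤ B0 := (abs_nonneg _).trans (w.h0 0)
lemma B1_nn : 0 ≤ B1 := (abs_nonneg _).trans (w.h1 0)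

lemma kc : Continuous k := continuous_iff_continuousAt.2 fun x => (w.hd x).continuousAt

lemma ev0 {x : ℝ} (hx : x < 3/4) : k =ᶠ[nhds x] fun _ => 0 := by
  filter_upwards [Iio_mem_nhds hx] with y hy
  exact w.z0 y (Or.inl hy)

lemma z1 (x : ℝ) (hx : x < 3/4 ∨ 4/3 < x) : k' x = 0 := by
  have h : k =ᶠ[nhds x] fun _ => 0 := by
    rcases hx with hx | hx
    · exact w.ev0 hx
    · filter_upwards [Ioi_mem_nhds hx] with y hy
      exact w.z0 y (Or.inr hy)
  have h1 : HasDerivAt k 0 x := (hasDerivAt_const x (0:ℝ)).congr_of_eventuallyEq h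
  exact (w.hd x).unique h1

variable {f f' : ℝ → ℝ} (b : Bool) (s : ℝ)

lemma gcont (hf : Continuous f) : Continuous fun x => k x * f (ar b s x) := by
  have hk := w.kc
  unfold ar
  cases b
  · simp only [Bool.false_eq_true, if_false]
    rw [continuous_iff_continuousAt]
    intro x
    by_cases hx : x = 0
    · subst hx
      have h1 : (fun x => k x * f (s * x⁻¹)) =ᶠ[nhds 0] fun _ => 0 := by
        filter_upwards [w.ev0 (x := 0) (by norm_num)] with y hy
        rw [hy, zero_mul]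
      exact (continuousAt_const).congr h1.symm
    · exact hk.continuousAt.mul (hf.continuousAt.comp (continuousAt_const.mul (continuousAt_inv₀ hx)))
  · simp only [if_true]
    fun_prop

/-- the derivative of `k(x) f(s x^{±1})` -/
noncomputable def gd (_ : Wt k k' B0 B1) (f f' : ℝ → ℝ) (b : Bool) (s x : ℝ) : ℝ :=
  k' x * f (ar b s x) + k x * (f' (ar b s x) * ar' b s x)

lemma ghd (hf : ∀ x, HasDerivAt f (f' x) x) (x : ℝ) :
    HasDerivAt (fun x => k x * f (ar b s x)) (w.gd f f' b s x) x := by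
  unfold gd
  by_cases hx : x = 0
  · subst hx
    have hz := w.ev0 (x := 0) (by norm_num)
    have h1 : (fun x => k x * f (ar b s x)) =ᶠ[nhds 0] fun _ => 0 := by
      filter_upwards [hz] with y hy
      rw [hy, zero_mul]
    have h2 : k 0 = 0 := w.z0 0 (Or.inl (by norm_num))
    have h3 : k' 0 = 0 := w.z1 0 (Or.inl (by norm_num))
    rw [h2, h3, zero_mul, zero_mul, add_zero]
    exact (hasDerivAt_const _ _).congr_of_eventuallyEq h1
  · have ha : HasDerivAt (ar b s) (ar' b s x) x := by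
      unfold ar ar'
      cases b
      · simp only [Bool.false_eq_true, if_false]
        have := (hasDerivAt_inv hx).const_mul s
        refine this.congr_deriv (by ring)
      · simp only [if_true]
        have := (hasDerivAt_id x).const_mul s
        simpa using this
    exact (w.hd x).mul ((hf (ar b s x)).comp x ha)

lemma gdcont (hf : Continuous f) (hf' : Continuous f') : Continuous (w.gd f f' b s) := by
  have hk := w.kc
  have hk' := w.hc
  rw [continuous_iff_continuousAt]
  intro x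
  by_cases hx : x < 3/4
  · have h1 : w.gd f f' b s =ᶠ[nhds x] fun _ => 0 := by
      filter_upwards [Iio_mem_nhds hx] with y hy
      unfold gd
      rw [w.z0 y (Or.inl hy), w.z1 y (Or.inl hy)]
      ring
    exact (continuousAt_const).congr h1.symm
  · have hx0 : x ≠ 0 := by rintro rfl; norm_num at hx
    unfold gd
    have ha : ContinuousAt (ar b s) x := by
      unfold ar
      cases b
      · simp only [Bool.false_eq_true, if_false]
        exact continuousAt_const.mul (continuousAt_inv₀ hx0)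
      · simp only [if_true]
        fun_prop
    have ha' : ContinuousAt (ar' b s) x := by
      unfold ar'
      cases b
      · simp only [Bool.false_eq_true, if_false]
        exact (continuousAt_const.mul ((continuousAt_id.pow 2).inv₀ (pow_ne_zero 2 hx0))).neg
      · simp only [if_true]
        fun_prop
    exact (hk'.continuousAt.mul (ContinuousAt.comp (f := ar b s) hf.continuousAt ha)).add
      (hk.continuousAt.mul ((ContinuousAt.comp (f := ar b s) hf'.continuousAt ha).mul ha'))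

omit w in
lemma cut {g : ℝ → ℝ} (hg : Continuous g) (hz : ∀ x, (x < 3/4 ∨ 4/3 < x) → g x = 0) :
    ∫ t in (0:ℝ)..2, g t = ∫ t in (3/4:ℝ)..(4/3), g t := by
  rw [← intervalIntegral.integral_add_adjacent_intervals (b := 3/4)
    (hg.intervalIntegrable _ _) (hg.intervalIntegrable _ _),
    ← intervalIntegral.integral_add_adjacent_intervals (a := 3/4) (b := 4/3)
    (hg.intervalIntegrable _ _) (hg.intervalIntegrable _ _)]
  have h1 : ∫ t in (0:ℝ)..(3/4), g t = 0 := by
    have h34 : g (3/4) = 0 := by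
      have : Filter.Tendsto g (nhdsWithin (3/4) (Set.Iio (3/4))) (nhds (g (3/4))) :=
        hg.continuousAt.tendsto.mono_left nhdsWithin_le_nhds
      refine tendsto_nhds_unique (this.congr' ?_) tendsto_const_nhds
      filter_upwards [self_mem_nhdsWithin] with y hy
      exact hz y (Or.inl hy)
    have : ∫ t in (0:ℝ)..(3/4), g t = ∫ t in (0:ℝ)..(3/4), (0:ℝ) := by
      apply intervalIntegral.integral_congr
      intro x hx
      rw [Set.uIcc_of_le (by norm_num)] at hx
      rcases hx.2.eq_or_lt with h | h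
      · rw [h]; exact h34
      · exact hz x (Or.inl h)
    rw [this]; simp
  have h2 : ∫ t in (4/3:ℝ)..2, g t = 0 := by
    have h34 : g (4/3) = 0 := by
      have : Filter.Tendsto g (nhdsWithin (4/3) (Set.Ioi (4/3))) (nhds (g (4/3))) :=
        hg.continuousAt.tendsto.mono_left nhdsWithin_le_nhds
      refine tendsto_nhds_unique (this.congr' ?_) tendsto_const_nhds
      filter_upwards [self_mem_nhdsWithin] with y hy
      exact hz y (Or.inr hy)
    have : ∫ t in (4/3:ℝ)..2, g t = ∫ t in (4/3:ℝ)..2, (0:ℝ) := by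
      apply intervalIntegral.integral_congr
      intro x hx
      rw [Set.uIcc_of_le (by norm_num)] at hx
      rcases hx.1.eq_or_lt with h | h
      · rw [← h]; exact h34
      · exact hz x (Or.inr h)
    rw [this]; simp
  rw [h1, h2]
  ring

lemma int_sq {S : Finset ℕ} {cl : ℕ → ℕ} {β ω φ : ℕ → ℝ} (hω : ∀ i ∈ S, |ω i - xx (cl i)| ≤ 1)
    (hs : 1 ≤ s) {l : ℝ → ℝ} {B : ℝ} (hl : Continuous fun x => l x * tr S β ω φ (ar b s x))
    (hz : ∀ x, (x < 3/4 ∨ 4/3 < x) → l x = 0) (hB : ∀ x ∈ Set.Icc (3/4:ℝ) (4/3), |l x| ≤ B) :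
    ∫ t in (0:ℝ)..2, (l t * tr S β ω φ (ar b s t)) ^ 2 ≤ B ^ 2 * (214 * QQ (fun _ => 1) S cl β) := by
  rw [cut (g := fun t => (l t * tr S β ω φ (ar b s t)) ^ 2) (hl.pow 2) (fun x hx => by
    rw [hz x hx]; ring)]
  have hB0 : 0 ≤ B := (abs_nonneg _).trans (hB 1 ⟨by norm_num, by norm_num⟩)
  have h1 := tr_arg (β := β) (φ := φ) hω hs b
  have h2 : ContinuousOn (fun x => tr S β ω φ (ar b s x) ^ 2) (Set.uIcc (3/4:ℝ) (4/3)) := by
    apply ContinuousOn.pow
    apply (tr_cont S β ω φ).comp_continuousOn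
    unfold ar
    cases b
    · simp only [Bool.false_eq_true, if_false]
      apply ContinuousOn.mul continuousOn_const
      apply ContinuousOn.inv₀ continuousOn_id
      intro x hx
      rw [Set.uIcc_of_le (by norm_num)] at hx
      have := hx.1
      intro h0
      simp only [id] at h0
      linarith
    · simp only [if_true]
      fun_prop
  refine le_trans ?_ (mul_le_mul_of_nonneg_left h1 (sq_nonneg B))
  rw [← intervalIntegral.integral_const_mul]
  apply intervalIntegral.integral_mono_on (by norm_num) ((hl.pow 2).intervalIntegrable _ _)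
    ((continuousOn_const.mul h2).intervalIntegrable)
  intro x hx
  show (l x * tr S β ω φ (ar b s x)) ^ 2 ≤ B ^ 2 * tr S β ω φ (ar b s x) ^ 2
  rw [mul_pow]
  apply mul_le_mul_of_nonneg_right _ (sq_nonneg _)
  rw [← sq_abs]
  exact pow_le_pow_left₀ (abs_nonneg _) (hB x hx) 2

/-- both norms of one term -/
theorem term {S : Finset ℕ} {cl : ℕ → ℕ} {β ω : ℕ → ℝ} (hω : ∀ i ∈ S, |ω i - xx (cl i)| ≤ 1)
    (hs : 1 ≤ s) (J : ℕ) :
    (∑ j ∈ range J, (PP (fun x => k x * (fun y => ∑ i ∈ S, β i * Real.cos (ω i * y)) (ar b s x)) j) ^ 2 ≤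
      (74 * (B0 + B1 + s * B0)) ^ 2 * QQ (fun _ => 1) S cl β) ∧
    (∑ j ∈ range J, (1 + (j : ℝ)) ^ 2 *
      (PP (fun x => k x * (fun y => ∑ i ∈ S, β i * Real.cos (ω i * y)) (ar b s x)) j) ^ 2 ≤
      (74 * (B0 + B1 + s * B0)) ^ 2 * QQ (fun y => (1 + (y : ℝ)) ^ 2) S cl β) := by
  have hB0 := w.B0_nn
  have hB1 := w.B1_nn
  have hs0 : 0 ≤ s := by linarith
  have hQ1 : 0 ≤ QQ (fun _ => 1) S cl β := QQ_nonneg (fun _ => zero_le_one) S cl β
  have hQw : 0 ≤ QQ (fun y => (1 + (y : ℝ)) ^ 2) S cl β := QQ_nonneg (fun y => by positivity) S cl β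
  have hQ12 := QQ_1w (S := S) (cl := cl) (β := β)
  have hf0 : (fun y => ∑ i ∈ S, β i * Real.cos (ω i * y)) = f0 S β ω := (f0_eq S β ω).symm
  rw [hf0]
  have hfc : Continuous (f0 S β ω) := tr_cont S β ω _
  have hfc' : Continuous (f1 S β ω) := tr_cont S _ ω _
  have hgc := w.gcont b s hfc
  have i0 : ∫ t in (0:ℝ)..2, (k t * f0 S β ω (ar b s t)) ^ 2 ≤ B0 ^ 2 * (214 * QQ (fun _ => 1) S cl β) :=
    int_sq w b s (φ := fun _ => 0) hω hs hgc w.z0 (fun x _ => w.h0 x)
  constructor
  · refine (bessel hgc (range J)).trans (i0.trans ?_)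
    have : B0 ^ 2 * 214 ≤ (74 * (B0 + B1 + s * B0)) ^ 2 := by
      have h1 : B0 ≤ B0 + B1 + s * B0 := by nlinarith
      have h2 : B0 ^ 2 ≤ (B0 + B1 + s * B0) ^ 2 := pow_le_pow_left₀ hB0 h1 2
      nlinarith
    calc B0 ^ 2 * (214 * QQ (fun _ => 1) S cl β) = (B0 ^ 2 * 214) * QQ (fun _ => 1) S cl β := by ring
      _ ≤ _ := mul_le_mul_of_nonneg_right this hQ1
  · have hwb := weighted_bessel (w.ghd b s (f := f0 S β ω) (f' := f1 S β ω) (f0_hd S β ω))
      (w.gdcont b s hfc hfc') (range J)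
    refine hwb.trans ?_
    have c1 : Continuous fun x => k' x * tr S β ω (fun _ => 0) (ar b s x) := by
      rw [continuous_iff_continuousAt]
      intro x
      by_cases hx : x < 3/4
      · have h1 : (fun x => k' x * tr S β ω (fun _ => 0) (ar b s x)) =ᶠ[nhds x] fun _ => 0 := by
          filter_upwards [Iio_mem_nhds hx] with y hy
          rw [w.z1 y (Or.inl hy), zero_mul]
        exact (continuousAt_const).congr h1.symm
      · have hx0 : x ≠ 0 := by rintro rfl; norm_num at hx
        refine w.hc.continuousAt.mul (ContinuousAt.comp (f := ar b s) hfc.continuousAt ?_)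
        unfold ar
        cases b
        · simp only [Bool.false_eq_true, if_false]
          exact continuousAt_const.mul (continuousAt_inv₀ hx0)
        · simp only [if_true]
          fun_prop
    have c2 : Continuous fun x => (k x * ar' b s x) * tr S (fun i => β i * ω i) ω (fun _ => Real.pi / 2) (ar b s x) := by
      rw [continuous_iff_continuousAt]
      intro x
      by_cases hx : x < 3/4
      · have h1 : (fun x => (k x * ar' b s x) * tr S (fun i => β i * ω i) ω (fun _ => Real.pi / 2) (ar b s x))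
            =ᶠ[nhds x] fun _ => 0 := by
          filter_upwards [Iio_mem_nhds hx] with y hy
          rw [w.z0 y (Or.inl hy), zero_mul, zero_mul]
        exact (continuousAt_const).congr h1.symm
      · have hx0 : x ≠ 0 := by rintro rfl; norm_num at hx
        refine (w.kc.continuousAt.mul ?_).mul (ContinuousAt.comp (f := ar b s) hfc'.continuousAt ?_)
        · unfold ar'
          cases b
          · simp only [Bool.false_eq_true, if_false]
            exact (continuousAt_const.mul ((continuousAt_id.pow 2).inv₀ (pow_ne_zero 2 hx0))).neg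
          · simp only [if_true]
            fun_prop
        · unfold ar
          cases b
          · simp only [Bool.false_eq_true, if_false]
            exact continuousAt_const.mul (continuousAt_inv₀ hx0)
          · simp only [if_true]
            fun_prop
    have i1 : ∫ t in (0:ℝ)..2, (k' t * tr S β ω (fun _ => 0) (ar b s t)) ^ 2 ≤
        B1 ^ 2 * (214 * QQ (fun _ => 1) S cl β) :=
      int_sq w b s hω hs c1 w.z1 (fun x _ => w.h1 x)
    have i2 : ∫ t in (0:ℝ)..2, ((k t * ar' b s t) * tr S (fun i => β i * ω i) ω (fun _ => Real.pi / 2) (ar b s t)) ^ 2 ≤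
        (16 / 9 * (s * B0)) ^ 2 * (214 * QQ (fun _ => 1) S cl (fun i => β i * ω i)) := by
      refine int_sq w b s hω hs c2 (fun x hx => by rw [w.z0 x hx, zero_mul]) (fun x hx => ?_)
      rw [abs_mul]
      have ha : |ar' b s x| ≤ 16 / 9 * s := by
        unfold ar'
        cases b
        · simp only [Bool.false_eq_true, if_false]
          have hx0 : 0 < x := by linarith [hx.1]
          rw [abs_neg, abs_mul, abs_of_nonneg hs0, abs_of_pos (by positivity), mul_comm]
          apply mul_le_mul_of_nonneg_right _ hs0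
          rw [inv_le_comm₀ (by positivity) (by norm_num)]
          have := hx.1
          nlinarith
        · simp only [if_true]
          rw [abs_of_nonneg hs0]
          linarith
      calc |k x| * |ar' b s x| ≤ B0 * (16 / 9 * s) := mul_le_mul (w.h0 x) ha (abs_nonneg _) hB0
        _ = _ := by ring
    have hQω := QQ_w (S := S) (cl := cl) (β := β) (ω := ω) hω
    have i3 : ∫ t in (0:ℝ)..2, (w.gd (f0 S β ω) (f1 S β ω) b s t) ^ 2 ≤
        2 * (B1 ^ 2 * (214 * QQ (fun _ => 1) S cl β)) +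
          2 * ((16 / 9 * (s * B0)) ^ 2 * (214 * QQ (fun _ => 1) S cl (fun i => β i * ω i))) := by
      have h3 : ∫ t in (0:ℝ)..2, (w.gd (f0 S β ω) (f1 S β ω) b s t) ^ 2 ≤
          ∫ t in (0:ℝ)..2, (2 * (k' t * tr S β ω (fun _ => 0) (ar b s t)) ^ 2 +
            2 * ((k t * ar' b s t) * tr S (fun i => β i * ω i) ω (fun _ => Real.pi / 2) (ar b s t)) ^ 2) := by
        apply intervalIntegral.integral_mono_on (by norm_num)
          (((w.gdcont b s hfc hfc').pow 2).intervalIntegrable _ _)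
          ((((c1.pow 2).const_mul 2).add ((c2.pow 2).const_mul 2)).intervalIntegrable _ _)
        intro x _
        show (w.gd (f0 S β ω) (f1 S β ω) b s x) ^ 2 ≤ 2 * (k' x * tr S β ω (fun _ => 0) (ar b s x)) ^ 2 +
            2 * ((k x * ar' b s x) * tr S (fun i => β i * ω i) ω (fun _ => Real.pi / 2) (ar b s x)) ^ 2
        unfold gd f0 f1
        set u := k' x * tr S β ω (fun _ => 0) (ar b s x) with hu
        set v := (k x * ar' b s x) * tr S (fun i => β i * ω i) ω (fun _ => Real.pi / 2) (ar b s x) with hv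
        have e : k' x * tr S β ω (fun _ => 0) (ar b s x) +
            k x * (tr S (fun i => β i * ω i) ω (fun _ => Real.pi / 2) (ar b s x) * ar' b s x) = u + v := by
          rw [hu, hv]; ring
        rw [e]
        nlinarith [sq_nonneg (u - v)]
      have q1 : IntervalIntegrable (fun t => 2 * (k' t * tr S β ω (fun _ => 0) (ar b s t)) ^ 2) volume 0 2 :=
        ((c1.pow 2).const_mul 2).intervalIntegrable _ _
      have q2 : IntervalIntegrable (fun t => 2 * ((k t * ar' b s t) *
          tr S (fun i => β i * ω i) ω (fun _ => Real.pi / 2) (ar b s t)) ^ 2) volume 0 2 :=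
        ((c2.pow 2).const_mul 2).intervalIntegrable _ _
      have h4 : ∫ t in (0:ℝ)..2, (2 * (k' t * tr S β ω (fun _ => 0) (ar b s t)) ^ 2 +
            2 * ((k t * ar' b s t) * tr S (fun i => β i * ω i) ω (fun _ => Real.pi / 2) (ar b s t)) ^ 2) =
          2 * (∫ t in (0:ℝ)..2, (k' t * tr S β ω (fun _ => 0) (ar b s t)) ^ 2) +
          2 * ∫ t in (0:ℝ)..2, ((k t * ar' b s t) * tr S (fun i => β i * ω i) ω (fun _ => Real.pi / 2) (ar b s t)) ^ 2 := by
        rw [← intervalIntegral.integral_const_mul, ← intervalIntegral.integral_const_mul]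
        exact intervalIntegral.integral_add q1 q2
      rw [h4] at h3
      linarith
    set Q := QQ (fun _ => 1) S cl β
    set W := QQ (fun y => (1 + (y : ℝ)) ^ 2) S cl β
    set V := QQ (fun _ => 1) S cl (fun i => β i * ω i)
    have j0 : B0 ^ 2 * (214 * Q) ≤ B0 ^ 2 * (214 * W) := by gcongr
    have j1 : B1 ^ 2 * (214 * Q) ≤ B1 ^ 2 * (214 * W) := by gcongr
    have j2 : (16 / 9 * (s * B0)) ^ 2 * (214 * V) ≤ (16 / 9 * (s * B0)) ^ 2 * (214 * (4 * W)) := by gcongr
    have e1 : (74 * (B0 + B1 + s * B0)) ^ 2 * W = 5476 * ((B0 + B1 + s * B0) ^ 2 * W) := by ring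
    have e2 : (B0 ^ 2 + B1 ^ 2 + (s * B0) ^ 2) * W ≤ (B0 + B1 + s * B0) ^ 2 * W := by
      apply mul_le_mul_of_nonneg_right _ hQw
      have : 0 ≤ s * B0 := mul_nonneg hs0 hB0
      nlinarith [mul_nonneg hB0 hB1, mul_nonneg hB0 this, mul_nonneg hB1 this]
    have i0' : ∫ t in (0:ℝ)..2, (fun x => k x * f0 S β ω (ar b s x)) t ^ 2 ≤ B0 ^ 2 * (214 * Q) := i0
    have p0 : 0 ≤ B0 ^ 2 * W := mul_nonneg (sq_nonneg _) hQw
    have p1 : 0 ≤ B1 ^ 2 * W := mul_nonneg (sq_nonneg _) hQw
    have p2 : 0 ≤ (s * B0) ^ 2 * W := mul_nonneg (sq_nonneg _) hQw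
    nlinarith

end Wt

end Pool.Agent.Q286.AP
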