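import Mathlib
import Pool.Agent.Q286.AP.Win

set_option autoImplicit false

/-!
# Families of weighted dilations: norms and formal properties
-/

open Finset MeasureTheory

namespace Pool.Agent.Q286.AP

open Pool.Agent.H469R10.HO
open Pool.Agent.H54R3.T469O (PP_add PP_const_mul)

/-- Minkowski for two terms -/
lemma mink_two {R : Finset ℕ} {w u v : ℕ → ℝ} {A B Q : ℝ} (hw : ∀ j, 0 ≤ w j) (hA : 0 ≤ A) (hB : 0 ≤ B)
    (hQ : 0 ≤ Q) (hu : ∑ j ∈ R, w j * u j ^ 2 ≤ A ^ 2 * Q) (hv : ∑ j ∈ R, w j * v j ^ 2 ≤ B ^ 2 * Q) :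
    ∑ j ∈ R, w j * (u j + v j) ^ 2 ≤ (A + B) ^ 2 * Q := by
  have h1 := Finset.sum_sq_le_sum_mul_sum_of_sq_le_mul R (r := fun j => w j * (u j * v j))
    (f := fun j => w j * u j ^ 2) (g := fun j => w j * v j ^ 2)
    (fun j _ => mul_nonneg (hw j) (sq_nonneg _)) (fun j _ => mul_nonneg (hw j) (sq_nonneg _))
    (fun j _ => le_of_eq (by ring))
  have h2 : (∑ j ∈ R, w j * (u j * v j)) ^ 2 ≤ (A * B * Q) ^ 2 := by
    refine h1.trans ?_
    calc (∑ j ∈ R, w j * u j ^ 2) * (∑ j ∈ R, w j * v j ^ 2) ≤ (A ^ 2 * Q) * (B ^ 2 * Q) :=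
          mul_le_mul hu hv (sum_nonneg fun j _ => mul_nonneg (hw j) (sq_nonneg _)) (by positivity)
      _ = _ := by ring
  have h3 : ∑ j ∈ R, w j * (u j * v j) ≤ A * B * Q :=
    le_of_sq_le_sq' h2 (by positivity)
  have e : ∑ j ∈ R, w j * (u j + v j) ^ 2 = ∑ j ∈ R, w j * u j ^ 2 + 2 * ∑ j ∈ R, w j * (u j * v j) +
      ∑ j ∈ R, w j * v j ^ 2 := by
    rw [mul_sum, ← sum_add_distrib, ← sum_add_distrib]
    exact sum_congr rfl fun j _ => by ring
  rw [e]
  nlinarith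
where
  le_of_sq_le_sq' {x y : ℝ} (h : x ^ 2 ≤ y ^ 2) (hy : 0 ≤ y) : x ≤ y := by
    rcases le_or_gt x 0 with hx | hx
    · linarith
    · exact (sq_le_sq₀ hx.le hy).1 h

lemma mink_fin {ι : Type*} (S : Finset ι) {R : Finset ℕ} {w : ℕ → ℝ} {t : ι → ℕ → ℝ} {A : ι → ℝ} {Q : ℝ}
    (hw : ∀ j, 0 ≤ w j) (hA : ∀ i, 0 ≤ A i) (hQ : 0 ≤ Q)
    (ht : ∀ i, ∑ j ∈ R, w j * t i j ^ 2 ≤ A i ^ 2 * Q) :
    ∑ j ∈ R, w j * (∑ i ∈ S, t i j) ^ 2 ≤ (∑ i ∈ S, A i) ^ 2 * Q := by
  classical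
  induction S using Finset.induction_on with
  | empty => simp
  | insert i S hi ih =>
    simp_rw [sum_insert hi]
    exact mink_two hw (hA i) (sum_nonneg fun i _ => hA i) hQ (ht i) ih

lemma mink_tsum {ι : Type*} {R : Finset ℕ} {w : ℕ → ℝ} {t : ι → ℕ → ℝ} {T : ℕ → ℝ} {A : ι → ℝ} {Q : ℝ}
    (hw : ∀ j, 0 ≤ w j) (hA : ∀ i, 0 ≤ A i) (hQ : 0 ≤ Q) (hs : Summable A)
    (ht : ∀ i, ∑ j ∈ R, w j * t i j ^ 2 ≤ A i ^ 2 * Q) (hT : ∀ j, HasSum (fun i => t i j) (T j)) :
    ∑ j ∈ R, w j * T j ^ 2 ≤ (∑' i, A i) ^ 2 * Q := by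
  have h1 : Filter.Tendsto (fun S : Finset ι => ∑ j ∈ R, w j * (∑ i ∈ S, t i j) ^ 2) Filter.atTop
      (nhds (∑ j ∈ R, w j * T j ^ 2)) := tendsto_finsetSum _ fun j _ => ((hT j).pow 2).const_mul _
  refine le_of_tendsto' h1 fun S => ?_
  refine (mink_fin S hw hA hQ ht).trans ?_
  apply mul_le_mul_of_nonneg_right _ hQ
  exact pow_le_pow_left₀ (sum_nonneg fun i _ => hA i) (hs.sum_le_tsum S fun i _ => hA i) 2

/-- sum of two operators -/
lemma Dual.add {D E : (ℝ → ℝ) → ℝ → ℝ} {K L : ℝ} (hD : Dual D K) (hE : Dual E L) :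
    Dual (fun f x => D f x + E f x) (K + L) where
  K0 := add_nonneg hD.K0 hE.K0
  cont := fun hf hC => (hD.cont hf hC).add (hE.cont hf hC)
  bdd := fun hf hC x hx => by
    refine (abs_add_le _ _).trans ?_
    have h1 := hD.bdd hf hC x hx
    have h2 := hE.bdd hf hC x hx
    linarith
  smul := fun a f x => by
    rw [hD.smul, hE.smul]
    ring
  sum := fun hf hb ha hg x => (hD.sum hf hb ha hg x).add (hE.sum hf hb ha hg x)

lemma Dual.neg {D : (ℝ → ℝ) → ℝ → ℝ} {K : ℝ} (hD : Dual D K) : Dual (fun f x => - D f x) K where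
  K0 := hD.K0
  cont := fun hf hC => (hD.cont hf hC).neg
  bdd := fun hf hC x hx => by
    rw [abs_neg]
    exact hD.bdd hf hC x hx
  smul := fun a f x => by
    rw [hD.smul]
    ring
  sum := fun hf hb ha hg x => (hD.sum hf hb ha hg x).neg

lemma MB.add {D E : (ℝ → ℝ) → ℝ → ℝ} {K L κ μ : ℝ} (hD : Dual D K) (hE : Dual E L) (h1 : MB D κ) (h2 : MB E μ) :
    MB (fun f x => D f x + E f x) (2 * κ + 2 * μ) := by
  intro S cl ω β hω
  obtain ⟨a1, a2⟩ := h1 S cl ω β hω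
  obtain ⟨b1, b2⟩ := h2 S cl ω β hω
  set f : ℝ → ℝ := fun y => ∑ i ∈ S, β i * Real.cos (ω i * y) with hf
  have hfc : Continuous f := by rw [hf]; fun_prop
  have hfb : ∀ y, |f y| ≤ ∑ i ∈ S, |β i| := fun y => by
    refine (abs_sum_le_sum_abs _ _).trans (sum_le_sum fun i _ => ?_)
    rw [abs_mul]
    exact mul_le_of_le_one_right (abs_nonneg _) (Real.abs_cos_le_one _)
  have e : ∀ j, PP (fun x => D f x + E f x) j = PP (D f) j + PP (E f) j := fun j =>
    PP_add (hD.cont hfc hfb) (hE.cont hfc hfb) j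
  constructor
  · intro J
    have c1 := a1 J
    have c2 := b1 J
    calc ∑ j ∈ range J, (PP (fun x => D f x + E f x) j) ^ 2
        ≤ ∑ j ∈ range J, (2 * (PP (D f) j) ^ 2 + 2 * (PP (E f) j) ^ 2) := by
          apply sum_le_sum
          intro j _
          rw [e j]
          nlinarith [sq_nonneg (PP (D f) j - PP (E f) j)]
      _ = 2 * ∑ j ∈ range J, (PP (D f) j) ^ 2 + 2 * ∑ j ∈ range J, (PP (E f) j) ^ 2 := by
          rw [sum_add_distrib, mul_sum, mul_sum]
      _ ≤ _ := by linarith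
  · intro J
    have c1 := a2 J
    have c2 := b2 J
    calc ∑ j ∈ range J, (1 + (j : ℝ)) ^ 2 * (PP (fun x => D f x + E f x) j) ^ 2
        ≤ ∑ j ∈ range J, (2 * ((1 + (j : ℝ)) ^ 2 * (PP (D f) j) ^ 2) + 2 * ((1 + (j : ℝ)) ^ 2 * (PP (E f) j) ^ 2)) := by
          apply sum_le_sum
          intro j _
          rw [e j]
          have h0 : 0 ≤ (1 + (j : ℝ)) ^ 2 := by positivity
          nlinarith [mul_nonneg h0 (sq_nonneg (PP (D f) j - PP (E f) j))]
      _ = 2 * ∑ j ∈ range J, (1 + (j : ℝ)) ^ 2 * (PP (D f) j) ^ 2 +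
          2 * ∑ j ∈ range J, (1 + (j : ℝ)) ^ 2 * (PP (E f) j) ^ 2 := by
          rw [sum_add_distrib, mul_sum, mul_sum]
      _ ≤ _ := by linarith

lemma MB.neg {D : (ℝ → ℝ) → ℝ → ℝ} {κ : ℝ} (h : MB D κ) : MB (fun f x => - D f x) κ := by
  intro S cl ω β hω
  obtain ⟨a1, a2⟩ := h S cl ω β hω
  have e : ∀ (g : ℝ → ℝ) j, PP (fun x => - g x) j = - PP g j := fun g j => by
    have := PP_const_mul (-1) g j
    simpa using this
  constructor
  · intro J
    have := a1 J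
    simp only [e, neg_sq]
    exact this
  · intro J
    have := a2 J
    simp only [e, neg_sq]
    exact this

lemma MB.mono {D : (ℝ → ℝ) → ℝ → ℝ} {κ μ : ℝ} (h : MB D κ) (hκ : κ ≤ μ) : MB D μ := by
  intro S cl ω β hω
  obtain ⟨a1, a2⟩ := h S cl ω β hω
  exact ⟨fun J => (a1 J).trans (mul_le_mul_of_nonneg_right hκ (QQ_nonneg (fun _ => zero_le_one) S cl β)),
    fun J => (a2 J).trans (mul_le_mul_of_nonneg_right hκ (QQ_nonneg (fun y => by positivity) S cl β))⟩

/-- the operator of a family -/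
noncomputable def fam {ι : Type} (k : ι → ℝ → ℝ) (b : ι → Bool) (s : ι → ℝ) (f : ℝ → ℝ) (x : ℝ) : ℝ :=
  ∑' i, k i x * f (ar (b i) (s i) x)

/-- hypotheses on a family -/
structure FamH {ι : Type} (k k' : ι → ℝ → ℝ) (b : ι → Bool) (s B0 B1 : ι → ℝ) : Prop where
  w : ∀ i, Wt (k i) (k' i) (B0 i) (B1 i)
  hs : ∀ i, 1 ≤ s i
  sum' : Summable fun i => s i * (B0 i + B1 i + s i * B0 i)

namespace FamH

variable {ι : Type} {k k' : ι → ℝ → ℝ} {b : ι → Bool} {s B0 B1 : ι → ℝ} (h : FamH k k' b s B0 B1)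
include h

lemma B0n (i : ι) : 0 ≤ B0 i := (h.w i).B0_nn
lemma B1n (i : ι) : 0 ≤ B1 i := (h.w i).B1_nn
lemma sn (i : ι) : 0 ≤ s i := zero_le_one.trans (h.hs i)

lemma sum : Summable fun i => B0 i + B1 i + s i * B0 i :=
  Summable.of_nonneg_of_le (fun i => by
    have h0 := h.B0n i
    have h1 := h.B1n i
    have h2 := mul_nonneg (h.sn i) (h.B0n i)
    linarith) (fun i => by
    have h0 := h.B0n i
    have h1 := h.B1n i
    have h2 := mul_nonneg (h.sn i) (h.B0n i)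
    exact le_mul_of_one_le_left (by linarith) (h.hs i)) h.sum'

lemma sumB0 : Summable B0 :=
  Summable.of_nonneg_of_le h.B0n (fun i => by
    have h1 := h.B1n i
    have h2 := mul_nonneg (h.sn i) (h.B0n i)
    linarith) h.sum

lemma term_le {f : ℝ → ℝ} {C : ℝ} (hC : ∀ y, |f y| ≤ C) (i : ι) (x : ℝ) :
    |k i x * f (ar (b i) (s i) x)| ≤ B0 i * C := by
  rw [abs_mul]
  exact mul_le_mul ((h.w i).h0 x) (hC _) (abs_nonneg _) (h.B0n i)

lemma has {f : ℝ → ℝ} {C : ℝ} (hC : ∀ y, |f y| ≤ C) (x : ℝ) :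
    HasSum (fun i => k i x * f (ar (b i) (s i) x)) (fam k b s f x) :=
  (Summable.of_norm_bounded (h.sumB0.mul_right C) (fun i => by
    rw [Real.norm_eq_abs]; exact h.term_le hC i x)).hasSum

lemma bd {f : ℝ → ℝ} {C : ℝ} (hC : ∀ y, |f y| ≤ C) (x : ℝ) : |fam k b s f x| ≤ (∑' i, B0 i) * C := by
  have h1 := tsum_of_norm_bounded (f := fun i => k i x * f (ar (b i) (s i) x)) (h.sumB0.hasSum.mul_right C)
    (fun i => by rw [Real.norm_eq_abs]; exact h.term_le hC i x)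
  rwa [Real.norm_eq_abs] at h1

lemma dual : Dual (fam k b s) (∑' i, B0 i) where
  K0 := tsum_nonneg h.B0n
  cont := fun {f C} hf hC => by
    unfold fam
    exact continuous_tsum (fun i => (h.w i).gcont (b i) (s i) hf) (h.sumB0.mul_right C)
      (fun i x => by rw [Real.norm_eq_abs]; exact h.term_le hC i x)
  bdd := fun _ hC x _ => h.bd hC x
  smul := fun a f x => by
    unfold fam
    rw [← tsum_mul_left]
    exact tsum_congr fun i => by ring
  sum := fun {f a g} _ hb ha hg x => by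
    -- the double family
    have h1 : Summable fun p : ℕ × ι => k p.2 x * f p.1 (ar (b p.2) (s p.2) x) := by
      have ha0 : ∀ n, 0 ≤ a n := fun n => (abs_nonneg _).trans (hb n 0)
      have h2 : Summable fun p : ℕ × ι => a p.1 * B0 p.2 :=
        ha.mul_of_nonneg h.sumB0 ha0 h.B0n
      refine Summable.of_norm_bounded h2 fun p => ?_
      rw [Real.norm_eq_abs, mul_comm (a p.1)]
      exact h.term_le (hb p.1) p.2 x
    have h3 : HasSum (fun n => fam k b s (f n) x) (∑' p : ℕ × ι, k p.2 x * f p.1 (ar (b p.2) (s p.2) x)) :=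
      h1.hasSum.prod_fiberwise fun n => h.has (hb n) x
    have h4 : fam k b s g x = ∑' p : ℕ × ι, k p.2 x * f p.1 (ar (b p.2) (s p.2) x) := by
      have h5 := h1.prod_symm
      have h6 : HasSum (fun i => k i x * g (ar (b i) (s i) x))
          (∑' p : ι × ℕ, k p.1 x * f p.2 (ar (b p.1) (s p.1) x)) :=
        h5.hasSum.prod_fiberwise fun i => (hg _).mul_left _
      unfold fam
      rw [h6.tsum_eq]
      exact (Equiv.prodComm ι ℕ).tsum_eq fun p : ℕ × ι => k p.2 x * f p.1 (ar (b p.2) (s p.2) x)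
    rw [h4]
    exact h3

lemma mb [Countable ι] : MB (fam k b s) ((∑' i, 74 * (B0 i + B1 i + s i * B0 i)) ^ 2) := by
  intro S cl ω β hω
  set f : ℝ → ℝ := fun y => ∑ i ∈ S, β i * Real.cos (ω i * y) with hf
  have hfc : Continuous f := by rw [hf]; fun_prop
  have hfb : ∀ y, |f y| ≤ ∑ i ∈ S, |β i| := fun y => by
    refine (abs_sum_le_sum_abs _ _).trans (sum_le_sum fun i _ => ?_)
    rw [abs_mul]
    exact mul_le_of_le_one_right (abs_nonneg _) (Real.abs_cos_le_one _)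
  have hPP : ∀ j, HasSum (fun i => PP (fun x => k i x * f (ar (b i) (s i) x)) j) (PP (fam k b s f) j) := by
    intro j
    unfold PP
    apply HasSum.div_const
    refine intervalIntegral.hasSum_integral_of_dominated_convergence
      (fun i _ => B0 i * ∑ i ∈ S, |β i|) ?_ ?_ ?_ ?_ ?_
    · intro i
      have := (h.w i).gcont (b i) (s i) hfc
      exact (Continuous.aestronglyMeasurable (by fun_prop))
    · intro i
      refine Filter.Eventually.of_forall (fun x _ => ?_)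
      rw [Real.norm_eq_abs, abs_mul]
      have h1 := h.term_le hfb i x
      have h2 := Real.abs_cos_le_one (xx j * x)
      calc |k i x * f (ar (b i) (s i) x)| * |Real.cos (xx j * x)| ≤ |k i x * f (ar (b i) (s i) x)| * 1 := by gcongr
        _ ≤ _ := by rw [mul_one]; exact h1
    · exact Filter.Eventually.of_forall (fun x _ => h.sumB0.mul_right _)
    · exact intervalIntegrable_const
    · exact Filter.Eventually.of_forall (fun x _ => (h.has hfb x).mul_right _)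
  have hQ1 : 0 ≤ QQ (fun _ => 1) S cl β := QQ_nonneg (fun _ => zero_le_one) S cl β
  have hQw : 0 ≤ QQ (fun y => (1 + (y : ℝ)) ^ 2) S cl β := QQ_nonneg (fun y => by positivity) S cl β
  have hA : ∀ i, 0 ≤ 74 * (B0 i + B1 i + s i * B0 i) := fun i => by
    have h0 := h.B0n i
    have h1 := h.B1n i
    have h2 := mul_nonneg (h.sn i) h0
    linarith
  constructor
  · intro J
    have h1 := mink_tsum (R := range J) (w := fun _ => 1) (Q := QQ (fun _ => 1) S cl β) (fun _ => zero_le_one) hA hQ1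
      (h.sum.mul_left 74) (fun i => by
        have := ((h.w i).term (b i) (s i) (β := β) hω (h.hs i) J).1
        simpa using this) hPP
    simpa using h1
  · intro J
    exact mink_tsum (R := range J) (w := fun j => (1 + (j : ℝ)) ^ 2) (Q := QQ (fun y => (1 + (y : ℝ)) ^ 2) S cl β)
      (fun _ => by positivity) hA hQw
      (h.sum.mul_left 74) (fun i => ((h.w i).term (b i) (s i) (β := β) hω (h.hs i) J).2) hPP

end FamH

end Pool.Agent.Q286.AP
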