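import Mathlib
import Pool.Agent.Q286.AP.Fam

set_option autoImplicit false

/-!
# The weights
-/

open Finset MeasureTheory Filter Topology

namespace Pool.Agent.Q286.AP

/-- bump with `∑ th (t - q) = 1` -/
noncomputable def th (t : ℝ) : ℝ := Real.smoothTransition (1 + t) * Real.smoothTransition (1 - t)

/-- cutoff, `0` for `x ≤ 4/3` and `1` for `x ≥ 2` -/
noncomputable def et (x : ℝ) : ℝ := Real.smoothTransition ((3 * x - 4) / 2)

noncomputable def sT' (x : ℝ) : ℝ := deriv Real.smoothTransition x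

lemma sT_hd (x : ℝ) : HasDerivAt Real.smoothTransition (sT' x) x :=
  ((Real.smoothTransition.contDiff (n := 1)).differentiable (by norm_num) x).hasDerivAt

lemma sT'_cont : Continuous sT' :=
  (Real.smoothTransition.contDiff (n := 1)).continuous_deriv (by norm_num)

lemma sT'_bd : ∃ K : ℝ, 0 ≤ K ∧ ∀ x, |sT' x| ≤ K := by
  obtain ⟨K, hK⟩ := isCompact_Icc.exists_bound_of_continuousOn (s := Set.Icc (0:ℝ) 1) sT'_cont.continuousOn
  refine ⟨max K 0, le_max_right _ _, fun x => ?_⟩
  by_cases h0 : x < 0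
  · have h1 : Real.smoothTransition =ᶠ[𝓝 x] fun _ => 0 := by
      filter_upwards [Iio_mem_nhds h0] with y hy
      exact Real.smoothTransition.zero_of_nonpos (le_of_lt hy)
    have h2 : sT' x = 0 := (sT_hd x).unique ((hasDerivAt_const x (0:ℝ)).congr_of_eventuallyEq h1)
    rw [h2, abs_zero]
    exact le_max_right _ _
  by_cases h3 : 1 < x
  · have h1 : Real.smoothTransition =ᶠ[𝓝 x] fun _ => 1 := by
      filter_upwards [Ioi_mem_nhds h3] with y hy
      exact Real.smoothTransition.one_of_one_le (le_of_lt hy)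
    have h2 : sT' x = 0 := (sT_hd x).unique ((hasDerivAt_const x (1:ℝ)).congr_of_eventuallyEq h1)
    rw [h2, abs_zero]
    exact le_max_right _ _
  · exact (hK x ⟨by linarith, by linarith⟩).trans (le_max_left _ _)

lemma sT_abs (x : ℝ) : |Real.smoothTransition x| ≤ 1 := by
  rw [abs_of_nonneg (Real.smoothTransition.nonneg x)]
  exact Real.smoothTransition.le_one x

noncomputable def th' (t : ℝ) : ℝ :=
  sT' (1 + t) * Real.smoothTransition (1 - t) - Real.smoothTransition (1 + t) * sT' (1 - t)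

noncomputable def et' (x : ℝ) : ℝ := sT' ((3 * x - 4) / 2) * (3 / 2)

lemma th_hd (t : ℝ) : HasDerivAt th (th' t) t := by
  have h1 := (sT_hd (1 + t)).comp t ((hasDerivAt_id t).const_add 1)
  have h2 := (sT_hd (1 - t)).comp t ((hasDerivAt_id t).const_sub 1)
  refine (h1.mul h2).congr_deriv ?_
  unfold th'
  simp only [Function.comp]
  ring

lemma et_hd (x : ℝ) : HasDerivAt et (et' x) x := by
  have h0 : HasDerivAt (fun x : ℝ => (3 * x - 4) / 2) (3 / 2) x := by
    have := (((hasDerivAt_id x).const_mul 3).sub_const 4).div_const 2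
    simpa using this
  exact (sT_hd ((3 * x - 4) / 2)).comp x h0

lemma th_cont : Continuous th := continuous_iff_continuousAt.2 fun x => (th_hd x).continuousAt
lemma et_cont : Continuous et := continuous_iff_continuousAt.2 fun x => (et_hd x).continuousAt
lemma th'_cont : Continuous th' := by
  have h1 := sT'_cont
  have h2 : Continuous Real.smoothTransition := Real.smoothTransition.continuous
  unfold th'
  fun_prop
lemma et'_cont : Continuous et' := by
  have h1 := sT'_cont
  unfold et'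
  fun_prop

lemma th_abs (t : ℝ) : |th t| ≤ 1 := by
  unfold th
  rw [abs_mul]
  exact mul_le_one₀ (sT_abs _) (abs_nonneg _) (sT_abs _)

lemma et_abs (x : ℝ) : |et x| ≤ 1 := sT_abs _

lemma th_zero {t : ℝ} (ht : 1 ≤ |t|) : th t = 0 := by
  unfold th
  rcases le_abs'.1 ht with h | h
  · rw [Real.smoothTransition.zero_of_nonpos (show 1 + t ≤ 0 by linarith), zero_mul]
  · rw [Real.smoothTransition.zero_of_nonpos (show 1 - t ≤ 0 by linarith), mul_zero]

lemma th'_zero {t : ℝ} (ht : 1 < |t|) : th' t = 0 := by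
  have h1 : th =ᶠ[𝓝 t] fun _ => 0 := by
    have ho : IsOpen {s : ℝ | 1 < |s|} := isOpen_lt continuous_const continuous_abs
    filter_upwards [ho.mem_nhds ht] with y hy
    exact th_zero (le_of_lt hy)
  exact (th_hd t).unique ((hasDerivAt_const t (0:ℝ)).congr_of_eventuallyEq h1)

lemma et_zero {x : ℝ} (hx : x ≤ 4 / 3) : et x = 0 :=
  Real.smoothTransition.zero_of_nonpos (by linarith)

lemma et_one {x : ℝ} (hx : 2 ≤ x) : et x = 1 :=
  Real.smoothTransition.one_of_one_le (by linarith)

/-- the partition of unity -/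
lemma th_add {t : ℝ} (h0 : 0 ≤ t) (h1 : t ≤ 1) : th t + th (t - 1) = 1 := by
  unfold th
  rw [Real.smoothTransition.one_of_one_le (show (1:ℝ) ≤ 1 + t by linarith),
    Real.smoothTransition.one_of_one_le (show (1:ℝ) ≤ 1 - (t - 1) by linarith)]
  have e : 1 + (t - 1) = t := by ring
  rw [e, one_mul, mul_one]
  unfold Real.smoothTransition
  have h2 := Real.smoothTransition.pos_denom t
  have e2 : expNegInvGlue (1 - t) + expNegInvGlue (1 - (1 - t)) = expNegInvGlue t + expNegInvGlue (1 - t) := by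
    have : 1 - (1 - t) = t := by ring
    rw [this, add_comm]
  rw [e2, ← add_div, add_comm (expNegInvGlue (1 - t)), div_self h2.ne']

lemma th_abs' {K : ℝ} (hK : ∀ x, |sT' x| ≤ K) (t : ℝ) : |th' t| ≤ 2 * K := by
  have hK0 : 0 ≤ K := (abs_nonneg _).trans (hK 0)
  unfold th'
  refine (abs_sub _ _).trans ?_
  rw [abs_mul, abs_mul]
  have h1 : |sT' (1 + t)| * |Real.smoothTransition (1 - t)| ≤ K * 1 :=
    mul_le_mul (hK _) (sT_abs _) (abs_nonneg _) hK0
  have h2 : |Real.smoothTransition (1 + t)| * |sT' (1 - t)| ≤ 1 * K :=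
    mul_le_mul (sT_abs _) (hK _) (abs_nonneg _) zero_le_one
  linarith

lemma et_abs' {K : ℝ} (hK : ∀ x, |sT' x| ≤ K) (x : ℝ) : |et' x| ≤ 2 * K := by
  have hK0 : 0 ≤ K := (abs_nonneg _).trans (hK 0)
  unfold et'
  rw [abs_mul, abs_of_pos (by norm_num : (0:ℝ) < 3 / 2)]
  have := hK ((3 * x - 4) / 2)
  linarith

/-- a function of `log x` -/
noncomputable def lg (G : ℝ → ℝ) (x : ℝ) : ℝ := if 0 < x then G (Real.log x) else 0

noncomputable def lg' (G' : ℝ → ℝ) (x : ℝ) : ℝ := if 0 < x then G' (Real.log x) / x else 0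

lemma Wt.lg {G G' : ℝ → ℝ} {B0 B1 : ℝ} (hd : ∀ t, HasDerivAt G (G' t) t) (hc : Continuous G')
    (hz : ∀ t, Real.log (4 / 3) ≤ |t| → G t = 0) (h0 : ∀ t, |G t| ≤ B0)
    (h1 : ∀ t, |t| ≤ Real.log (4 / 3) → |G' t| ≤ B1) : Wt (lg G) (lg' G') B0 (4 / 3 * B1) := by
  have hB1 : 0 ≤ B1 := (abs_nonneg _).trans (h1 0 (by rw [abs_zero]; exact Real.log_nonneg (by norm_num)))
  have hB0 : 0 ≤ B0 := (abs_nonneg _).trans (h0 0)
  have hz' : ∀ t, Real.log (4 / 3) < |t| → G' t = 0 := by
    intro t ht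
    have h2 : G =ᶠ[𝓝 t] fun _ => 0 := by
      have ho : IsOpen {s : ℝ | Real.log (4 / 3) < |s|} := isOpen_lt continuous_const continuous_abs
      filter_upwards [ho.mem_nhds ht] with y hy
      exact hz y (le_of_lt hy)
    exact (hd t).unique ((hasDerivAt_const t (0:ℝ)).congr_of_eventuallyEq h2)
  have hl : ∀ x : ℝ, 0 < x → (x < 3 / 4 ∨ 4 / 3 < x) → Real.log (4 / 3) < |Real.log x| := by
    intro x hx hx2
    rcases hx2 with h | h
    · have h2 : Real.log x < Real.log (3 / 4) := Real.log_lt_log hx h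
      have h3 : Real.log (3 / 4) = - Real.log (4 / 3) := by rw [← Real.log_inv]; norm_num
      rw [h3] at h2
      have := neg_abs_le (Real.log x)
      linarith
    · have h2 : Real.log (4 / 3) < Real.log x := Real.log_lt_log (by norm_num) h
      exact h2.trans_le (le_abs_self _)
  have z0 : ∀ x, (x < 3 / 4 ∨ 4 / 3 < x) → Pool.Agent.Q286.AP.lg G x = 0 := by
    intro x hx
    unfold Pool.Agent.Q286.AP.lg
    split_ifs with h
    · exact hz _ (hl x h hx).le
    · rfl
  have z1 : ∀ x, (x < 3 / 4 ∨ 4 / 3 < x) → lg' G' x = 0 := by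
    intro x hx
    unfold lg'
    split_ifs with h
    · rw [hz' _ (hl x h hx), zero_div]
    · rfl
  refine ⟨?_, ?_, z0, ?_, ?_⟩
  · intro x
    by_cases hx : 0 < x
    · have h2 := (hd (Real.log x)).comp x (Real.hasDerivAt_log hx.ne')
      have h3 : Pool.Agent.Q286.AP.lg G =ᶠ[𝓝 x] G ∘ Real.log := by
        filter_upwards [Ioi_mem_nhds hx] with y hy
        have hy0 : 0 < y := hy
        simp only [Pool.Agent.Q286.AP.lg, if_pos hy0, Function.comp]
      have h4 : lg' G' x = G' (Real.log x) * x⁻¹ := by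
        unfold lg'
        rw [if_pos hx, div_eq_mul_inv]
      rw [h4]
      exact h2.congr_of_eventuallyEq h3
    · have h3 : Pool.Agent.Q286.AP.lg G =ᶠ[𝓝 x] fun _ => 0 := by
        filter_upwards [Iio_mem_nhds (show x < 3 / 4 by linarith)] with y hy
        exact z0 y (Or.inl hy)
      rw [z1 x (Or.inl (by linarith))]
      exact (hasDerivAt_const x (0:ℝ)).congr_of_eventuallyEq h3
  · rw [continuous_iff_continuousAt]
    intro x
    by_cases hx : 0 < x
    · have h3 : lg' G' =ᶠ[𝓝 x] fun x => G' (Real.log x) / x := by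
        filter_upwards [Ioi_mem_nhds hx] with y hy
        have hy0 : 0 < y := hy
        simp only [lg', if_pos hy0]
      refine ContinuousAt.congr ?_ h3.symm
      exact (hc.continuousAt.comp (Real.continuousAt_log hx.ne')).div continuousAt_id hx.ne'
    · have h3 : lg' G' =ᶠ[𝓝 x] fun _ => 0 := by
        filter_upwards [Iio_mem_nhds (show x < 3 / 4 by linarith)] with y hy
        exact z1 y (Or.inl hy)
      exact continuousAt_const.congr h3.symm
  · intro x
    unfold Pool.Agent.Q286.AP.lg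
    split_ifs with h
    · exact h0 _
    · rw [abs_zero]; exact hB0
  · intro x
    by_cases hx : x < 3 / 4 ∨ 4 / 3 < x
    · rw [z1 x hx, abs_zero]; positivity
    · push Not at hx
      have hx0 : 0 < x := by linarith [hx.1]
      unfold lg'
      rw [if_pos hx0, abs_div, abs_of_pos hx0, div_le_iff₀ hx0]
      have h2 : |Real.log x| ≤ Real.log (4 / 3) := by
        rw [abs_le]
        constructor
        · have h3 : Real.log (3 / 4) = - Real.log (4 / 3) := by rw [← Real.log_inv]; norm_num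
          rw [← h3]
          exact Real.log_le_log (by norm_num) hx.1
        · exact Real.log_le_log hx0 hx.2
      have h3 := h1 _ h2
      nlinarith [hx.1]

lemma Wt.const_mul {k k' : ℝ → ℝ} {B0 B1 : ℝ} (w : Wt k k' B0 B1) (c : ℝ) :
    Wt (fun x => c * k x) (fun x => c * k' x) (|c| * B0) (|c| * B1) where
  hd := fun x => (w.hd x).const_mul c
  hc := continuous_const.mul w.hc
  z0 := fun x hx => by rw [w.z0 x hx, mul_zero]
  h0 := fun x => by
    rw [abs_mul]
    exact mul_le_mul_of_nonneg_left (w.h0 x) (abs_nonneg c)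
  h1 := fun x => by
    rw [abs_mul]
    exact mul_le_mul_of_nonneg_left (w.h1 x) (abs_nonneg c)

lemma Wt.mono {k k' : ℝ → ℝ} {B0 B1 C0 C1 : ℝ} (w : Wt k k' B0 B1) (h0 : B0 ≤ C0) (h1 : B1 ≤ C1) :
    Wt k k' C0 C1 :=
  ⟨w.hd, w.hc, w.z0, fun x => (w.h0 x).trans h0, fun x => (w.h1 x).trans h1⟩

section GG

variable (P : ℝ) (n : ℕ) (s : ℝ)

/-- the weight in the variable `log x` -/
noncomputable def GG (t : ℝ) : ℝ := th (t / P - n) * et (s * Real.exp t)

noncomputable def GG' (t : ℝ) : ℝ :=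
  th' (t / P - n) / P * et (s * Real.exp t) + th (t / P - n) * (et' (s * Real.exp t) * (s * Real.exp t))

lemma GG_hd (t : ℝ) : HasDerivAt (GG P n s) (GG' P n s t) t := by
  have h1 : HasDerivAt (fun t : ℝ => th (t / P - n)) (th' (t / P - n) / P) t := by
    have h0 : HasDerivAt (fun t : ℝ => t / P - n) (1 / P) t := ((hasDerivAt_id t).div_const P).sub_const _
    have := (th_hd (t / P - n)).comp t h0
    refine this.congr_deriv ?_
    rw [mul_one_div]
  have h2 : HasDerivAt (fun t : ℝ => et (s * Real.exp t)) (et' (s * Real.exp t) * (s * Real.exp t)) t :=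
    HasDerivAt.comp (h₂ := et) (h := fun t => s * Real.exp t) t (et_hd (s * Real.exp t))
      ((Real.hasDerivAt_exp t).const_mul s)
  exact h1.mul h2

lemma GG_cont : Continuous (GG P n s) := continuous_iff_continuousAt.2 fun x => (GG_hd P n s x).continuousAt

lemma GG'_cont : Continuous (GG' P n s) := by
  have h1 := th_cont
  have h2 := et_cont
  have h3 := th'_cont
  have h4 := et'_cont
  unfold GG'
  fun_prop

variable {P n s}

lemma GG_abs (t : ℝ) : |GG P n s t| ≤ 1 := by
  unfold GG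
  rw [abs_mul]
  exact mul_le_one₀ (th_abs _) (abs_nonneg _) (et_abs _)

lemma GG_zero (t : ℝ) (h : 1 ≤ |t / P - n|) : GG P n s t = 0 := by
  unfold GG
  rw [th_zero h, zero_mul]

lemma GG'_zero (t : ℝ) (h : 1 < |t / P - n|) : GG' P n s t = 0 := by
  unfold GG'
  rw [th_zero h.le, th'_zero h]
  ring

lemma GG'_abs {K : ℝ} (hK : ∀ x, |sT' x| ≤ K) (hP : 0 < P) (hs : 0 ≤ s) (t : ℝ) (ht : t ≤ Real.log (4 / 3)) :
    |GG' P n s t| ≤ 2 * K / P + 3 * K * s := by
  have hK0 : 0 ≤ K := (abs_nonneg _).trans (hK 0)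
  have he : Real.exp t ≤ 4 / 3 := by
    rw [← Real.exp_log (show (0:ℝ) < 4 / 3 by norm_num)]
    exact Real.exp_le_exp.2 ht
  unfold GG'
  refine (abs_add_le _ _).trans ?_
  have h1 : |th' (t / P - n) / P * et (s * Real.exp t)| ≤ 2 * K / P := by
    rw [abs_mul, abs_div, abs_of_pos hP]
    calc |th' (t / P - n)| / P * |et (s * Real.exp t)| ≤ (2 * K) / P * 1 := by
          gcongr
          · exact th_abs' hK _
          · exact et_abs _
      _ = _ := mul_one _
  have h2 : |th (t / P - n) * (et' (s * Real.exp t) * (s * Real.exp t))| ≤ 3 * K * s := by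
    rw [abs_mul, abs_mul, abs_of_nonneg (show 0 ≤ s * Real.exp t by positivity)]
    calc |th (t / P - n)| * (|et' (s * Real.exp t)| * (s * Real.exp t)) ≤ 1 * ((2 * K) * (s * (4 / 3))) := by
          gcongr
          · exact th_abs _
          · exact et_abs' hK _
      _ ≤ _ := by nlinarith [mul_nonneg hK0 hs]
  linarith

/-- `|t| ≥ log (4/3)` is outside of the support -/
lemma far {D : ℕ} (hn : n < D) (hP : 0 < P) (hDP : D * P ≤ Real.log (4 / 3)) {t : ℝ}
    (ht : Real.log (4 / 3) ≤ |t|) : 1 ≤ |t / P - n| := by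
  have hnD : (n : ℝ) + 1 ≤ D := by exact_mod_cast hn
  have h1 : (D : ℝ) * P ≤ |t| := hDP.trans ht
  have h2 : (D : ℝ) ≤ |t / P| := by
    rw [abs_div, abs_of_pos hP, le_div_iff₀ hP]
    exact h1
  have h3 : |t / P| ≤ |t / P - n| + n := by
    have := abs_add_le (t / P - n) n
    rw [sub_add_cancel, Nat.abs_cast] at this
    exact this
  linarith

lemma wt_dir {K : ℝ} (hK : ∀ x, |sT' x| ≤ K) {D : ℕ} (hn : n < D) (hP : 0 < P)
    (hDP : D * P ≤ Real.log (4 / 3)) (hs : 0 ≤ s) :
    Wt (lg (GG P n s)) (lg' (GG' P n s)) 1 (4 / 3 * (2 * K / P + 3 * K * s)) :=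
  Wt.lg (GG_hd P n s) (GG'_cont P n s) (fun t ht => GG_zero t (far hn hP hDP ht)) GG_abs
    (fun t ht => GG'_abs hK hP hs t ((le_abs_self t).trans ht))

/-- the weight of the reflected part -/
noncomputable def GI (P : ℝ) (n : ℕ) (s : ℝ) (m : ℕ) (t : ℝ) : ℝ := Real.exp (2 * m * t) * GG P n s (-t)

noncomputable def GI' (P : ℝ) (n : ℕ) (s : ℝ) (m : ℕ) (t : ℝ) : ℝ :=
  Real.exp (2 * m * t) * (2 * m * GG P n s (-t) - GG' P n s (-t))

lemma wt_inv {K : ℝ} (hK : ∀ x, |sT' x| ≤ K) {D : ℕ} (hn : n < D) (hP : 0 < P)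
    (hDP : D * P ≤ Real.log (4 / 3)) (hs : 0 ≤ s) (m : ℕ) :
    Wt (lg (GI P n s m)) (lg' (GI' P n s m)) (Real.exp (2 * m * P))
      (4 / 3 * (Real.exp (2 * m * P) * (2 * m + (2 * K / P + 3 * K * s)))) := by
  have hn0 : (0:ℝ) ≤ n := Nat.cast_nonneg n
  have hm0 : (0:ℝ) ≤ m := Nat.cast_nonneg m
  have hfar : ∀ t : ℝ, P < t → 1 < |-t / P - n| := by
    intro t ht
    have h1 : 1 < t / P := by rw [lt_div_iff₀ hP]; linarith
    have h2 : -t / P - n < -1 := by rw [neg_div]; linarith
    rw [lt_abs]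
    right
    linarith
  apply Wt.lg
  · intro t
    have h1 : HasDerivAt (fun t : ℝ => Real.exp (2 * m * t)) (Real.exp (2 * m * t) * (2 * m)) t := by
      have := ((hasDerivAt_id t).const_mul (2 * (m:ℝ))).exp
      simpa using this
    have h2 : HasDerivAt (fun t : ℝ => GG P n s (-t)) (-GG' P n s (-t)) t := by
      have := (GG_hd P n s (-t)).comp t (hasDerivAt_neg t)
      refine this.congr_deriv ?_
      ring
    refine (h1.mul h2).congr_deriv ?_
    unfold GI'
    ring
  · have h1 := GG_cont P n s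
    have h2 := GG'_cont P n s
    unfold GI'
    fun_prop
  · intro t ht
    unfold GI
    rw [GG_zero (-t) (far hn hP hDP (by rwa [abs_neg])), mul_zero]
  · intro t
    unfold GI
    by_cases ht : P < t
    · rw [GG_zero (-t) (hfar t ht).le, mul_zero, abs_zero]
      positivity
    · rw [abs_mul, abs_of_pos (Real.exp_pos _)]
      have h1 : Real.exp (2 * m * t) ≤ Real.exp (2 * m * P) := by
        apply Real.exp_le_exp.2
        push Not at ht
        exact mul_le_mul_of_nonneg_left ht (by positivity)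
      calc Real.exp (2 * m * t) * |GG P n s (-t)| ≤ Real.exp (2 * m * P) * 1 :=
            mul_le_mul h1 (GG_abs _) (abs_nonneg _) (Real.exp_pos _).le
        _ = _ := mul_one _
  · intro t ht1
    unfold GI'
    by_cases ht : P < t
    · rw [GG_zero (-t) (hfar t ht).le, GG'_zero (-t) (hfar t ht)]
      simp only [mul_zero, sub_zero, abs_zero]
      have hK0 : 0 ≤ K := (abs_nonneg _).trans (hK 0)
      positivity
    · rw [abs_mul, abs_of_pos (Real.exp_pos _)]
      have h1 : Real.exp (2 * m * t) ≤ Real.exp (2 * m * P) := by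
        apply Real.exp_le_exp.2
        push Not at ht
        exact mul_le_mul_of_nonneg_left ht (by positivity)
      refine mul_le_mul h1 ?_ (abs_nonneg _) (Real.exp_pos _).le
      refine (abs_sub _ _).trans ?_
      have h2 : |2 * m * GG P n s (-t)| ≤ 2 * m := by
        rw [abs_mul, abs_of_nonneg (by positivity : (0:ℝ) ≤ 2 * m)]
        exact mul_le_of_le_one_right (by positivity) (GG_abs _)
      have h3 := GG'_abs (P := P) (n := n) (s := s) hK hP hs (-t) ((neg_le_abs t).trans ht1)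
      linarith

end GG

end Pool.Agent.Q286.AP
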