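import Mathlib
import Pool.Agent.Q286.AP.Fam
import Pool.Agent.H5R3.Task469N

set_option autoImplicit false

/-!
# The source term of a family
-/

open Finset MeasureTheory

namespace Pool.Agent.Q286.AP

open Pool.Agent.H469R10.HO
open Pool.Agent.H5R3.T469N (s1 hasDeriv_s0 abs_s0_le_two abs_s1_le' cont_s0 cont_s1 WW_le)

lemma abs_s0_lin (c x : ℝ) : |s0 c x| ≤ |c| * |x| := by
  unfold s0
  rw [← abs_mul]
  rcases le_or_gt 2 |c * x| with h | h
  · have h1 := Real.neg_one_le_cos (c * x)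
    have h2 := Real.cos_le_one (c * x)
    refine le_trans ?_ h
    rw [abs_le]
    constructor <;> linarith
  · have h1 := Real.one_sub_sq_div_two_le_cos (x := c * x)
    have h2 := Real.cos_le_one (c * x)
    rw [abs_of_nonpos (by linarith)]
    have h3 : (c * x) ^ 2 = |c * x| ^ 2 := (sq_abs _).symm
    nlinarith [abs_nonneg (c * x)]

lemma Wt.src {k k' : ℝ → ℝ} {B0 B1 : ℝ} (w : Wt k k' B0 B1) (b : Bool) {s c : ℝ} (hs : 1 ≤ s) (hc : 0 ≤ c) (J : ℕ) :
    ∑ j ∈ range J, (1 + (j : ℝ)) ^ 2 * (PP (fun x => k x * s0 c (ar b s x)) j) ^ 2 ≤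
      (8 * (s * (B0 + B1)) * c) ^ 2 := by
  have hB0 := w.B0_nn
  have hB1 := w.B1_nn
  have hs0 : 0 ≤ s := by linarith
  have key : ∀ x ∈ Set.Icc (3/4:ℝ) (4/3), |ar b s x| ≤ 4 / 3 * s ∧ |ar' b s x| ≤ 16 / 9 * s := by
    intro x hx
    have hx0 : 0 < x := by linarith [hx.1]
    have hx1 : x⁻¹ ≤ 4 / 3 := by
      rw [inv_le_comm₀ hx0 (by norm_num)]
      linarith [hx.1]
    have hx2 : (x ^ 2)⁻¹ ≤ 16 / 9 := by
      rw [inv_le_comm₀ (by positivity) (by norm_num)]
      nlinarith [hx.1]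
    unfold ar ar'
    cases b
    · simp only [Bool.false_eq_true, if_false]
      rw [abs_neg, abs_of_nonneg (by positivity), abs_of_nonneg (by positivity)]
      constructor
      · nlinarith
      · nlinarith
    · simp only [if_true]
      rw [abs_of_nonneg (by positivity), abs_of_nonneg hs0]
      constructor
      · nlinarith [hx.2]
      · nlinarith
  have h1 := Pool.Agent.H5R3.T469N.weighted_bessel (w.ghd b s (f := s0 c) (f' := s1 c) (hasDeriv_s0 c))
    (w.gdcont b s (cont_s0 c) (cont_s1 c)) (M := 4 / 3 * (s * B0) * c)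
    (M' := (4 / 3 * (s * B1) + 16 / 9 * (s * B0)) * c) (fun x _ => by
      by_cases hx : x < 3/4 ∨ 4/3 < x
      · rw [w.z0 x hx, zero_mul, abs_zero]; positivity
      · push Not at hx
        obtain ⟨k1, -⟩ := key x hx
        rw [abs_mul]
        have h2 := abs_s0_lin c (ar b s x)
        rw [abs_of_nonneg hc] at h2
        calc |k x| * |s0 c (ar b s x)| ≤ B0 * (c * (4 / 3 * s)) := by
              refine mul_le_mul (w.h0 x) (h2.trans ?_) (abs_nonneg _) hB0
              exact mul_le_mul_of_nonneg_left k1 hc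
          _ = _ := by ring) (fun x _ => by
      unfold gd
      by_cases hx : x < 3/4 ∨ 4/3 < x
      · rw [w.z0 x hx, w.z1 x hx, zero_mul, zero_mul, add_zero, abs_zero]; positivity
      · push Not at hx
        obtain ⟨k1, k2⟩ := key x hx
        have h2 := abs_s0_lin c (ar b s x)
        rw [abs_of_nonneg hc] at h2
        have h3 := abs_s1_le' c (ar b s x)
        rw [abs_of_nonneg hc] at h3
        refine (abs_add_le _ _).trans ?_
        rw [abs_mul, abs_mul, abs_mul]
        have h4 : |k' x| * |s0 c (ar b s x)| ≤ B1 * (c * (4 / 3 * s)) :=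
          mul_le_mul (w.h1 x) (h2.trans (mul_le_mul_of_nonneg_left k1 hc)) (abs_nonneg _) hB1
        have h5 : |k x| * (|s1 c (ar b s x)| * |ar' b s x|) ≤ B0 * (c * (16 / 9 * s)) :=
          mul_le_mul (w.h0 x) (mul_le_mul h3 k2 (abs_nonneg _) hc) (by positivity) hB0
        linarith) (range J)
  refine h1.trans ?_
  have a0 : 0 ≤ s * B0 := mul_nonneg hs0 hB0
  have a1 : 0 ≤ s * B1 := mul_nonneg hs0 hB1
  have e1 : 4 * (4 / 3 * (s * B0) * c) ^ 2 + 4 * ((4 / 3 * (s * B1) + 16 / 9 * (s * B0)) * c) ^ 2 =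
      (4 * (4 / 3 * (s * B0)) ^ 2 + 4 * (4 / 3 * (s * B1) + 16 / 9 * (s * B0)) ^ 2) * c ^ 2 := by ring
  have e2 : (8 * (s * (B0 + B1)) * c) ^ 2 = (64 * (s * B0 + s * B1) ^ 2) * c ^ 2 := by ring
  rw [e1, e2]
  apply mul_le_mul_of_nonneg_right _ (sq_nonneg c)
  nlinarith [mul_nonneg a0 a1, sq_nonneg (s * B0), sq_nonneg (s * B1)]

lemma FamH.src {ι : Type} [Countable ι] {k k' : ι → ℝ → ℝ} {b : ι → Bool} {s B0 B1 : ι → ℝ}
    (h : FamH k k' b s B0 B1) {c : ℝ} (hc : 0 ≤ c) (J : ℕ) :
    ∑ j ∈ range J, (1 + (j : ℝ)) ^ 2 * (PP (fam k b s (s0 c)) j) ^ 2 ≤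
      (∑' i, 8 * (s i * (B0 i + B1 i)) * c) ^ 2 := by
  have hPP : ∀ j, HasSum (fun i => PP (fun x => k i x * s0 c (ar (b i) (s i) x)) j) (PP (fam k b s (s0 c)) j) := by
    intro j
    unfold PP
    apply HasSum.div_const
    refine intervalIntegral.hasSum_integral_of_dominated_convergence
      (fun i _ => B0 i * 2) ?_ ?_ ?_ ?_ ?_
    · intro i
      have := (h.w i).gcont (b i) (s i) (cont_s0 c)
      exact (Continuous.aestronglyMeasurable (by fun_prop))
    · intro i
      refine Filter.Eventually.of_forall (fun x _ => ?_)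
      rw [Real.norm_eq_abs, abs_mul]
      have h1 := h.term_le (abs_s0_le_two c) i x
      have h2 := Real.abs_cos_le_one (xx j * x)
      calc |k i x * s0 c (ar (b i) (s i) x)| * |Real.cos (xx j * x)| ≤ |k i x * s0 c (ar (b i) (s i) x)| * 1 := by
            gcongr
        _ ≤ _ := by rw [mul_one]; exact h1
    · exact Filter.Eventually.of_forall (fun x _ => h.sumB0.mul_right _)
    · exact intervalIntegrable_const
    · exact Filter.Eventually.of_forall (fun x _ => (h.has (abs_s0_le_two c) x).mul_right _)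
  have hA : ∀ i, 0 ≤ 8 * (s i * (B0 i + B1 i)) * c := fun i => by
    have h0 := h.B0n i
    have h1 := h.B1n i
    have h2 := h.sn i
    positivity
  have hsum : Summable fun i => 8 * (s i * (B0 i + B1 i)) * c := by
    apply Summable.mul_right
    apply Summable.mul_left
    refine Summable.of_nonneg_of_le (fun i => ?_) (fun i => ?_) h.sum'
    · exact mul_nonneg (h.sn i) (add_nonneg (h.B0n i) (h.B1n i))
    · have h2 := mul_nonneg (h.sn i) (h.B0n i)
      exact mul_le_mul_of_nonneg_left (by linarith) (h.sn i)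
  have h1 := mink_tsum (R := range J) (w := fun j => (1 + (j : ℝ)) ^ 2) (Q := 1)
    (fun _ => by positivity) hA zero_le_one hsum (fun i => by
      rw [mul_one]
      exact (h.w i).src (b i) (h.hs i) hc J) hPP
  rw [mul_one] at h1
  exact h1

end Pool.Agent.Q286.AP
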