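import Mathlib
import Pool.Agent.Q286.AP.Ops
import Pool.Agent.Q286.AP.Src

set_option autoImplicit false

/-!
# The operator `L` and its smallness
-/

open Finset MeasureTheory Filter Topology

namespace Pool.Agent.Q286.AP

open Pool.Agent.H469R10.HO

section defs

variable (P : ℝ) (q₁ D m : ℕ) (ℓ : ℕ → ℕ → ℝ)

/-- dilation factors -/
noncomputable def sp (i : ℕ × Fin D) : ℝ := Real.exp (((q₁ : ℝ) + i.1 - (i.2 : ℕ)) * P)

/-- coefficients -/
noncomputable def cp (i : ℕ × Fin D) : ℝ :=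
  ℓ i.2 (q₁ + i.1) * Real.exp (-(((q₁ : ℝ) + i.1 - (i.2 : ℕ)) * P * m))

/-- direct weights -/
noncomputable def kd (i : ℕ × Fin D) (x : ℝ) : ℝ := cp P q₁ D m ℓ i * lg (GG P i.2 (sp P q₁ D i)) x
noncomputable def kd' (i : ℕ × Fin D) (x : ℝ) : ℝ := cp P q₁ D m ℓ i * lg' (GG' P i.2 (sp P q₁ D i)) x

/-- reflected weights -/
noncomputable def ki (i : ℕ × Fin D) (x : ℝ) : ℝ := cp P q₁ D m ℓ i * lg (GI P i.2 (sp P q₁ D i) m) x
noncomputable def ki' (i : ℕ × Fin D) (x : ℝ) : ℝ := cp P q₁ D m ℓ i * lg' (GI' P i.2 (sp P q₁ D i) m) x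

/-- the direct part -/
noncomputable def Ao (f : ℝ → ℝ) (x : ℝ) : ℝ := fam (kd P q₁ D m ℓ) (fun _ => true) (sp P q₁ D) f x
/-- the reflected part -/
noncomputable def Io (f : ℝ → ℝ) (x : ℝ) : ℝ := fam (ki P q₁ D m ℓ) (fun _ => false) (sp P q₁ D) f x
/-- the operator -/
noncomputable def LL (f : ℝ → ℝ) (x : ℝ) : ℝ := - (Ao P q₁ D m ℓ f x + Io P q₁ D m ℓ f x)

end defs

/-- the reflected part is the reflection of the direct part -/
lemma Io_eq {P : ℝ} {q₁ D m : ℕ} {ℓ : ℕ → ℕ → ℝ} (f : ℝ → ℝ) {x : ℝ} (hx : 0 < x) :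
    Io P q₁ D m ℓ f x = x ^ (2 * m) * Ao P q₁ D m ℓ f x⁻¹ := by
  unfold Io Ao fam
  rw [← tsum_mul_left]
  apply tsum_congr
  intro i
  unfold ki kd lg ar GI
  have hx' : 0 < x⁻¹ := inv_pos.2 hx
  simp only [if_pos hx, if_pos hx', Bool.false_eq_true, if_false, if_true, Real.log_inv]
  have e : Real.exp (2 * m * Real.log x) = x ^ (2 * m) := by
    rw [mul_comm, Real.exp_mul, Real.exp_log hx, ← Real.rpow_natCast]
    push_cast
    rfl
  rw [e]
  ring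

lemma LL_eq {P : ℝ} {q₁ D m : ℕ} {ℓ : ℕ → ℕ → ℝ} (f : ℝ → ℝ) {x : ℝ} (hx : 0 < x) :
    LL P q₁ D m ℓ f x = - (Ao P q₁ D m ℓ f x + x ^ (2 * m) * Ao P q₁ D m ℓ f x⁻¹) := by
  unfold LL
  rw [Io_eq f hx]

/-- the relation -/
lemma LL_rel {P : ℝ} {q₁ D m : ℕ} {ℓ : ℕ → ℕ → ℝ} (f : ℝ → ℝ) {x : ℝ} (hx : 0 < x) :
    LL P q₁ D m ℓ f x = x ^ (2 * m) * LL P q₁ D m ℓ f x⁻¹ := by
  rw [LL_eq f hx, LL_eq f (inv_pos.2 hx), inv_inv]
  have : x ^ (2 * m) * (x⁻¹) ^ (2 * m) = 1 := by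
    rw [← mul_pow, mul_inv_cancel₀ hx.ne', one_pow]
  linear_combination Ao P q₁ D m ℓ f x * this

/-- everything needed about the operator -/
structure Good (P : ℝ) (q₁ D m : ℕ) (ℓ : ℕ → ℕ → ℝ) (κ : ℝ) : Prop where
  ex : ∃ B0 B1 : ℕ × Fin D → ℝ, FamH (kd P q₁ D m ℓ) (kd' P q₁ D m ℓ) (fun _ => true) (sp P q₁ D) B0 B1 ∧
    FamH (ki P q₁ D m ℓ) (ki' P q₁ D m ℓ) (fun _ => false) (sp P q₁ D) B0 B1 ∧
    (∑' i, 74 * (B0 i + B1 i + sp P q₁ D i * B0 i)) ^ 2 ≤ κ / 4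

theorem Good.mb {P : ℝ} {q₁ D m : ℕ} {ℓ : ℕ → ℕ → ℝ} {κ : ℝ} (h : Good P q₁ D m ℓ κ) :
    (∃ K, Dual (LL P q₁ D m ℓ) K) ∧ MB (LL P q₁ D m ℓ) κ := by
  obtain ⟨B0, B1, h1, h2, h3⟩ := h.ex
  have d1 := h1.dual
  have d2 := h2.dual
  refine ⟨⟨_, (d1.add d2).neg⟩, ?_⟩
  have h4 := (MB.add d1 d2 (h1.mb.mono h3) (h2.mb.mono h3)).neg
  have e : 2 * (κ / 4) + 2 * (κ / 4) = κ := by ring
  rw [e] at h4
  exact h4

theorem Good.src {P : ℝ} {q₁ D m : ℕ} {ℓ : ℕ → ℕ → ℝ} {κ : ℝ} (h : Good P q₁ D m ℓ κ) :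
    ∃ C : ℝ, 0 ≤ C ∧ ∀ c : ℝ, 0 ≤ c → ∀ J : ℕ,
      ∑ j ∈ range J, (1 + (j : ℝ)) ^ 2 * (PP (LL P q₁ D m ℓ (s0 c)) j) ^ 2 ≤ C * c ^ 2 := by
  obtain ⟨B0, B1, h1, h2, -⟩ := h.ex
  set S : ℝ := ∑' i, 8 * (sp P q₁ D i * (B0 i + B1 i)) with hS
  refine ⟨4 * S ^ 2, by positivity, fun c hc J => ?_⟩
  have a1 := h1.src hc J
  have a2 := h2.src hc J
  rw [tsum_mul_right, ← hS] at a1 a2
  have hb := Pool.Agent.H5R3.T469N.abs_s0_le_two c
  have hcs := Pool.Agent.H5R3.T469N.cont_s0 c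
  have e : ∀ j, PP (LL P q₁ D m ℓ (s0 c)) j = - (PP (fam (kd P q₁ D m ℓ) (fun _ => true) (sp P q₁ D) (s0 c)) j +
      PP (fam (ki P q₁ D m ℓ) (fun _ => false) (sp P q₁ D) (s0 c)) j) := by
    intro j
    have e1 := Pool.Agent.H54R3.T469O.PP_add (h1.dual.cont hcs hb) (h2.dual.cont hcs hb) j
    have e2 := Pool.Agent.H54R3.T469O.PP_const_mul (-1)
      (fun x => fam (kd P q₁ D m ℓ) (fun _ => true) (sp P q₁ D) (s0 c) x +
        fam (ki P q₁ D m ℓ) (fun _ => false) (sp P q₁ D) (s0 c) x) j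
    rw [e1] at e2
    rw [← neg_one_mul, ← e2]
    congr 1
    funext x
    unfold LL Ao Io
    ring
  calc ∑ j ∈ range J, (1 + (j : ℝ)) ^ 2 * (PP (LL P q₁ D m ℓ (s0 c)) j) ^ 2
      ≤ ∑ j ∈ range J, (2 * ((1 + (j : ℝ)) ^ 2 * (PP (fam (kd P q₁ D m ℓ) (fun _ => true) (sp P q₁ D) (s0 c)) j) ^ 2) +
        2 * ((1 + (j : ℝ)) ^ 2 * (PP (fam (ki P q₁ D m ℓ) (fun _ => false) (sp P q₁ D) (s0 c)) j) ^ 2)) := by
        apply sum_le_sum
        intro j _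
        rw [e j]
        have h0 : 0 ≤ (1 + (j : ℝ)) ^ 2 := by positivity
        nlinarith [mul_nonneg h0 (sq_nonneg (PP (fam (kd P q₁ D m ℓ) (fun _ => true) (sp P q₁ D) (s0 c)) j -
          PP (fam (ki P q₁ D m ℓ) (fun _ => false) (sp P q₁ D) (s0 c)) j))]
    _ = 2 * ∑ j ∈ range J, (1 + (j : ℝ)) ^ 2 * (PP (fam (kd P q₁ D m ℓ) (fun _ => true) (sp P q₁ D) (s0 c)) j) ^ 2 +
        2 * ∑ j ∈ range J, (1 + (j : ℝ)) ^ 2 * (PP (fam (ki P q₁ D m ℓ) (fun _ => false) (sp P q₁ D) (s0 c)) j) ^ 2 := by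
        rw [sum_add_distrib, mul_sum, mul_sum]
    _ ≤ 4 * S ^ 2 * c ^ 2 := by nlinarith

/-- an exponential beats a polynomial -/
lemma tend (a b K₂ : ℝ) (ha : 0 < a) :
    Tendsto (fun m : ℕ => (3 * (m : ℝ) + K₂) * Real.exp (-(a * m - b))) atTop (𝓝 0) := by
  have h0 : Tendsto (fun m : ℕ => a * (m : ℝ)) atTop atTop :=
    tendsto_natCast_atTop_atTop.const_mul_atTop ha
  have h1 := (Real.tendsto_pow_mul_exp_neg_atTop_nhds_zero 1).comp h0
  have h2 := (Real.tendsto_pow_mul_exp_neg_atTop_nhds_zero 0).comp h0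
  have h3 := (h1.const_mul (3 / a * Real.exp b)).add (h2.const_mul (K₂ * Real.exp b))
  simp only [mul_zero, add_zero] at h3
  refine h3.congr fun m => ?_
  simp only [Function.comp, pow_one, pow_zero, one_mul]
  have e : Real.exp (-(a * m - b)) = Real.exp b * Real.exp (-(a * m)) := by
    rw [← Real.exp_add]; congr 1; ring
  rw [e]
  field_simp

/-- the bound of one coefficient -/
lemma expo {γ A P₀ P m q n D ll : ℝ} (hγ : 0 < γ) (hP0 : 0 < P₀) (hP : P₀ / 2 ≤ P) (hm : 0 ≤ m)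
    (hD : 0 ≤ D) (hq : 2 * (D + 2) ≤ γ * q) (hn : n ≤ D)
    (hll : ll ≤ Real.exp (A * (q + 1) + (1 - γ) * m * P * q)) :
    ll * Real.exp (-((q - n) * P * m)) * Real.exp (2 * m * P) ≤
      Real.exp A * Real.exp (-(q * (γ * P₀ / 4 * m - A))) := by
  have hP' : 0 < P := by linarith
  calc ll * Real.exp (-((q - n) * P * m)) * Real.exp (2 * m * P)
      ≤ Real.exp (A * (q + 1) + (1 - γ) * m * P * q) * Real.exp (-((q - n) * P * m)) * Real.exp (2 * m * P) := by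
        gcongr
    _ = Real.exp (A * (q + 1) + (1 - γ) * m * P * q + -((q - n) * P * m) + 2 * m * P) := by
        rw [← Real.exp_add, ← Real.exp_add]
    _ ≤ Real.exp (A + -(q * (γ * P₀ / 4 * m - A))) := by
        apply Real.exp_le_exp.2
        have h1 : (n + 2) * (P * m) ≤ (γ * q / 2) * (P * m) :=
          mul_le_mul_of_nonneg_right (by linarith) (by positivity)
        have hmq : 0 ≤ γ * q := by linarith
        have h2 : (γ * q / 2) * (P₀ / 2 * m) ≤ (γ * q / 2) * (P * m) :=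
          mul_le_mul_of_nonneg_left (mul_le_mul_of_nonneg_right hP hm) (by positivity)
        nlinarith
    _ = _ := Real.exp_add _ _

theorem ops {γ A : ℝ} (hγ : 0 < γ) (hA : 0 ≤ A) (D : ℕ) : ∃ (q₁ : ℕ) (P₀ : ℝ), 1 ≤ q₁ ∧ D ≤ q₁ ∧ 0 < P₀ ∧
    D * P₀ ≤ Real.log (4 / 3) ∧ q₁ * P₀ ≤ Real.log (4 / 3) ∧
    ∀ κ : ℝ, 0 < κ → ∃ m₁ : ℕ, ∀ m : ℕ, m₁ ≤ m → ∀ P : ℝ, P₀ / 2 ≤ P → P ≤ P₀ →
      ∀ ℓ : ℕ → ℕ → ℝ, (∀ n q : ℕ, n < D → q₁ ≤ q → |ℓ n q| ≤ Real.exp (A * (q + 1) + (1 - γ) * m * P * q)) →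
        Good P q₁ D m ℓ κ := by
  obtain ⟨K, hK0, hK⟩ := sT'_bd
  have hl : 0 < Real.log (4 / 3) := Real.log_pos (by norm_num)
  set q₁ : ℕ := ⌈2 * ((D : ℝ) + 2) / γ⌉₊ + D + 1 with hq₁
  have hq1 : 1 ≤ q₁ := by omega
  have hqD : D ≤ q₁ := by omega
  have hqR : (1 : ℝ) ≤ q₁ := by exact_mod_cast hq1
  have hqDR : (D : ℝ) ≤ q₁ := by exact_mod_cast hqD
  have hγq : 2 * ((D : ℝ) + 2) ≤ γ * q₁ := by
    have h1 : 2 * ((D : ℝ) + 2) / γ ≤ (⌈2 * ((D : ℝ) + 2) / γ⌉₊ : ℝ) := Nat.le_ceil _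
    have h2 : (⌈2 * ((D : ℝ) + 2) / γ⌉₊ : ℝ) ≤ q₁ := by rw [hq₁]; push_cast; linarith [Nat.cast_nonneg (α := ℝ) D]
    rw [div_le_iff₀ hγ] at h1
    nlinarith
  set P₀ : ℝ := Real.log (4 / 3) / q₁ with hP₀
  have hP0 : 0 < P₀ := by positivity
  have hqP : q₁ * P₀ = Real.log (4 / 3) := by rw [hP₀]; field_simp
  refine ⟨q₁, P₀, hq1, hqD, hP0, ?_, hqP.le, fun κ hκ => ?_⟩
  · rw [← hqP]; exact mul_le_mul_of_nonneg_right hqDR hP0.le
  set K₂ : ℝ := 2 + 6 * K / P₀ + 4 * K with hK₂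
  have hK₂0 : 0 < K₂ := by positivity
  -- choice of `m₁`
  have ht := tend (γ * P₀ / 4) (A + 2 * P₀) K₂ (by positivity)
  have ht2 := tend (γ * P₀ / 4) (A + 2 * P₀) 1 (by positivity)
  have hκ' : 0 < Real.sqrt (κ / 4) / (148 * (D + 1) * Real.exp A) := by positivity
  obtain ⟨m₁, hm₁⟩ := eventually_atTop.1 ((ht.eventually (gt_mem_nhds hκ')).and
    (ht2.eventually (gt_mem_nhds (show (0:ℝ) < 1 / 2 by norm_num))))
  refine ⟨m₁, fun m hm P hP1 hP2 ℓ hℓ => ?_⟩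
  obtain ⟨b1, b2⟩ := hm₁ m hm
  have hm0 : (0 : ℝ) ≤ m := Nat.cast_nonneg m
  have hPp : 0 < P := by linarith
  set Y : ℝ := Real.exp (-(γ * P₀ / 4 * m - (A + 2 * P₀))) with hY
  have hY0 : 0 < Y := Real.exp_pos _
  have hY2 : Y ≤ 1 / 2 := by
    have : Y ≤ (3 * (m : ℝ) + 1) * Y := le_mul_of_one_le_left hY0.le (by linarith)
    linarith
  have hDP : D * P ≤ Real.log (4 / 3) := by
    rw [← hqP]
    have := Nat.cast_nonneg (α := ℝ) D
    calc (D : ℝ) * P ≤ q₁ * P₀ := mul_le_mul hqDR hP2 hPp.le (by linarith)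
      _ = _ := rfl
  -- the bounds
  set B0 : ℕ × Fin D → ℝ := fun i => |cp P q₁ D m ℓ i| * Real.exp (2 * m * P) with hB0
  set B1 : ℕ × Fin D → ℝ := fun i => |cp P q₁ D m ℓ i| *
    (4 / 3 * (Real.exp (2 * m * P) * (2 * m + (2 * K / P + 3 * K * sp P q₁ D i)))) with hB1
  have hE1 : 1 ≤ Real.exp (2 * m * P) := Real.one_le_exp (by positivity)
  have hsp : ∀ i : ℕ × Fin D, 1 ≤ sp P q₁ D i := by
    intro i
    unfold sp
    apply Real.one_le_exp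
    have h1 : ((i.2 : ℕ) : ℝ) ≤ D := by exact_mod_cast i.2.2.le
    have h2 := Nat.cast_nonneg (α := ℝ) i.1
    exact mul_nonneg (by linarith) hPp.le
  have hsp0 : ∀ i : ℕ × Fin D, 0 ≤ sp P q₁ D i := fun i => by linarith [hsp i]
  have w1 : ∀ i, Wt (kd P q₁ D m ℓ i) (kd' P q₁ D m ℓ i) (B0 i) (B1 i) := by
    intro i
    have hs := hsp0 i
    refine ((wt_dir hK i.2.2 hPp hDP hs).const_mul (cp P q₁ D m ℓ i)).mono ?_ ?_
    · exact mul_le_mul_of_nonneg_left hE1 (abs_nonneg _)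
    · apply mul_le_mul_of_nonneg_left _ (abs_nonneg _)
      have h3 : 0 ≤ 2 * K / P + 3 * K * sp P q₁ D i := by positivity
      have h4 : 2 * K / P + 3 * K * sp P q₁ D i ≤ Real.exp (2 * m * P) * (2 * m + (2 * K / P + 3 * K * sp P q₁ D i)) :=
        (by linarith : 2 * K / P + 3 * K * sp P q₁ D i ≤ 2 * m + (2 * K / P + 3 * K * sp P q₁ D i)).trans
          (le_mul_of_one_le_left (by positivity) hE1)
      linarith
  have w2 : ∀ i, Wt (ki P q₁ D m ℓ i) (ki' P q₁ D m ℓ i) (B0 i) (B1 i) := by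
    intro i
    exact (wt_inv hK i.2.2 hPp hDP (hsp0 i) m).const_mul (cp P q₁ D m ℓ i)
  -- the majorant
  have key : ∀ i : ℕ × Fin D, sp P q₁ D i * (B0 i + B1 i + sp P q₁ D i * B0 i) ≤
      (3 * (m : ℝ) + K₂) * Real.exp A * Y * (Y ^ i.1) := by
    intro i
    set s := sp P q₁ D i with hs
    have hs1 := hsp i
    rw [← hs] at hs1
    set q : ℝ := (q₁ : ℝ) + i.1 with hq
    have hi0 := Nat.cast_nonneg (α := ℝ) i.1
    have hn0 := Nat.cast_nonneg (α := ℝ) (i.2 : ℕ)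
    have hnD : ((i.2 : ℕ) : ℝ) ≤ D := by exact_mod_cast i.2.2.le
    have hqq : (q₁ : ℝ) ≤ q := by linarith
    have hsq : s ≤ Real.exp (q * P₀) := by
      rw [hs]
      unfold sp
      apply Real.exp_le_exp.2
      exact mul_le_mul (by linarith) hP2 hPp.le (by linarith)
    have hc : |cp P q₁ D m ℓ i| * Real.exp (2 * m * P) ≤
        Real.exp A * Real.exp (-(q * (γ * P₀ / 4 * m - A))) := by
      have h1 := hℓ i.2 (q₁ + i.1) i.2.2 (by omega)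
      push_cast at h1
      have h2 := expo (γ := γ) (A := A) (P₀ := P₀) (P := P) (m := m) (q := q) (n := ((i.2 : ℕ) : ℝ)) (D := D)
        (ll := |ℓ i.2 (q₁ + i.1)|) hγ hP0 hP1 hm0 (Nat.cast_nonneg D) (by nlinarith) hnD h1
      have h3 : |cp P q₁ D m ℓ i| = |ℓ i.2 (q₁ + i.1)| * Real.exp (-((q - ((i.2 : ℕ) : ℝ)) * P * m)) := by
        unfold cp
        rw [abs_mul, abs_of_pos (Real.exp_pos _)]
      rw [h3]
      exact h2
    have hfac : s * (1 + 4 / 3 * (2 * m + (2 * K / P + 3 * K * s)) + s) ≤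
        (3 * m + K₂) * Real.exp (q * (2 * P₀)) := by
      have hX1 : 1 ≤ Real.exp (q * P₀) := Real.one_le_exp (by positivity)
      have h1 : 2 * K / P ≤ 4 * K / P₀ := by
        rw [div_le_div_iff₀ hPp hP0]
        nlinarith
      have h2 : 1 + 4 / 3 * (2 * m + (2 * K / P + 3 * K * s)) + s ≤ (3 * m + K₂) * Real.exp (q * P₀) := by
        set X := Real.exp (q * P₀)
        have h3 : 4 * K * s ≤ 4 * K * X := mul_le_mul_of_nonneg_left hsq (by positivity)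
        have h4 : 1 + 3 * m + 6 * K / P₀ ≤ (1 + 3 * m + 6 * K / P₀) * X :=
          le_mul_of_one_le_right (by positivity) hX1
        have h5 : (3 * m + K₂) * X = (1 + 3 * m + 6 * K / P₀) * X + 4 * K * X + X := by rw [hK₂]; ring
        have h6 : 4 * K / P₀ = 4 * (K / P₀) := by ring
        have h7 : 6 * K / P₀ = 6 * (K / P₀) := by ring
        have h8 : 0 ≤ K / P₀ := by positivity
        rw [h5]
        rw [h6] at h1
        rw [h7] at h4 ⊢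
        linarith
      calc s * (1 + 4 / 3 * (2 * m + (2 * K / P + 3 * K * s)) + s)
          ≤ Real.exp (q * P₀) * ((3 * m + K₂) * Real.exp (q * P₀)) := by gcongr
        _ = (3 * m + K₂) * (Real.exp (q * P₀) * Real.exp (q * P₀)) := by ring
        _ = _ := by rw [← Real.exp_add]; congr 2; ring
    calc s * (B0 i + B1 i + s * B0 i)
        = (|cp P q₁ D m ℓ i| * Real.exp (2 * m * P)) * (s * (1 + 4 / 3 * (2 * m + (2 * K / P + 3 * K * s)) + s)) := by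
          simp only [hB0, hB1, ← hs]
          ring
      _ ≤ (Real.exp A * Real.exp (-(q * (γ * P₀ / 4 * m - A)))) * ((3 * m + K₂) * Real.exp (q * (2 * P₀))) :=
          mul_le_mul hc hfac (by positivity) (by positivity)
      _ = (3 * m + K₂) * Real.exp A * Y ^ (q₁ + i.1) := by
          have : Y ^ (q₁ + i.1) = Real.exp (-(q * (γ * P₀ / 4 * m - A))) * Real.exp (q * (2 * P₀)) := by
            rw [hY, ← Real.exp_nat_mul, ← Real.exp_add]
            congr 1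
            push_cast
            rw [hq]
            ring
          rw [this]
          ring
      _ ≤ (3 * m + K₂) * Real.exp A * (Y * Y ^ i.1) := by
          apply mul_le_mul_of_nonneg_left _ (by positivity)
          rw [pow_add]
          apply mul_le_mul_of_nonneg_right _ (by positivity)
          exact pow_le_of_le_one hY0.le (by linarith) (by omega)
      _ = _ := by ring
  have hgeo : Summable fun i : ℕ × Fin D => (3 * (m : ℝ) + K₂) * Real.exp A * Y * (Y ^ i.1) := by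
    apply Summable.mul_left
    have h1 : Summable fun i : ℕ × Fin D => Y ^ i.1 * (fun _ : Fin D => (1:ℝ)) i.2 :=
      (summable_geometric_of_lt_one hY0.le (by linarith)).mul_of_nonneg (Summable.of_finite)
        (fun n => by positivity) (fun _ => zero_le_one)
    simpa using h1
  have hnn : ∀ i, 0 ≤ B0 i + B1 i + sp P q₁ D i * B0 i := by
    intro i
    have h0 := (w1 i).B0_nn
    have h1 := (w1 i).B1_nn
    have h2 := mul_nonneg (hsp0 i) h0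
    linarith
  have hs' : Summable fun i => sp P q₁ D i * (B0 i + B1 i + sp P q₁ D i * B0 i) :=
    Summable.of_nonneg_of_le (fun i => mul_nonneg (hsp0 i) (hnn i)) key hgeo
  refine ⟨⟨B0, B1, ⟨w1, hsp, hs'⟩, ⟨w2, hsp, hs'⟩, ?_⟩⟩
  have hsum : ∑' i : ℕ × Fin D, (3 * (m : ℝ) + K₂) * Real.exp A * Y * (Y ^ i.1) =
      (3 * (m : ℝ) + K₂) * Real.exp A * Y * (D * (1 - Y)⁻¹) := by
    rw [tsum_mul_left]
    congr 1
    have h1 : HasSum (fun i : ℕ × Fin D => Y ^ i.1) (D * (1 - Y)⁻¹) := by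
      have h2 : Summable fun i : ℕ × Fin D => Y ^ i.1 * (fun _ : Fin D => (1:ℝ)) i.2 :=
        (summable_geometric_of_lt_one hY0.le (by linarith)).mul_of_nonneg (Summable.of_finite)
          (fun n => by positivity) (fun _ => zero_le_one)
      simp only [mul_one] at h2
      have h3 : HasSum (fun j : ℕ => (D : ℝ) * Y ^ j) (∑' i : ℕ × Fin D, Y ^ i.1) := by
        refine h2.hasSum.prod_fiberwise fun j => ?_
        have := hasSum_fintype (fun _ : Fin D => Y ^ j)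
        simpa using this
      have h4 := (hasSum_geometric_of_lt_one hY0.le (by linarith : Y < 1)).mul_left (D : ℝ)
      rw [← h3.unique h4]
      exact h2.hasSum
    exact h1.tsum_eq
  have htot : ∑' i, 74 * (B0 i + B1 i + sp P q₁ D i * B0 i) ≤ Real.sqrt (κ / 4) := by
    rw [tsum_mul_left]
    have hs2 : Summable fun i => B0 i + B1 i + sp P q₁ D i * B0 i :=
      Summable.of_nonneg_of_le hnn (fun i => le_mul_of_one_le_left (hnn i) (hsp i)) hs'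
    have h1 : ∑' i, (B0 i + B1 i + sp P q₁ D i * B0 i) ≤
        (3 * (m : ℝ) + K₂) * Real.exp A * Y * (D * (1 - Y)⁻¹) := by
      rw [← hsum]
      exact hs2.tsum_le_tsum (fun i => (le_mul_of_one_le_left (hnn i) (hsp i)).trans (key i)) hgeo
    have h2 : (1 - Y)⁻¹ ≤ 2 := by
      rw [inv_le_comm₀ (by linarith) (by norm_num)]
      linarith
    have h3 : (D : ℝ) * (1 - Y)⁻¹ ≤ (D + 1) * 2 := by
      have := Nat.cast_nonneg (α := ℝ) D
      have h4 : 0 ≤ (1 - Y)⁻¹ := by rw [inv_nonneg]; linarith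
      nlinarith
    have h5 : (3 * (m : ℝ) + K₂) * Y ≤ Real.sqrt (κ / 4) / (148 * (D + 1) * Real.exp A) := b1.le
    rw [le_div_iff₀ (by positivity)] at h5
    calc 74 * ∑' i, (B0 i + B1 i + sp P q₁ D i * B0 i) ≤
          74 * ((3 * (m : ℝ) + K₂) * Real.exp A * Y * (D * (1 - Y)⁻¹)) := by gcongr
      _ ≤ 74 * ((3 * (m : ℝ) + K₂) * Real.exp A * Y * ((D + 1) * 2)) := by gcongr
      _ = (3 * (m : ℝ) + K₂) * Y * (148 * (D + 1) * Real.exp A) := by ring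
      _ ≤ _ := h5
  have h0 : 0 ≤ ∑' i, 74 * (B0 i + B1 i + sp P q₁ D i * B0 i) :=
    tsum_nonneg fun i => mul_nonneg (by norm_num) (hnn i)
  calc (∑' i, 74 * (B0 i + B1 i + sp P q₁ D i * B0 i)) ^ 2 ≤ Real.sqrt (κ / 4) ^ 2 := pow_le_pow_left₀ h0 htot 2
    _ = κ / 4 := Real.sq_sqrt (by positivity)

end Pool.Agent.Q286.AP
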