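import Mathlib
import Pool.Agent.Q286.AP.Oper
import Pool.Agent.Q286.AP.Ex

set_option autoImplicit false

/-!
# The core with a general local operator and a general local source
-/

open Finset MeasureTheory

namespace Pool.Agent.Q286.AP

open Pool.Agent.H469R10.HO
open Pool.Agent.H54R3.T469O (chi_zero chi_one DD_const_mul)

lemma dualDD {m : ℕ} (hm : 1 ≤ m) : Dual (DD m) 1 where
  K0 := zero_le_one
  cont := fun hf hC => Pool.Agent.H54R3.T469O.DD_cont hm hf hC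
  bdd := fun {f C} _ hC x hx => by
    have hC0 : 0 ≤ C := (abs_nonneg _).trans (hC 0)
    rw [one_mul]
    unfold DD
    rcases le_or_gt (3 / 4) x with h | h
    · rw [chi_zero h, zero_mul, zero_mul, abs_zero]; exact hC0
    · have hx0 := hx.1
      rw [abs_mul, abs_mul, abs_of_nonneg (Pool.Agent.H54R3.T469O.chi_nonneg x), abs_of_nonneg (pow_nonneg hx0 _)]
      have h1 : x ^ (2 * m) ≤ 1 := pow_le_one₀ hx0 (by linarith)
      calc chi x * x ^ (2 * m) * |f x⁻¹| ≤ 1 * 1 * C := by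
            gcongr
            · exact Pool.Agent.H54R3.T469O.chi_le_one x
            · exact hC _
        _ = C := by ring
  smul := fun a f x => DD_const_mul m a f x
  sum := fun {f a g} _ _ _ hg x => by
    unfold DD
    exact (hg _).mul_left _

/-- a local operator of weight `-2m` -/
structure Loc (m : ℕ) (κ : ℝ) (L : (ℝ → ℝ) → ℝ → ℝ) : Prop where
  dual : ∃ K, Dual L K
  mb : MB L κ
  src : ∃ C : ℝ, 0 ≤ C ∧ ∀ c : ℝ, 0 ≤ c → ∀ J : ℕ,
    ∑ j ∈ range J, (1 + (j : ℝ)) ^ 2 * (PP (L (s0 c)) j) ^ 2 ≤ C * c ^ 2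
  zero : ∀ (f : ℝ → ℝ) (x : ℝ), 0 < x → Real.log (4 / 3) ≤ |Real.log x| → L f x = 0
  rel : ∀ (f : ℝ → ℝ) (x : ℝ), 0 < x → L f x = x ^ (2 * m) * L f x⁻¹

/-- a local source of weight `-2m` -/
structure Rsc (m : ℕ) (r : ℝ → ℝ) : Prop where
  cont : Continuous r
  zero : ∀ x : ℝ, 0 < x → Real.log (4 / 3) ≤ |Real.log x| → r x = 0
  rel : ∀ x : ℝ, 0 < x → r x = x ^ (2 * m) * r x⁻¹

lemma log_abs {x : ℝ} (hx : 0 < x) (h : x ≤ 3 / 4 ∨ 4 / 3 ≤ x) : Real.log (4 / 3) ≤ |Real.log x| := by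
  rcases h with h | h
  · have h2 : Real.log x ≤ Real.log (3 / 4) := Real.log_le_log hx h
    have h3 : Real.log (3 / 4) = - Real.log (4 / 3) := by rw [← Real.log_inv]; norm_num
    rw [h3] at h2
    have := neg_abs_le (Real.log x)
    linarith
  · exact (Real.log_le_log (by norm_num) h).trans (le_abs_self _)

/-- the shape of a solution of `h = DD m h + L h + r` on `[0, 2]` -/
theorem shape {m : ℕ} {κ : ℝ} {L : (ℝ → ℝ) → ℝ → ℝ} (hL : Loc m κ L) {r : ℝ → ℝ} (hr : Rsc m r)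
    {h : ℝ → ℝ} (hh : ∀ x ∈ Set.Icc (0:ℝ) 2, h x = DD m h x + L h x + r x) :
    (∀ x : ℝ, 0 < x → h x = x ^ (2 * m) * h x⁻¹) ∧
    (∀ x : ℝ, 4 / 3 ≤ x → x ≤ 2 → h x = 0) ∧
    (∀ x : ℝ, 3 / 4 < x → x < 4 / 3 → h x = L h x + r x) := by
  have z : ∀ x : ℝ, 4 / 3 ≤ x → x ≤ 2 → h x = 0 := by
    intro x h1 h2
    have hx : 0 < x := by linarith
    have hl := log_abs hx (Or.inr h1)
    rw [hh x ⟨by linarith, h2⟩, hL.zero h x hx hl, hr.zero x hx hl]
    unfold DD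
    rw [chi_zero (by linarith)]
    ring
  have i : ∀ x : ℝ, 3 / 4 < x → x < 4 / 3 → h x = L h x + r x := by
    intro x h1 h2
    rw [hh x ⟨by linarith, by linarith⟩]
    unfold DD
    rw [chi_zero (by linarith)]
    ring
  have s : ∀ x : ℝ, 0 < x → x ≤ 1 / 2 → h x = x ^ (2 * m) * h x⁻¹ := by
    intro x h1 h2
    have hl := log_abs h1 (Or.inl (by linarith))
    rw [hh x ⟨by linarith, by linarith⟩, hL.zero h x h1 hl, hr.zero x h1 hl]
    unfold DD
    rw [chi_one h2]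
    ring
  have t : ∀ x : ℝ, 1 / 2 ≤ x → x ≤ 3 / 4 → h x = 0 := by
    intro x h1 h2
    have hx : 0 < x := by linarith
    have hl := log_abs hx (Or.inl h2)
    have h3 : h x⁻¹ = 0 := by
      apply z
      · rw [le_inv_comm₀ (by norm_num) hx]; norm_num; linarith
      · rw [inv_le_comm₀ hx (by norm_num)]; norm_num; linarith
    rw [hh x ⟨by linarith, by linarith⟩, hL.zero h x hx hl, hr.zero x hx hl]
    unfold DD
    rw [h3]
    ring
  refine ⟨fun x hx => ?_, z, i⟩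
  rcases le_or_gt x (1 / 2) with h1 | h1
  · exact s x hx h1
  rcases le_or_gt x (3 / 4) with h2 | h2
  · rw [t x h1.le h2, z x⁻¹, mul_zero]
    · rw [le_inv_comm₀ (by norm_num) hx]; norm_num; linarith
    · rw [inv_le_comm₀ hx (by norm_num)]; norm_num; linarith
  rcases lt_or_ge x (4 / 3) with h3 | h3
  · have h4 : 3 / 4 < x⁻¹ := by rw [lt_inv_comm₀ (by norm_num) hx]; norm_num; linarith
    have h5 : x⁻¹ < 4 / 3 := by rw [inv_lt_comm₀ hx (by norm_num)]; norm_num; linarith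
    rw [i x h2 h3, i x⁻¹ h4 h5, hL.rel h x hx, hr.rel x hx]
    ring
  rcases le_or_gt x 2 with h4 | h4
  · rw [z x h3 h4, t x⁻¹, mul_zero]
    · rw [le_inv_comm₀ (by norm_num) hx]; norm_num; linarith
    · rw [inv_le_comm₀ hx (by norm_num)]; norm_num; linarith
  · have h5 := s x⁻¹ (inv_pos.2 hx) (by rw [inv_le_comm₀ hx (by norm_num)]; norm_num; linarith)
    rw [inv_inv] at h5
    rw [h5, ← mul_assoc, ← mul_pow, mul_inv_cancel₀ hx.ne', one_pow, one_mul]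

/-- **Core**. -/
theorem core_gen : ∃ κ : ℝ, 0 < κ ∧ ∃ m₀ : ℕ, 2 ≤ m₀ ∧ ∀ m : ℕ, m₀ ≤ m → ∀ lam : ℝ, 2 * m + 1 < lam →
    ∃ ρ₀ : ℝ, 0 < ρ₀ ∧ ∀ L : (ℝ → ℝ) → ℝ → ℝ, Loc m κ L → ∃ c₀ : ℝ, 0 < c₀ ∧ ∀ c : ℝ, 0 < c → c ≤ c₀ →
    ∀ r : ℝ → ℝ, Rsc m r → (∀ J : ℕ, ∑ j ∈ range J, WW c j * (PP r j) ^ 2 ≤ ρ₀) →
    ∃ β α : ℕ → ℝ,
      (∀ p : ℕ, p.Prime → |β p| ≤ (p : ℝ) ^ (-(1 / 2 + m / lam))) ∧
      (∀ n : ℕ, 1 ≤ n → α n = if Squarefree n then ∏ p ∈ n.primeFactors, β p else 0) ∧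
      Summable (fun n => |α n|) ∧
      (∀ x : ℝ, 0 < x → Th c lam α x = x ^ (2 * m) * Th c lam α x⁻¹) ∧
      (∀ x : ℝ, 4 / 3 ≤ x → x ≤ 2 → Th c lam α x = 0) ∧
      (∀ x : ℝ, 3 / 4 < x → x < 4 / 3 → Th c lam α x = L (Th c lam α) x + r x) := by
  obtain ⟨κ, hκ, m₁, lam₀, hlam8, hH⟩ := exists_hyp'
  obtain ⟨m₂, hM⟩ := Pool.Agent.H99R3.M469.taskM (κ / 4) (by positivity)
  refine ⟨κ / 4, by positivity, max (max m₁ (max m₂ 2)) ⌈lam₀⌉₊,
    ((le_max_right _ _).trans (le_max_right _ _)).trans (le_max_left _ _), fun m hm lam hlm => ?_⟩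
  have hm1 : m₁ ≤ m := ((le_max_left _ _).trans (le_max_left _ _)).trans hm
  have hm' : m₂ ≤ m := (((le_max_left _ _).trans (le_max_right _ _)).trans (le_max_left _ _)).trans hm
  have hm2 : 2 ≤ m := (((le_max_right _ _).trans (le_max_right _ _)).trans (le_max_left _ _)).trans hm
  have hm3 : lam₀ ≤ m := Nat.ceil_le.mp ((le_max_right _ _).trans hm)
  have hmR : (2:ℝ) ≤ m := by exact_mod_cast hm2
  have hlam : lam₀ ≤ lam := by linarith
  obtain ⟨e, CJ, CH, η, ρ, c₁, he0, he, hη, hρ0, hρ9, hfin, hc₁, hyp⟩ := hH m hm1 lam hlam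
  obtain ⟨cN, hcN, hN⟩ := Pool.Agent.H5R3.T469N.taskN m hm2 (ρ ^ 2 / 64) (by positivity)
  obtain ⟨cP, hcP, hP⟩ := Pool.Agent.Y532.SC.primeCoef (m := m) (by omega) hlm hη
  refine ⟨ρ ^ 2 / 64, by positivity, fun L hL => ?_⟩
  obtain ⟨K, hK⟩ := hL.dual
  obtain ⟨C, hC0, hC⟩ := hL.src
  have hD : Dual (fun f x => DD m f x + L f x) (1 + K) := (dualDD (by omega)).add hK
  have hMB : MB (fun f x => DD m f x + L f x) κ := by
    have h1 : MB (DD m) (κ / 4) := fun S cl ω β hω => hM m hm' S cl ω β hω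
    have h2 := MB.add (dualDD (by omega)) hK h1 hL.mb
    have e : 2 * (κ / 4) + 2 * (κ / 4) = κ := by ring
    rwa [e] at h2
  set cS : ℝ := ρ ^ 2 / (64 * 256 * (C + 1)) with hcS
  have hcS0 : 0 < cS := by positivity
  refine ⟨min (min c₁ cN) (min cP (min cS (1 / 10))), lt_min (lt_min hc₁ hcN)
    (lt_min hcP (lt_min hcS0 (by norm_num))), fun c hc hcc r hr hrs => ?_⟩
  obtain ⟨B, h, hB2⟩ := hyp c hc (hcc.trans ((min_le_left _ _).trans (min_le_left _ _)))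
  have hcN' : c ≤ cN := hcc.trans ((min_le_left _ _).trans (min_le_right _ _))
  have hcP' : c ≤ cP := hcc.trans ((min_le_right _ _).trans (min_le_left _ _))
  have hcS' : c ≤ cS := hcc.trans ((min_le_right _ _).trans ((min_le_right _ _).trans (min_le_left _ _)))
  have hc10 : c ≤ 1 / 10 := hcc.trans ((min_le_right _ _).trans ((min_le_right _ _).trans (min_le_right _ _)))
  have hBh : ∀ j, ∀ p ∈ B j, 1 ≤ j ∧ p.Prime ∧ |uu c lam p - xx j| ≤ 1 / 2 :=
    fun j p hp => ⟨(h.hB j p hp).1, (h.hB j p hp).2.1, (h.hB j p hp).2.2.trans he⟩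
  have hWW : ∀ j, 0 ≤ WW c j := fun j => (WW_pos h.hc h.hc1 j).le
  -- the source
  have hs0c := Pool.Agent.H5R3.T469N.cont_s0 c
  have hs0b := Pool.Agent.H5R3.T469N.abs_s0_le_two c
  have hsplit : ∀ j, PP (fun x => DD m (s0 c) x + L (s0 c) x) j = PP (DD m (s0 c)) j + PP (L (s0 c)) j := fun j =>
    Pool.Agent.H54R3.T469O.PP_add ((dualDD (by omega)).cont hs0c hs0b) (hK.cont hs0c hs0b) j
  have hsrc : ∀ J : ℕ, ∑ j ∈ range J, WW c j * ((- PP (s0 c) j + PP (fun x => DD m (s0 c) x + L (s0 c) x) j + PP r j)) ^ 2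
      ≤ (ρ / 2) ^ 2 := by
    intro J
    have b1 := hN c hc hcN' J
    have b2 := hC c hc.le J
    have b3 := hrs J
    have b2' : ∑ j ∈ range J, WW c j * (PP (L (s0 c)) j) ^ 2 ≤ ρ ^ 2 / 64 := by
      calc ∑ j ∈ range J, WW c j * (PP (L (s0 c)) j) ^ 2
          ≤ ∑ j ∈ range J, 256 / c * ((1 + (j:ℝ)) ^ 2 * (PP (L (s0 c)) j) ^ 2) := by
            apply sum_le_sum
            intro j _
            rw [← mul_assoc]
            exact mul_le_mul_of_nonneg_right (Pool.Agent.H5R3.T469N.WW_le hc (by linarith) j) (sq_nonneg _)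
        _ = 256 / c * ∑ j ∈ range J, (1 + (j:ℝ)) ^ 2 * (PP (L (s0 c)) j) ^ 2 := by rw [mul_sum]
        _ ≤ 256 / c * (C * c ^ 2) := by gcongr
        _ = 256 * C * c := by field_simp
        _ ≤ 256 * (C + 1) * cS := by
            have : C * c ≤ (C + 1) * cS := mul_le_mul (by linarith) hcS' hc.le (by linarith)
            linarith
        _ = ρ ^ 2 / 64 := by
            rw [hcS]
            field_simp
    calc ∑ j ∈ range J, WW c j * ((- PP (s0 c) j + PP (fun x => DD m (s0 c) x + L (s0 c) x) j + PP r j)) ^ 2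
        ≤ ∑ j ∈ range J, (4 * (WW c j * (ss c m j) ^ 2) + 4 * (WW c j * (PP (L (s0 c)) j) ^ 2) +
          4 * (WW c j * (PP r j) ^ 2)) := by
          apply sum_le_sum
          intro j _
          rw [hsplit j]
          have e1 : - PP (s0 c) j + (PP (DD m (s0 c)) j + PP (L (s0 c)) j) + PP r j =
              ss c m j + PP (L (s0 c)) j + PP r j := by unfold ss; ring
          rw [e1]
          have e2 : (ss c m j + PP (L (s0 c)) j + PP r j) ^ 2 ≤
              4 * (ss c m j) ^ 2 + 4 * (PP (L (s0 c)) j) ^ 2 + 4 * (PP r j) ^ 2 := by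
            nlinarith [sq_nonneg (ss c m j - PP (L (s0 c)) j), sq_nonneg (ss c m j - PP r j),
              sq_nonneg (PP (L (s0 c)) j - PP r j), sq_nonneg (ss c m j), sq_nonneg (PP (L (s0 c)) j),
              sq_nonneg (PP r j)]
          have := mul_le_mul_of_nonneg_left e2 (hWW j)
          linarith
      _ = 4 * ∑ j ∈ range J, WW c j * (ss c m j) ^ 2 + 4 * ∑ j ∈ range J, WW c j * (PP (L (s0 c)) j) ^ 2 +
          4 * ∑ j ∈ range J, WW c j * (PP r j) ^ 2 := by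
          rw [sum_add_distrib, sum_add_distrib, mul_sum, mul_sum, mul_sum]
      _ ≤ (ρ / 2) ^ 2 := by nlinarith [sq_nonneg ρ]
  obtain ⟨b, hb1, hb2, hb3⟩ := fixed h hD hMB Pool.Agent.H180R3.Q469.taskQ hρ0 hρ9 hfin _ hsrc
  obtain ⟨hsum, hfx⟩ := fixO hD h.hlam hBh h.hBne hb2 hr.cont hb3
  refine ⟨bet c lam B b, al c lam B b, ?_, ?_, hsum, shape hL hr hfx⟩
  · intro p hp
    refine hP c hc hcP' B hBh hB2 b (fun j => ?_) p hp
    have h1 := hb1 (j + 1)
    rw [Finset.sum_range_succ] at h1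
    have h2 : 0 ≤ ∑ i ∈ range j, WW c i * b i ^ 2 :=
      Finset.sum_nonneg fun i _ => mul_nonneg (hWW i) (sq_nonneg _)
    have h3 : ρ ^ 2 ≤ 1 := by nlinarith [sq_nonneg ρ]
    linarith
  · intro n hn
    unfold al
    rw [if_neg (by omega)]

/-- the operator `LL` is local -/
theorem Good.loc {P : ℝ} {q₁ D m : ℕ} {ℓ : ℕ → ℕ → ℝ} {κ : ℝ} (h : Good P q₁ D m ℓ κ) (hP : 0 < P)
    (hDP : D * P ≤ Real.log (4 / 3)) : Loc m κ (LL P q₁ D m ℓ) where
  dual := h.mb.1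
  mb := h.mb.2
  src := h.src
  zero := by
    intro f x hx hl
    have key : ∀ y : ℝ, 0 < y → Real.log (4 / 3) ≤ |Real.log y| → Ao P q₁ D m ℓ f y = 0 := by
      intro y hy hly
      unfold Ao fam
      convert tsum_zero with i
      unfold kd lg
      rw [if_pos hy, GG_zero _ (far i.2.2 hP hDP hly)]
      ring
    rw [LL_eq f hx, key x hx hl, key x⁻¹ (inv_pos.2 hx) (by rw [Real.log_inv, abs_neg]; exact hl)]
    ring
  rel := fun f x hx => LL_rel f hx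

end Pool.Agent.Q286.AP
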