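import Mathlib
import Pool.Agent.Q286.SZ.Van
import Pool.Agent.Q286.AP.FixO

set_option autoImplicit false

/-!
# The completed function is a Mellin transform of the boundary function
-/

namespace Pool.Agent.Q286.AP

open Filter Topology MeasureTheory Set Complex Asymptotics
open Pool.Agent.H853R3.Bol Pool.Agent.H469R10.HO
open Pool.Agent.H144R3.T469F (psi psi_cont isBigO_top uu_pos le_uu)

/-- Mellin transform of `t ↦ ∫ h(t x) k(x) dx` -/
theorem mellin_conv {h k : ℝ → ℂ} {s : ℂ} (hh : Continuous h) (hk : Continuous k)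
    (h1 : MellinConvergent h s) (h2 : MellinConvergent k (1 - s)) :
    mellin (fun t => ∫ x in Ioi (0:ℝ), h (t * x) * k x) s = mellin h s * mellin k (1 - s) := by
  have hmeas : AEStronglyMeasurable (fun p : ℝ × ℝ => (p.1 : ℂ) ^ (s - 1) * (h (p.1 * p.2) * k p.2))
      ((volume.restrict (Ioi 0)).prod (volume.restrict (Ioi 0))) := by
    apply Measurable.aestronglyMeasurable
    apply Measurable.mul
    · exact (Complex.measurable_ofReal.comp measurable_fst).pow_const _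
    · apply Measurable.mul
      · exact hh.measurable.comp (measurable_fst.mul measurable_snd)
      · exact hk.measurable.comp measurable_snd
  have hint1 : ∀ x : ℝ, 0 < x → IntegrableOn (fun t : ℝ => (t : ℂ) ^ (s - 1) * (h (t * x) * k x)) (Ioi 0) := by
    intro x hx
    have h3 := (MellinConvergent.comp_mul_left hx).2 h1
    unfold MellinConvergent at h3
    refine (h3.mul_const (k x)).congr (Eventually.of_forall fun t => ?_)
    simp only [smul_eq_mul]
    rw [mul_comm x t]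
    ring
  obtain ⟨C, hC⟩ : ∃ C : ℝ, C = ∫ t in Ioi (0:ℝ), ‖(t : ℂ) ^ (s - 1) * h t‖ := ⟨_, rfl⟩
  have hnorm : ∀ x : ℝ, 0 < x → ∫ t in Ioi (0:ℝ), ‖(t : ℂ) ^ (s - 1) * (h (t * x) * k x)‖ =
      C * ‖(x : ℂ) ^ ((1 - s) - 1) * k x‖ := by
    intro x hx
    have h3 := integral_comp_mul_left_Ioi (fun t : ℝ => ‖(t : ℂ) ^ (s - 1) * h t‖) 0 hx
    rw [mul_zero, ← hC, smul_eq_mul] at h3
    have h4 : ∀ t ∈ Ioi (0:ℝ), ‖(t : ℂ) ^ (s - 1) * (h (t * x) * k x)‖ =
        (x ^ (1 - s.re) * ‖k x‖) * ‖((x * t : ℝ) : ℂ) ^ (s - 1) * h (x * t)‖ := by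
      intro t ht
      have ht0 : (0:ℝ) < t := ht
      rw [norm_mul, norm_mul, norm_mul, norm_cpow_eq_rpow_re_of_pos ht0, norm_cpow_eq_rpow_re_of_pos (mul_pos hx ht0),
        Real.mul_rpow hx.le ht0.le]
      have e1 : (s - 1).re = s.re - 1 := by simp
      have e2 : x ^ (1 - s.re) * x ^ (s.re - 1) = 1 := by
        rw [← Real.rpow_add hx]; simp
      rw [e1, mul_comm x t]
      linear_combination -(t ^ (s.re - 1) * ‖h (t * x)‖ * ‖k x‖) * e2
    rw [setIntegral_congr_fun measurableSet_Ioi h4, integral_const_mul, h3, norm_mul,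
      norm_cpow_eq_rpow_re_of_pos hx]
    have e1 : ((1 - s) - 1).re = -s.re := by simp
    have e2 : x ^ (1 - s.re) * x⁻¹ = x ^ (-s.re) := by
      have e3 : -s.re = (1 - s.re) + (-1) := by ring
      rw [e3, Real.rpow_add hx, Real.rpow_neg_one]
    rw [e1]
    linear_combination (‖k x‖ * C) * e2
  have hInt : Integrable (Function.uncurry fun (t x : ℝ) => (t : ℂ) ^ (s - 1) * (h (t * x) * k x))
      ((volume.restrict (Ioi 0)).prod (volume.restrict (Ioi 0))) := by
    refine (integrable_prod_iff' hmeas).2 ⟨?_, ?_⟩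
    · refine (ae_restrict_mem measurableSet_Ioi).mono fun x hx => ?_
      exact hint1 x hx
    · have h3 : Integrable (fun x : ℝ => C * ‖(x : ℂ) ^ ((1 - s) - 1) * k x‖) (volume.restrict (Ioi 0)) := by
        apply Integrable.const_mul
        have := h2
        unfold MellinConvergent at this
        exact this.norm
      refine h3.congr ?_
      refine (ae_restrict_mem measurableSet_Ioi).mono fun x hx => ?_
      exact (hnorm x hx).symm
  have hsw := integral_integral_swap hInt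
  unfold mellin
  simp only [smul_eq_mul] at hsw ⊢
  have e1 : ∀ t : ℝ, (t : ℂ) ^ (s - 1) * ∫ x in Ioi (0:ℝ), h (t * x) * k x =
      ∫ x in Ioi (0:ℝ), (t : ℂ) ^ (s - 1) * (h (t * x) * k x) := fun t => by rw [integral_const_mul]
  simp_rw [e1]
  rw [hsw, ← integral_const_mul]
  refine setIntegral_congr_fun measurableSet_Ioi fun x hx => ?_
  have hx0 : (0:ℝ) < x := hx
  have h5 := mellin_comp_mul_left h s hx0
  unfold mellin at h5
  simp only [smul_eq_mul] at h5 ⊢
  have e2 : (fun t : ℝ => (t : ℂ) ^ (s - 1) * (h (t * x) * k x)) = fun t : ℝ => ((t : ℂ) ^ (s - 1) * h (x * t)) * k x := by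
    funext t
    rw [mul_comm x t]
    ring
  rw [e2, integral_mul_const, h5]
  have e3 : (1 - s) - 1 = -s := by ring
  rw [e3]
  ring

/-- homogeneity of the kernel -/
lemma K_hom (n : ℕ) {t : ℝ} (ht : 0 < t) (y : ℝ) : K n t (t * y) = (t ^ (n + 1))⁻¹ * K n 1 y := by
  unfold K
  have ht0 : (t : ℂ) ≠ 0 := by exact_mod_cast ht.ne'
  have e1 : (t : ℂ) + ((t * y : ℝ) : ℂ) * I = t * (((1:ℝ) : ℂ) + y * I) := by push_cast; ring
  rw [e1, mul_pow]
  have e2 : (1 : ℂ) / ((t : ℂ) ^ (n + 1) * (((1:ℝ) : ℂ) + y * I) ^ (n + 1)) =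
      (((t ^ (n + 1))⁻¹ : ℝ) : ℂ) * (1 / (((1:ℝ) : ℂ) + y * I) ^ (n + 1)) := by
    push_cast
    rw [one_div, one_div, mul_inv]
  rw [e2, Complex.re_ofReal_mul]

/-- `ψ(t) = c t^(-n) ∫ h(t y) K(1, y) dy` -/
lemma theta_hom {t : ℝ} (ht : 0 < t) {n : ℕ} (hn : 1 ≤ n) {α u : ℕ → ℝ} (hα : Summable fun j => |α j|)
    (hu : ∀ j, 0 ≤ u j) :
    ∑' j, α j * u j ^ n * Real.exp (-(u j * t)) =
      2 * n.factorial / Real.pi * ((t ^ n)⁻¹ * ∫ y in Ioi (0 : ℝ), (∑' j, α j * Real.cos (u j * (t * y))) * K n 1 y) := by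
  rw [theta_eq t ht n hn α u hα hu]
  congr 1
  have h1 := integral_comp_mul_left_Ioi (fun x : ℝ => (∑' j, α j * Real.cos (u j * x)) * K n t x) 0 ht
  rw [mul_zero, smul_eq_mul] at h1
  have h2 : ∫ x in Ioi (0 : ℝ), (∑' j, α j * Real.cos (u j * x)) * K n t x =
      t * ∫ y in Ioi (0 : ℝ), (∑' j, α j * Real.cos (u j * (t * y))) * K n t (t * y) := by
    rw [h1, ← mul_assoc, mul_inv_cancel₀ ht.ne', one_mul]
  rw [h2]
  simp_rw [K_hom n ht]
  have h3 : ∀ y : ℝ, (∑' j, α j * Real.cos (u j * (t * y))) * ((t ^ (n + 1))⁻¹ * K n 1 y) =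
      (t ^ (n + 1))⁻¹ * ((∑' j, α j * Real.cos (u j * (t * y))) * K n 1 y) := fun y => by ring
  simp_rw [h3]
  rw [integral_const_mul, ← mul_assoc]
  congr 1
  rw [pow_succ]
  field_simp

lemma K_odd_le (m : ℕ) (x : ℝ) : |K (2 * m + 1) 1 x| ≤ ((1 + x ^ 2) ^ (m + 1))⁻¹ := by
  unfold K
  refine (Complex.abs_re_le_norm _).trans ?_
  have h := norm_sq_lower 1 x
  rw [norm_div, norm_one, norm_pow, one_div, show 2 * m + 1 + 1 = 2 * (m + 1) by ring, pow_mul, h]
  norm_num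

lemma K_one_cont (n : ℕ) : Continuous (K n 1) := by
  unfold K
  apply Complex.continuous_re.comp
  apply Continuous.div continuous_const (by fun_prop)
  intro x
  exact pow_ne_zero _ (ne_zero' 1 one_pos x)

section main

variable {c lam : ℝ} {m : ℕ} {α : ℕ → ℝ}

lemma Th_bd (hα : Summable fun n => |α n|) (x : ℝ) : |Th c lam α x| ≤ ∑' n, |α n| := by
  unfold Th
  rw [← Real.norm_eq_abs]
  refine tsum_of_norm_bounded hα.hasSum fun n => ?_
  rw [Real.norm_eq_abs, abs_mul]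
  exact mul_le_of_le_one_right (abs_nonneg _) (Real.abs_cos_le_one _)

lemma Th_cont (hα : Summable fun n => |α n|) : Continuous (Th c lam α) := by
  unfold Th
  refine continuous_tsum (fun n => by fun_prop) hα fun n x => ?_
  rw [Real.norm_eq_abs, abs_mul]
  exact mul_le_of_le_one_right (abs_nonneg _) (Real.abs_cos_le_one _)

/-- decay of `h` at zero -/
lemma Th_small (hα : Summable fun n => |α n|)
    (hrel : ∀ x : ℝ, 0 < x → Th c lam α x = x ^ (2 * m) * Th c lam α x⁻¹) {x : ℝ} (hx : 0 < x) :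
    |Th c lam α x| ≤ (∑' n, |α n|) * x ^ (2 * m) := by
  rw [hrel x hx, abs_mul, abs_of_pos (pow_pos hx _), mul_comm]
  exact mul_le_mul_of_nonneg_right (Th_bd hα _) (pow_pos hx _).le

lemma psi_eq (hc : 0 < c) (hα : Summable fun n => |α n|) {t : ℝ} (ht : 0 < t) :
    psi c lam (fun n => α n * uu c lam n ^ (2 * m + 1)) t =
      2 * (2 * m + 1).factorial / Real.pi * ((t ^ (2 * m + 1))⁻¹ *
        ∫ y in Ioi (0 : ℝ), Th c lam α (t * y) * K (2 * m + 1) 1 y) := by
  have hun : ∀ n, 0 ≤ uu c lam n := fun n => by unfold uu; positivity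
  have h1 := theta_hom ht (n := 2 * m + 1) (by omega) hα hun
  unfold psi Th
  exact h1

/-- `ψ(t) = O(1/t)` -/
lemma psi_small (hc : 0 < c) (hα : Summable fun n => |α n|)
    (hrel : ∀ x : ℝ, 0 < x → Th c lam α x = x ^ (2 * m) * Th c lam α x⁻¹) :
    ∃ C : ℝ, ∀ t : ℝ, 0 < t → |psi c lam (fun n => α n * uu c lam n ^ (2 * m + 1)) t| ≤ C * t⁻¹ := by
  obtain ⟨S, hS⟩ : ∃ S : ℝ, S = ∑' n, |α n| := ⟨_, rfl⟩
  have hS0 : 0 ≤ S := by rw [hS]; exact tsum_nonneg fun n => abs_nonneg _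
  obtain ⟨c0, hc0⟩ : ∃ c0 : ℝ, c0 = 2 * (2 * m + 1).factorial / Real.pi := ⟨_, rfl⟩
  have hc00 : 0 ≤ c0 := by rw [hc0]; have := Real.pi_pos; positivity
  refine ⟨c0 * (S * ∫ y in Ioi (0:ℝ), (1 + y ^ 2)⁻¹), fun t ht => ?_⟩
  rw [psi_eq hc hα ht, ← hc0, abs_mul, abs_of_nonneg hc00, mul_assoc]
  apply mul_le_mul_of_nonneg_left _ hc00
  rw [abs_mul, abs_of_pos (by positivity)]
  have hI : |∫ y in Ioi (0 : ℝ), Th c lam α (t * y) * K (2 * m + 1) 1 y| ≤
      ∫ y in Ioi (0:ℝ), S * t ^ (2 * m) * (1 + y ^ 2)⁻¹ := by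
    rw [← Real.norm_eq_abs]
    refine norm_integral_le_of_norm_le ((integrable_inv_one_add_sq.integrableOn).const_mul _) ?_
    refine (ae_restrict_mem measurableSet_Ioi).mono fun y hy => ?_
    have hy0 : (0:ℝ) < y := hy
    rw [norm_mul, Real.norm_eq_abs, Real.norm_eq_abs]
    have h1 := Th_small hα hrel (mul_pos ht hy0)
    rw [← hS] at h1
    have h2 := K_odd_le m y
    have h3 : y ^ (2 * m) ≤ (1 + y ^ 2) ^ m := by
      rw [pow_mul]
      exact pow_le_pow_left₀ (by positivity) (by linarith) m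
    calc |Th c lam α (t * y)| * |K (2 * m + 1) 1 y| ≤ (S * (t * y) ^ (2 * m)) * ((1 + y ^ 2) ^ (m + 1))⁻¹ :=
          mul_le_mul h1 h2 (abs_nonneg _) (by positivity)
      _ = S * t ^ (2 * m) * (y ^ (2 * m) * ((1 + y ^ 2) ^ (m + 1))⁻¹) := by rw [mul_pow]; ring
      _ ≤ S * t ^ (2 * m) * ((1 + y ^ 2) ^ m * ((1 + y ^ 2) ^ (m + 1))⁻¹) := by gcongr
      _ = _ := by
          congr 1
          rw [pow_succ]
          field_simp
          ring
  rw [integral_const_mul] at hI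
  calc (t ^ (2 * m + 1))⁻¹ * |∫ y in Ioi (0 : ℝ), Th c lam α (t * y) * K (2 * m + 1) 1 y|
      ≤ (t ^ (2 * m + 1))⁻¹ * (S * t ^ (2 * m) * ∫ y in Ioi (0:ℝ), (1 + y ^ 2)⁻¹) := by gcongr
    _ = _ := by
        rw [pow_succ]
        field_simp

/-- the Mellin integral of `h` -/
lemma conv_h (hα : Summable fun n => |α n|)
    (hrel : ∀ x : ℝ, 0 < x → Th c lam α x = x ^ (2 * m) * Th c lam α x⁻¹) {s : ℂ}
    (h1 : -(2 * m : ℝ) < s.re) (h2 : s.re < 0) : MellinConvergent (fun x => (Th c lam α x : ℂ)) s := by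
  have hc : Continuous fun x => (Th c lam α x : ℂ) := Complex.continuous_ofReal.comp (Th_cont hα)
  refine mellinConvergent_of_isBigO_rpow (a := 0) (b := -(2 * m : ℝ)) (hc.continuousOn.locallyIntegrableOn
    measurableSet_Ioi) ?_ h2 ?_ h1
  · refine IsBigO.of_bound (∑' n, |α n|) (Eventually.of_forall fun x => ?_)
    rw [norm_real, neg_zero, Real.rpow_zero, norm_one, mul_one, Real.norm_eq_abs]
    exact Th_bd hα x
  · refine IsBigO.of_bound (∑' n, |α n|) ?_
    filter_upwards [self_mem_nhdsWithin] with x hx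
    have hx0 : (0:ℝ) < x := hx
    rw [norm_real, neg_neg, Real.norm_of_nonneg (Real.rpow_nonneg hx0.le _), Real.norm_eq_abs]
    have := Th_small hα hrel hx0
    have e : x ^ ((2:ℝ) * m) = x ^ (2 * m) := by
      rw [← Real.rpow_natCast]; push_cast; rfl
    rw [e]
    exact this

lemma K_bigO_top (m : ℕ) : (fun x : ℝ => (K (2 * m + 1) 1 x : ℂ)) =O[atTop] (· ^ (-((2 * m + 2 : ℝ))) : ℝ → ℝ) := by
  refine IsBigO.of_bound 1 ?_
  filter_upwards [eventually_gt_atTop 0] with x hx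
  rw [norm_real, Real.norm_eq_abs, one_mul, Real.norm_of_nonneg (Real.rpow_nonneg hx.le _)]
  refine (K_odd_le m x).trans ?_
  have e : x ^ (-((2 * m + 2 : ℝ))) = ((x ^ 2) ^ (m + 1))⁻¹ := by
    rw [Real.rpow_neg hx.le, ← pow_mul, ← Real.rpow_natCast]
    push_cast
    congr 2
    ring
  rw [e]
  apply inv_anti₀ (by positivity)
  exact pow_le_pow_left₀ (by positivity) (by linarith) _

lemma K_bigO_bot (m : ℕ) : (fun x : ℝ => (K (2 * m + 1) 1 x : ℂ)) =O[𝓝[>] 0] (· ^ (-(0:ℝ)) : ℝ → ℝ) := by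
  refine IsBigO.of_bound 1 (Eventually.of_forall fun x => ?_)
  rw [norm_real, Real.norm_eq_abs, one_mul, neg_zero, Real.rpow_zero, norm_one]
  refine (K_odd_le m x).trans ?_
  apply inv_le_one_of_one_le₀
  apply one_le_pow₀
  nlinarith [sq_nonneg x]

lemma K_liOn (m : ℕ) : LocallyIntegrableOn (fun x : ℝ => (K (2 * m + 1) 1 x : ℂ)) (Ioi 0) :=
  ((Complex.continuous_ofReal.comp (K_one_cont _)).continuousOn).locallyIntegrableOn measurableSet_Ioi

/-- the factor -/
noncomputable def kapM (m : ℕ) (z : ℂ) : ℂ :=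
  ((2 * (2 * m + 1).factorial / Real.pi : ℝ) : ℂ) * mellin (fun x => (K (2 * m + 1) 1 x : ℂ)) (2 * m + 2 - z)

lemma kapM_diff {m : ℕ} {z : ℂ} (h1 : 0 < z.re) (h2 : z.re < 2 * m + 2) : DifferentiableAt ℂ (kapM m) z := by
  unfold kapM
  apply DifferentiableAt.const_mul
  have h3 : DifferentiableAt ℂ (mellin (fun x => (K (2 * m + 1) 1 x : ℂ))) (2 * m + 2 - z) := by
    refine mellin_differentiableAt_of_isBigO_rpow (a := 2 * m + 2) (b := 0) (K_liOn m) (K_bigO_top m) ?_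
      (K_bigO_bot m) ?_
    · simp; linarith
    · simp; linarith
  exact DifferentiableAt.comp (g := mellin (fun x => (K (2 * m + 1) 1 x : ℂ))) (f := fun z : ℂ => 2 * m + 2 - z)
    z h3 (by fun_prop)

lemma mellin_psi (hc : 0 < c) (hα : Summable fun n => |α n|)
    (hrel : ∀ x : ℝ, 0 < x → Th c lam α x = x ^ (2 * m) * Th c lam α x⁻¹) {z : ℂ}
    (h1 : 1 < z.re) (h2 : z.re < 2 * m + 1) :
    mellin (fun t => (psi c lam (fun n => α n * uu c lam n ^ (2 * m + 1)) t : ℂ)) z =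
      kapM m z * mellin (fun x => (Th c lam α x : ℂ)) (z - (2 * m + 1)) := by
  have hhc : Continuous fun x => (Th c lam α x : ℂ) := Complex.continuous_ofReal.comp (Th_cont hα)
  have hkc : Continuous fun x => (K (2 * m + 1) 1 x : ℂ) := Complex.continuous_ofReal.comp (K_one_cont _)
  have hs1 : (z - (2 * m + 1)).re = z.re - (2 * m + 1) := by simp
  have c1 : MellinConvergent (fun x => (Th c lam α x : ℂ)) (z - (2 * m + 1)) :=
    conv_h hα hrel (by rw [hs1]; linarith) (by rw [hs1]; linarith)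
  have c2 : MellinConvergent (fun x => (K (2 * m + 1) 1 x : ℂ)) (1 - (z - (2 * m + 1))) := by
    refine mellinConvergent_of_isBigO_rpow (a := 2 * m + 2) (b := 0) (K_liOn m) (K_bigO_top m) ?_
      (K_bigO_bot m) ?_
    · rw [sub_re, hs1, one_re]; linarith
    · rw [sub_re, hs1, one_re]; linarith
  have h3 := mellin_conv hhc hkc c1 c2
  have e1 : (1 : ℂ) - (z - (2 * m + 1)) = 2 * m + 2 - z := by ring
  rw [e1] at h3
  obtain ⟨c0, hc0⟩ : ∃ c0 : ℝ, c0 = 2 * (2 * m + 1).factorial / Real.pi := ⟨_, rfl⟩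
  have h4 : mellin (fun t => (psi c lam (fun n => α n * uu c lam n ^ (2 * m + 1)) t : ℂ)) z =
      mellin (fun t : ℝ => (t : ℂ) ^ (-(2 * m + 1 : ℂ)) • ((c0 : ℂ) •
        ∫ x in Ioi (0:ℝ), (Th c lam α (t * x) : ℂ) * (K (2 * m + 1) 1 x : ℂ))) z := by
    unfold mellin
    refine setIntegral_congr_fun measurableSet_Ioi fun t ht => ?_
    have ht0 : (0:ℝ) < t := ht
    simp only [smul_eq_mul]
    congr 1
    rw [psi_eq hc hα ht0, ← hc0]
    push_cast
    have e2 : (t : ℂ) ^ (-(2 * m + 1 : ℂ)) = ((t : ℂ) ^ (2 * m + 1))⁻¹ := by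
      rw [cpow_neg]
      congr 1
      rw [← cpow_natCast]
      push_cast
      rfl
    have e3 : ((∫ y in Ioi (0 : ℝ), Th c lam α (t * y) * K (2 * m + 1) 1 y : ℝ) : ℂ) =
        ∫ x in Ioi (0:ℝ), (Th c lam α (t * x) : ℂ) * (K (2 * m + 1) 1 x : ℂ) := by
      rw [← integral_complex_ofReal]
      refine integral_congr_ae (Eventually.of_forall fun x => ?_)
      simp
    rw [e2, e3]
    ring
  rw [h4, mellin_cpow_smul, mellin_const_smul]
  have e4 : z + -(2 * m + 1 : ℂ) = z - (2 * m + 1) := by ring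
  rw [e4, h3, smul_eq_mul]
  unfold kapM
  rw [← hc0]
  ring

/-- **the completed function is a Mellin transform** -/
theorem mel (hc : 0 < c) (hlam : 1 ≤ lam) (hα : Summable fun n => |α n|)
    (hrel : ∀ x : ℝ, 0 < x → Th c lam α x = x ^ (2 * m) * Th c lam α x⁻¹)
    {Λ : ℂ → ℂ} (hΛ : Differentiable ℂ Λ) {R : ℝ}
    (hs : ∀ z : ℂ, R < z.re → HasSum (fun n : ℕ => if n = 0 then 0 else
      ((α n * uu c lam n ^ (2 * m + 1) : ℝ) : ℂ) * ((uu c lam n : ℝ) : ℂ) ^ (-z)) (Λ z * (Gamma z)⁻¹))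
    {z : ℂ} (h1 : 1 < z.re) (h2 : z.re < 2 * m + 1) :
    Λ z = kapM m z * mellin (fun x => (Th c lam α x : ℂ)) (z - (2 * m + 1)) := by
  rw [← mellin_psi hc hα hrel h1 h2]
  have hu0 : uu c lam 0 = 0 := by
    unfold uu
    rw [Nat.cast_zero, Real.zero_rpow (by positivity), mul_zero]
  have hun : ∀ n, 0 ≤ uu c lam n := fun n => by unfold uu; positivity
  obtain ⟨A, hAd⟩ : ∃ A : ℕ → ℝ, A = fun n => α n * uu c lam n ^ (2 * m + 1) := ⟨_, rfl⟩
  have hA0 : A 0 = 0 := by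
    rw [hAd]
    simp only [hu0]
    rw [zero_pow (by omega), mul_zero]
  have hS : Summable (fun n => |A n| * (uu c lam n) ^ (-((2 * m + 2 : ℝ) - 1))) := by
    refine Summable.of_nonneg_of_le (fun n => mul_nonneg (abs_nonneg _) (Real.rpow_nonneg (hun n) _))
      (fun n => ?_) hα
    rcases eq_or_ne n 0 with rfl | hn
    · rw [hA0]; simp
    · have hu := uu_pos (lam := lam) hc hn
      rw [hAd]
      simp only
      rw [abs_mul, abs_of_pos (pow_pos hu _), mul_assoc, ← Real.rpow_natCast, ← Real.rpow_add hu]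
      have : ((2 * m + 1 : ℕ) : ℝ) + -((2 * (m : ℝ) + 2) - 1) = 0 := by push_cast; ring
      rw [this, Real.rpow_zero, mul_one]
  have hκ : (1 : ℝ) < 2 * m + 2 := by have := Nat.cast_nonneg (α := ℝ) m; linarith
  obtain ⟨C, hC⟩ := psi_small hc hα hrel
  rw [← hAd] at hC ⊢
  have hbot : (fun t : ℝ => (psi c lam A t : ℂ)) =O[𝓝[>] 0] (· ^ (-(1 : ℝ)) : ℝ → ℝ) := by
    refine IsBigO.of_bound C ?_
    filter_upwards [self_mem_nhdsWithin] with t ht
    have ht0 : (0 : ℝ) < t := ht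
    rw [norm_real, Real.norm_eq_abs, Real.rpow_neg_one, Real.norm_of_nonneg (by positivity)]
    exact hC t ht0
  have htop : ∀ r : ℝ, (fun t : ℝ => (psi c lam A t : ℂ)) =O[atTop] (· ^ r : ℝ → ℝ) := by
    intro r
    have := isBigO_top hc hlam hκ hA0 hS r
    simpa using this
  have hint : LocallyIntegrableOn (fun t : ℝ => (psi c lam A t : ℂ)) (Ioi 0) := by
    refine ContinuousOn.locallyIntegrableOn ?_ measurableSet_Ioi
    exact Complex.continuous_ofReal.comp_continuousOn (psi_cont hc hlam (by linarith) hA0 hS)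
  obtain ⟨H, hH⟩ : ∃ H : ℂ → ℂ, H = fun z => mellin (fun t : ℝ => (psi c lam A t : ℂ)) z := ⟨_, rfl⟩
  have hHd : ∀ z : ℂ, 1 < z.re → DifferentiableAt ℂ H z := by
    intro z hz
    rw [hH]
    exact mellin_differentiableAt_of_isBigO_rpow (a := z.re + 1) hint (htop _) (by linarith) hbot hz
  have hHs : ∀ z : ℂ, 2 * m + 2 < z.re → HasSum (fun n : ℕ => if n = 0 then 0 else
      ((A n : ℝ) : ℂ) * ((uu c lam n : ℝ) : ℂ) ^ (-z)) (H z * (Gamma z)⁻¹) := by
    intro z hz
    have hm0 := Nat.cast_nonneg (α := ℝ) m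
    have hz0 : 0 < z.re := by linarith
    have h1 : HasSum (fun n : ℕ => Gamma z * (A n : ℂ) / ((uu c lam n : ℝ) : ℂ) ^ z)
        (mellin (fun t : ℝ => (psi c lam A t : ℂ)) z) := by
      refine hasSum_mellin (a := fun n => (A n : ℂ)) (p := fun n => uu c lam n) ?_ hz0 ?_ ?_
      · intro n
        rcases eq_or_ne n 0 with rfl | hn
        · left; simp [hA0]
        · right; exact uu_pos hc hn
      · intro t ht
        have h2 := (Pool.Agent.H144R3.T469F.summable_term hc hlam (by linarith : (0 : ℝ) < (2 * m + 2) - 1) hA0 hS ht).hasSum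
        have h3 := Complex.hasSum_ofReal.2 h2
        have h4 : (fun n : ℕ => (A n : ℂ) * ((Real.exp (-(uu c lam n) * t) : ℝ) : ℂ)) =
            (fun n : ℕ => ((A n * Real.exp (-(uu c lam n * t)) : ℝ) : ℂ)) := by
          funext n
          rw [Complex.ofReal_mul, neg_mul]
        rw [h4]
        exact h3
      · have h5 : ∀ n : ℕ, ‖(A n : ℂ)‖ / (uu c lam n) ^ z.re ≤
            c ^ (-(z.re - ((2 * m + 2 : ℝ) - 1))) * (|A n| * (uu c lam n) ^ (-((2 * m + 2 : ℝ) - 1))) := by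
          intro n
          rcases eq_or_ne n 0 with rfl | hn
          · simp [hA0]
          · have hu := uu_pos (lam := lam) hc hn
            have hcu := le_uu hc hlam hn
            rw [Complex.norm_real, Real.norm_eq_abs, div_eq_mul_inv, ← Real.rpow_neg hu.le]
            have e1 : (uu c lam n) ^ (-z.re) = (uu c lam n) ^ (-(z.re - ((2 * m + 2 : ℝ) - 1))) *
                (uu c lam n) ^ (-((2 * m + 2 : ℝ) - 1)) := by
              rw [← Real.rpow_add hu]; congr 1; ring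
            have e2 : (uu c lam n) ^ (-(z.re - ((2 * m + 2 : ℝ) - 1))) ≤ c ^ (-(z.re - ((2 * m + 2 : ℝ) - 1))) :=
              Real.rpow_le_rpow_of_nonpos hc hcu (by linarith)
            rw [e1]
            have e3 : 0 ≤ (uu c lam n) ^ (-((2 * m + 2 : ℝ) - 1)) := Real.rpow_nonneg hu.le _
            calc |A n| * ((uu c lam n) ^ (-(z.re - ((2 * m + 2 : ℝ) - 1))) * (uu c lam n) ^ (-((2 * m + 2 : ℝ) - 1)))
                = (uu c lam n) ^ (-(z.re - ((2 * m + 2 : ℝ) - 1))) *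
                  (|A n| * (uu c lam n) ^ (-((2 * m + 2 : ℝ) - 1))) := by ring
              _ ≤ _ := mul_le_mul_of_nonneg_right e2 (by positivity)
        refine Summable.of_nonneg_of_le (fun n => ?_) h5 (hS.mul_left _)
        exact div_nonneg (norm_nonneg _) (Real.rpow_nonneg (hun n) _)
    have hG : Gamma z ≠ 0 := Gamma_ne_zero_of_re_pos hz0
    have h2 := h1.mul_right (Gamma z)⁻¹
    rw [hH]
    refine h2.congr_fun fun n => ?_
    rcases eq_or_ne n 0 with rfl | hn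
    · rw [if_pos rfl, hA0]; simp
    · rw [if_neg hn, cpow_neg]
      field_simp
  obtain ⟨T, hT⟩ : ∃ T : ℝ, T = max R (2 * m + 2) := ⟨_, rfl⟩
  have hEq : ∀ z : ℂ, T < z.re → Λ z = H z := by
    intro z hz
    rw [hT] at hz
    have h1 : R < z.re := (le_max_left _ _).trans_lt hz
    have h2 : 2 * m + 2 < z.re := (le_max_right _ _).trans_lt hz
    have hm0 := Nat.cast_nonneg (α := ℝ) m
    have h3 := hs z h1
    have h4 := hHs z h2
    rw [hAd] at h4
    have h5 := h3.unique h4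
    have hG : (Gamma z)⁻¹ ≠ 0 := inv_ne_zero (Gamma_ne_zero_of_re_pos (by linarith))
    exact mul_right_cancel₀ hG h5
  have hU : IsPreconnected {z : ℂ | 1 < z.re} := (convex_halfSpace_re_gt 1).isPreconnected
  have ho : IsOpen {z : ℂ | 1 < z.re} := isOpen_lt continuous_const Complex.continuous_re
  have a1 : AnalyticOnNhd ℂ Λ {z : ℂ | 1 < z.re} := fun z _ => hΛ.analyticAt z
  have a2 : AnalyticOnNhd ℂ H {z : ℂ | 1 < z.re} :=
    (DifferentiableOn.analyticOnNhd (fun z hz => (hHd z hz).differentiableWithinAt) ho)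
  have hT0 : 1 < T + 1 := by
    have : (2 * m + 2 : ℝ) ≤ T := by rw [hT]; exact le_max_right _ _
    have hm0 := Nat.cast_nonneg (α := ℝ) m
    linarith
  have h3 : Λ =ᶠ[𝓝 ((T + 1 : ℝ) : ℂ)] H := by
    have ho2 : IsOpen {z : ℂ | T < z.re} := isOpen_lt continuous_const Complex.continuous_re
    have hm2 : ((T + 1 : ℝ) : ℂ) ∈ {z : ℂ | T < z.re} := by
      change T < ((T + 1 : ℝ) : ℂ).re
      rw [ofReal_re]
      linarith
    filter_upwards [ho2.mem_nhds hm2] with z hz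
    exact hEq z hz
  have h4 := a1.eqOn_of_preconnected_of_eventuallyEq a2 hU (z₀ := ((T + 1 : ℝ) : ℂ)) (by
    change (1 : ℝ) < ((T + 1 : ℝ) : ℂ).re
    rw [ofReal_re]
    exact hT0) h3
  have h5 := h4 h1
  rw [h5, hH]

end main

end Pool.Agent.Q286.AP
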