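import Mathlib

set_option autoImplicit false

/-!
# Reproduction of exponential polynomials on an arithmetic progression from `D` consecutive values
-/

open Finset Polynomial

namespace Pool.Agent.Q286.AP

/-- remainders of `X ^ q` modulo `X ^ D + ∑ c_n X^n` -/
noncomputable def rem (c : ℕ → ℝ) (D : ℕ) : ℕ → ℕ → ℝ
  | 0, n => if n = 0 then 1 else 0
  | q + 1, n => (if n = 0 then 0 else rem c D q (n - 1)) - c n * rem c D q (D - 1)

/-- the reproduction formula -/
theorem rem_rep {c : ℕ → ℝ} {D : ℕ} (hD : 1 ≤ D) {P : ℝ} {v : ℝ → ℂ}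
    (hv : ∀ t : ℝ, v (t + D * P) + ∑ n ∈ range D, (c n : ℂ) * v (t + n * P) = 0) (q : ℕ) (t : ℝ) :
    ∑ n ∈ range D, (rem c D q n : ℂ) * v (t + n * P) = v (t + q * P) := by
  obtain ⟨D', rfl⟩ : ∃ D', D = D' + 1 := ⟨D - 1, by omega⟩
  induction q generalizing t with
  | zero =>
    rw [sum_eq_single 0]
    · simp [rem]
    · intro n _ hn
      simp [rem, hn]
    · intro h
      exact absurd (mem_range.2 (by omega)) h
  | succ q ih =>
    have h1 := ih (t + P)
    have e1 : t + P + q * P = t + ((q + 1 : ℕ) : ℝ) * P := by push_cast; ring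
    rw [e1] at h1
    rw [← h1, sum_range_succ' _ D', sum_range_succ (fun n : ℕ => (rem c (D' + 1) q n : ℂ) * v (t + P + n * P)) D']
    have h2 := hv t
    have e2 : v (t + P + (D' : ℕ) * P) = v (t + ((D' + 1 : ℕ) : ℝ) * P) := by congr 1; push_cast; ring
    rw [e2]
    have h3 : v (t + ((D' + 1 : ℕ) : ℝ) * P) = - ∑ n ∈ range (D' + 1), (c n : ℂ) * v (t + n * P) := by
      linear_combination h2
    rw [h3, sum_range_succ' (fun n : ℕ => (c n : ℂ) * v (t + n * P)) D']
    have e3 : ∀ n : ℕ, (rem c (D' + 1) (q + 1) (n + 1) : ℂ) * v (t + ((n + 1 : ℕ) : ℝ) * P) =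
        (rem c (D' + 1) q n : ℂ) * v (t + P + n * P) -
        (rem c (D' + 1) q D' : ℂ) * ((c (n + 1) : ℂ) * v (t + ((n + 1 : ℕ) : ℝ) * P)) := by
      intro n
      have e4 : v (t + P + n * P) = v (t + ((n + 1 : ℕ) : ℝ) * P) := by congr 1; push_cast; ring
      rw [e4]
      simp only [rem, Nat.add_sub_cancel, if_neg (Nat.succ_ne_zero n)]
      push_cast
      ring
    simp_rw [e3]
    rw [sum_sub_distrib, ← mul_sum]
    simp only [rem, Nat.add_sub_cancel, if_true]
    push_cast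
    ring

/-- size of the remainders -/
theorem rem_bound {c : ℕ → ℝ} {D : ℕ} (hD : 1 ≤ D) {ρ T : ℝ} (hρ : 1 ≤ ρ) (hT : 0 ≤ T)
    (hc : ∀ n : ℕ, n < D → |c n| * ρ ^ n ≤ T * ρ ^ D) (q n : ℕ) (hn : n < D) :
    |rem c D q n| ≤ ((1 + T) * ρ) ^ q := by
  have hρ0 : 0 < ρ := by linarith
  have key : ∀ q n : ℕ, n < D → |rem c D q n| * ρ ^ n ≤ ((1 + T) * ρ) ^ q := by
    intro q
    induction q with
    | zero =>
      intro n _
      by_cases h0 : n = 0
      · subst h0; simp [rem]
      · simp [rem, h0]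
    | succ q ih =>
      intro n hn
      have h1 := ih (D - 1) (by omega)
      have h2 : |c n * rem c D q (D - 1)| * ρ ^ n ≤ T * ρ * ((1 + T) * ρ) ^ q := by
        have e : ρ ^ D = ρ ^ (D - 1) * ρ := by
          rw [← pow_succ]; congr 1; omega
        rw [abs_mul]
        calc |c n| * |rem c D q (D - 1)| * ρ ^ n = (|c n| * ρ ^ n) * |rem c D q (D - 1)| := by ring
          _ ≤ (T * ρ ^ D) * |rem c D q (D - 1)| := mul_le_mul_of_nonneg_right (hc n hn) (abs_nonneg _)
          _ = T * ρ * (|rem c D q (D - 1)| * ρ ^ (D - 1)) := by rw [e]; ring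
          _ ≤ _ := mul_le_mul_of_nonneg_left h1 (by positivity)
      have h3 : |(if n = 0 then 0 else rem c D q (n - 1))| * ρ ^ n ≤ ρ * ((1 + T) * ρ) ^ q := by
        by_cases h0 : n = 0
        · rw [if_pos h0, abs_zero, zero_mul]; positivity
        · rw [if_neg h0]
          have h4 := ih (n - 1) (by omega)
          have e : ρ ^ n = ρ ^ (n - 1) * ρ := by
            rw [← pow_succ]; congr 1; omega
          rw [e]
          calc |rem c D q (n - 1)| * (ρ ^ (n - 1) * ρ) = ρ * (|rem c D q (n - 1)| * ρ ^ (n - 1)) := by ring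
            _ ≤ _ := mul_le_mul_of_nonneg_left h4 hρ0.le
      have h5 : |rem c D (q + 1) n| ≤ |(if n = 0 then 0 else rem c D q (n - 1))| + |c n * rem c D q (D - 1)| := by
        simp only [rem]
        exact abs_sub _ _
      calc |rem c D (q + 1) n| * ρ ^ n ≤
            (|(if n = 0 then 0 else rem c D q (n - 1))| + |c n * rem c D q (D - 1)|) * ρ ^ n :=
            mul_le_mul_of_nonneg_right h5 (by positivity)
        _ = |(if n = 0 then 0 else rem c D q (n - 1))| * ρ ^ n + |c n * rem c D q (D - 1)| * ρ ^ n := by ring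
        _ ≤ ρ * ((1 + T) * ρ) ^ q + T * ρ * ((1 + T) * ρ) ^ q := add_le_add h3 h2
        _ = _ := by ring
  have h1 := key q n hn
  have h2 : |rem c D q n| * 1 ≤ |rem c D q n| * ρ ^ n :=
    mul_le_mul_of_nonneg_left (one_le_pow₀ hρ) (abs_nonneg _)
  linarith

/-- the shift operator -/
noncomputable def sh (P : ℝ) : Module.End ℂ (ℝ → ℂ) where
  toFun v t := v (t + P)
  map_add' _ _ := rfl
  map_smul' _ _ := rfl

lemma sh_pow (P : ℝ) (n : ℕ) (v : ℝ → ℂ) (t : ℝ) : ((sh P) ^ n) v t = v (t + n * P) := by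
  induction n generalizing t with
  | zero => simp
  | succ n ih =>
    rw [pow_succ', Module.End.mul_apply]
    change ((sh P) ^ n) v (t + P) = _
    rw [ih]
    congr 1
    push_cast
    ring

/-- exponential monomials -/
noncomputable def em (i : ℕ) (z : ℂ) (t : ℝ) : ℂ := (t : ℂ) ^ i * Complex.exp (z * t)

lemma sh_em (P : ℝ) (i : ℕ) (z : ℂ) : (sh P - algebraMap ℂ (Module.End ℂ (ℝ → ℂ)) (Complex.exp (z * P))) (em i z) =
    ∑ l ∈ range i, (Complex.exp (z * P) * (i.choose l) * (P : ℂ) ^ (i - l)) • em l z := by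
  funext t
  rw [LinearMap.sub_apply, Pi.sub_apply, Module.algebraMap_end_apply, Finset.sum_apply]
  change em i z (t + P) - (Complex.exp (z * P) • em i z) t = _
  simp only [Pi.smul_apply, smul_eq_mul]
  unfold em
  have e1 : Complex.exp (z * ((t + P : ℝ) : ℂ)) = Complex.exp (z * P) * Complex.exp (z * t) := by
    rw [← Complex.exp_add]
    congr 1
    push_cast
    ring
  rw [e1]
  push_cast
  rw [add_pow, sum_range_succ]
  simp only [Nat.sub_self, pow_zero, Nat.choose_self, Nat.cast_one, mul_one]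
  rw [add_mul, sum_mul]
  have e2 : ∀ l ∈ range i, (t:ℂ) ^ l * (P:ℂ) ^ (i - l) * (i.choose l) * (Complex.exp (z * P) * Complex.exp (z * t)) =
      Complex.exp (z * P) * (i.choose l) * (P : ℂ) ^ (i - l) * ((t:ℂ) ^ l * Complex.exp (z * t)) := by
    intro l _; ring
  rw [sum_congr rfl e2]
  ring

lemma sh_kill (P : ℝ) (z : ℂ) (k : ℕ) : ∀ i < k,
    ((sh P - algebraMap ℂ (Module.End ℂ (ℝ → ℂ)) (Complex.exp (z * P))) ^ k) (em i z) = 0 := by
  induction k with
  | zero => intro i hi; omega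
  | succ k ih =>
    intro i hi
    rw [pow_succ, Module.End.mul_apply, sh_em, map_sum]
    apply sum_eq_zero
    intro l hl
    rw [map_smul, ih l (by rw [mem_range] at hl; omega), smul_zero]

/-- a multiple root kills exponential monomials -/
theorem aeval_em {p : ℂ[X]} {P : ℝ} {z : ℂ} {k : ℕ} (h : (X - C (Complex.exp (z * P))) ^ k ∣ p) {i : ℕ} (hi : i < k) :
    (aeval (sh P) p) (em i z) = 0 := by
  obtain ⟨g, rfl⟩ := h
  rw [mul_comm, map_mul, Module.End.mul_apply, map_pow, map_sub, aeval_X, aeval_C, sh_kill P z k i hi, map_zero]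

/-- a real quadratic factor -/
noncomputable def qf (r : ℂ) : ℝ[X] := X ^ 2 - C (2 * r.re) * X + C (Complex.normSq r)

lemma qf_map (r : ℂ) : (qf r).map (algebraMap ℝ ℂ) = (X - C r) * (X - C ((starRingEnd ℂ) r)) := by
  unfold qf
  simp only [Polynomial.map_add, Polynomial.map_sub, Polynomial.map_mul, Polynomial.map_pow, map_X, map_C]
  have e1 : (algebraMap ℝ ℂ) (2 * r.re) = r + (starRingEnd ℂ) r := by
    rw [Complex.add_conj]; simp
  have e2 : (algebraMap ℝ ℂ) (Complex.normSq r) = r * (starRingEnd ℂ) r := by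
    rw [Complex.mul_conj]; simp
  rw [e1, e2, C_add, C_mul]
  ring

/-- **the reproduction data** of a finite family of points (with multiplicities) -/
theorem exists_rep (N : ℕ) (hN : 1 ≤ N) {ρ P : ℝ} (hP : 0 ≤ P) (hρ : 1 ≤ ρ) (ζ : Fin N → ℂ)
    (hζ : ∀ j, Real.exp (|(ζ j).re| * P) ≤ ρ) : ∃ ℓ : ℕ → ℕ → ℝ,
    (∀ n q : ℕ, n < 4 * N → |ℓ n q| ≤ ((1 + 2 ^ (4 * N)) * ρ) ^ q) ∧
    ∀ (j : Fin N) (i : ℕ), i < Fintype.card {l : Fin N // ζ l = ζ j} → ∀ z : ℂ,
      (Complex.exp (z * P) = Complex.exp (ζ j * P) ∨ Complex.exp (z * P) = Complex.exp (-(ζ j * P))) →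
      ∀ (q : ℕ) (t : ℝ), ∑ n ∈ range (4 * N), (ℓ n q : ℂ) * em i z (t + n * P) = em i z (t + q * P) := by
  classical
  set χ : ℝ[X] := ∏ j : Fin N, qf (Complex.exp (ζ j * P)) * qf (Complex.exp (-(ζ j * P))) with hχ
  have hχc : χ.map (algebraMap ℝ ℂ) = ∏ j : Fin N, ((X - C (Complex.exp (ζ j * P))) * (X - C ((starRingEnd ℂ) (Complex.exp (ζ j * P))))) *
      ((X - C (Complex.exp (-(ζ j * P)))) * (X - C ((starRingEnd ℂ) (Complex.exp (-(ζ j * P)))))) := by
    rw [hχ, Polynomial.map_prod]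
    apply prod_congr rfl
    intro j _
    rw [Polynomial.map_mul, qf_map, qf_map]
  have hmon : (χ.map (algebraMap ℝ ℂ)).Monic := by
    rw [hχc]
    apply monic_prod_of_monic
    intro j _
    exact ((monic_X_sub_C _).mul (monic_X_sub_C _)).mul ((monic_X_sub_C _).mul (monic_X_sub_C _))
  have hmonR : χ.Monic := by
    rw [← Polynomial.monic_map_iff (f := algebraMap ℝ ℂ)] 
    exact hmon
  have hdeg : (χ.map (algebraMap ℝ ℂ)).natDegree = 4 * N := by
    rw [hχc, natDegree_prod_of_monic]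
    · have : ∀ j : Fin N, (((X - C (Complex.exp (ζ j * P))) * (X - C ((starRingEnd ℂ) (Complex.exp (ζ j * P))))) *
          ((X - C (Complex.exp (-(ζ j * P)))) * (X - C ((starRingEnd ℂ) (Complex.exp (-(ζ j * P))))))).natDegree = 4 := by
        intro j
        rw [Monic.natDegree_mul ((monic_X_sub_C _).mul (monic_X_sub_C _)) ((monic_X_sub_C _).mul (monic_X_sub_C _)),
          Monic.natDegree_mul (monic_X_sub_C _) (monic_X_sub_C _), Monic.natDegree_mul (monic_X_sub_C _) (monic_X_sub_C _)]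
        simp only [natDegree_X_sub_C]
      simp_rw [this]
      simp
      ring
    · intro j _
      exact ((monic_X_sub_C _).mul (monic_X_sub_C _)).mul ((monic_X_sub_C _).mul (monic_X_sub_C _))
  have hdegR : χ.natDegree = 4 * N := by
    rw [← hdeg, natDegree_map]
  -- roots
  have hroots : ∀ w ∈ (χ.map (algebraMap ℝ ℂ)).roots, ‖w‖ ≤ ρ := by
    intro w hw
    have h1 : IsRoot (χ.map (algebraMap ℝ ℂ)) w := isRoot_of_mem_roots hw
    rw [hχc] at h1
    unfold IsRoot at h1
    rw [eval_prod, prod_eq_zero_iff] at h1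
    obtain ⟨j, -, hj⟩ := h1
    simp only [eval_mul, eval_sub, eval_X, eval_C, mul_eq_zero, sub_eq_zero] at hj
    have e : (ζ j * P).re = (ζ j).re * P := by simp
    have a1 : ‖Complex.exp (ζ j * P)‖ ≤ ρ := by
      rw [Complex.norm_exp]
      refine le_trans (Real.exp_le_exp.2 ?_) (hζ j)
      rw [e]
      exact mul_le_mul_of_nonneg_right (le_abs_self _) hP
    have a2 : ‖Complex.exp (-(ζ j * P))‖ ≤ ρ := by
      rw [Complex.norm_exp]
      refine le_trans (Real.exp_le_exp.2 ?_) (hζ j)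
      rw [Complex.neg_re, e, ← neg_mul]
      exact mul_le_mul_of_nonneg_right (neg_le_abs _) hP
    have a3 : ‖(starRingEnd ℂ) (Complex.exp (ζ j * P))‖ ≤ ρ := by rw [Complex.norm_conj]; exact a1
    have a4 : ‖(starRingEnd ℂ) (Complex.exp (-(ζ j * P)))‖ ≤ ρ := by rw [Complex.norm_conj]; exact a2
    rcases hj with (hj | hj) | (hj | hj) <;> rw [hj] <;> assumption
  -- coefficients
  have hcoef : ∀ n : ℕ, n < 4 * N → |χ.coeff n| * ρ ^ n ≤ 2 ^ (4 * N) * ρ ^ (4 * N) := by
    intro n hn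
    have h1 := coeff_le_of_roots_le (f := algebraMap ℝ ℂ) n hmonR (IsAlgClosed.splits _) hroots
    rw [coeff_map, hdegR] at h1
    have h2 : ‖(algebraMap ℝ ℂ) (χ.coeff n)‖ = |χ.coeff n| := by simp
    rw [h2] at h1
    have h3 : (((4 * N).choose n : ℕ) : ℝ) ≤ 2 ^ (4 * N) := by
      exact_mod_cast Nat.choose_le_two_pow (4 * N) n
    calc |χ.coeff n| * ρ ^ n ≤ (ρ ^ (4 * N - n) * ((4 * N).choose n : ℕ)) * ρ ^ n :=
          mul_le_mul_of_nonneg_right h1 (by positivity)
      _ = ((4 * N).choose n : ℕ) * (ρ ^ (4 * N - n) * ρ ^ n) := by ring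
      _ = ((4 * N).choose n : ℕ) * ρ ^ (4 * N) := by rw [← pow_add]; congr 2; omega
      _ ≤ _ := mul_le_mul_of_nonneg_right h3 (by positivity)
  refine ⟨fun n q => rem (fun n => χ.coeff n) (4 * N) q n,
    fun n q hn => rem_bound (by omega) hρ (by positivity) hcoef q n hn, ?_⟩
  intro j i hi z hz q t
  apply rem_rep (by omega)
  intro t
  -- the divisibility
  set k := Fintype.card {l : Fin N // ζ l = ζ j} with hk
  have hdvd : (X - C (Complex.exp (z * P))) ^ k ∣ χ.map (algebraMap ℝ ℂ) := by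
    have h1 : (X - C (Complex.exp (z * P))) ^ k = ∏ l ∈ univ.filter (fun l => ζ l = ζ j), (X - C (Complex.exp (z * P))) := by
      rw [prod_const, hk, Fintype.card_subtype]
    rw [h1, hχc]
    refine (prod_dvd_prod_of_dvd _ _ (fun l hl => ?_)).trans (prod_dvd_prod_of_subset _ _ _ (filter_subset _ _))
    rw [mem_filter] at hl
    rw [hl.2]
    rcases hz with hz | hz
    · rw [hz]
      exact (Dvd.intro _ rfl).mul_right _
    · rw [hz]
      exact (Dvd.intro _ rfl).mul_left _
  have h2 := congrFun (aeval_em hdvd hi) t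
  rw [aeval_eq_sum_range' (n := 4 * N + 1) (by rw [hdeg]; omega), LinearMap.sum_apply, Finset.sum_apply,
    sum_range_succ] at h2
  simp only [LinearMap.smul_apply, Pi.smul_apply, sh_pow, smul_eq_mul, Pi.zero_apply, coeff_map] at h2
  have h3 : χ.coeff (4 * N) = 1 := by
    rw [← hdegR]; exact hmonR.coeff_natDegree
  rw [h3, map_one, one_mul] at h2
  rw [add_comm]
  exact h2

end Pool.Agent.Q286.AP
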