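import Mathlib
import Pool.Agent.Q286.AP.Core

set_option autoImplicit false

/-!
# The vanishing integral
-/

open Finset MeasureTheory Filter Topology

namespace Pool.Agent.Q286.AP

lemma int_exp_abs {b : ℝ} (hb : 0 < b) : Integrable fun t : ℝ => Real.exp (-(b * |t|)) := by
  have h1 : Integrable fun t : ℝ => (1 + 2 / b ^ 2) * (1 + t ^ 2)⁻¹ := integrable_inv_one_add_sq.const_mul _
  refine h1.mono' (by fun_prop) (Filter.Eventually.of_forall fun t => ?_)
  rw [Real.norm_eq_abs, abs_of_pos (Real.exp_pos _), ← div_eq_mul_inv, le_div_iff₀ (by positivity), Real.exp_neg]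
  have hx : 0 ≤ b * |t| := by positivity
  have h2 := Real.quadratic_le_exp_of_nonneg hx
  have h3 : 0 < Real.exp (b * |t|) := Real.exp_pos _
  rw [inv_mul_le_iff₀ h3]
  have h4 : (b * |t|) ^ 2 = b ^ 2 * t ^ 2 := by rw [mul_pow, sq_abs]
  have h5 : t ^ 2 ≤ 2 / b ^ 2 * Real.exp (b * |t|) := by
    rw [div_mul_eq_mul_div, le_div_iff₀ (by positivity)]
    nlinarith
  have h6 : 1 ≤ Real.exp (b * |t|) := Real.one_le_exp hx
  nlinarith

/-- partition of unity -/
lemma hasSum_th {x : ℝ} (hx : 0 ≤ x) : HasSum (fun j : ℕ => th (x - j)) 1 := by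
  set n := ⌊x⌋₊ with hn
  have h1 : (n : ℝ) ≤ x := Nat.floor_le hx
  have h2 : x < n + 1 := Nat.lt_floor_add_one x
  have h3 := hasSum_sum_of_ne_finset_zero (L := SummationFilter.unconditional ℕ)
    (f := fun j : ℕ => th (x - j)) (s := {n, n + 1}) (fun j hj => by
      simp only [mem_insert, mem_singleton, not_or] at hj
      apply th_zero
      rcases lt_or_gt_of_ne hj.1 with h | h
      · have : (j : ℝ) + 1 ≤ n := by exact_mod_cast h
        rw [le_abs]; left; linarith
      · have h4 : n + 2 ≤ j := by omega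
        have : (n : ℝ) + 2 ≤ j := by exact_mod_cast h4
        rw [le_abs]; right; linarith)
  rw [sum_pair (by omega)] at h3
  have h4 := th_add (t := x - n) (by linarith) (by linarith)
  push_cast at h3
  have e : x - ((n : ℝ) + 1) = x - n - 1 := by ring
  rw [e, h4] at h3
  exact h3

lemma th_nn (t : ℝ) : 0 ≤ th t := mul_nonneg (Real.smoothTransition.nonneg _) (Real.smoothTransition.nonneg _)

theorem vanInt {P : ℝ} {q₁ D m : ℕ} {ℓ : ℕ → ℕ → ℝ} {B0 B1 : ℕ × Fin D → ℝ} (hP : 0 < P)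
    (hDP : D * P ≤ Real.log (4 / 3)) (hqP : q₁ * P ≤ Real.log (4 / 3))
    (hF : FamH (kd P q₁ D m ℓ) (kd' P q₁ D m ℓ) (fun _ => true) (sp P q₁ D) B0 B1)
    {h : ℝ → ℝ} (hc : Continuous h) {S : ℝ} (hS : ∀ x, |h x| ≤ S)
    (hrel : ∀ x : ℝ, 0 < x → h x = x ^ (2 * m) * h x⁻¹)
    (hz : ∀ x : ℝ, 4 / 3 ≤ x → x ≤ 2 → h x = 0)
    (hi : ∀ x : ℝ, 3 / 4 < x → x < 4 / 3 → h x = LL P q₁ D m ℓ h x)
    {v : ℝ → ℂ} (hv : Continuous v) {C ξ : ℝ} (hξ : ξ < m) (hvb : ∀ t, ‖v t‖ ≤ C * Real.exp (ξ * |t|))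
    (hr1 : ∀ (q : ℕ) (t : ℝ), q₁ ≤ q → ∑ n ∈ range D, (ℓ n q : ℂ) * v (t + n * P) = v (t + q * P))
    (hr2 : ∀ (q : ℕ) (t : ℝ), q₁ ≤ q → ∑ n ∈ range D, (ℓ n q : ℂ) * v (-(t + n * P)) = v (-(t + q * P))) :
    ∫ t : ℝ, ((h (Real.exp t) * Real.exp (-(m * t)) : ℝ) : ℂ) * v t = 0 := by
  have hS0 : 0 ≤ S := (abs_nonneg _).trans (hS 0)
  have hC0 : 0 ≤ C := by
    have h1 := hvb 0
    simp only [abs_zero, mul_zero, Real.exp_zero, mul_one] at h1
    exact (norm_nonneg _).trans h1
  obtain ⟨a, ha⟩ : ∃ a : ℝ, a = Real.log (4 / 3) := ⟨_, rfl⟩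
  have ha0 : 0 < a := by rw [ha]; exact Real.log_pos (by norm_num)
  have hea : Real.exp a = 4 / 3 := by rw [ha, Real.exp_log (by norm_num)]
  rw [← ha] at hDP hqP
  -- the even function `w`
  obtain ⟨w, hwd⟩ : ∃ w : ℝ → ℝ, w = fun t => h (Real.exp t) * Real.exp (-(m * t)) := ⟨_, rfl⟩
  have hwc : Continuous w := by rw [hwd]; fun_prop
  have hwe : ∀ t, w (-t) = w t := by
    intro t
    rw [hwd]
    simp only
    have h1 := hrel (Real.exp t) (Real.exp_pos t)
    rw [← Real.exp_neg] at h1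
    rw [h1]
    have h2 : Real.exp t ^ (2 * m) = Real.exp (m * t) * Real.exp (m * t) := by
      rw [← Real.exp_nat_mul, ← Real.exp_add]; congr 1; push_cast; ring
    have h3 : Real.exp (-((m:ℝ) * -t)) = Real.exp (m * t) := by congr 1; ring
    have h4 : Real.exp ((m:ℝ) * t) * Real.exp (-(m * t)) = 1 := by rw [← Real.exp_add]; simp
    rw [h2, h3]
    linear_combination -(Real.exp (m * t) * h (Real.exp (-t))) * h4
  have hwb : ∀ t, |w t| ≤ S * Real.exp (-(m * |t|)) := by
    have key : ∀ t, 0 ≤ t → |w t| ≤ S * Real.exp (-(m * |t|)) := by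
      intro t ht
      rw [hwd]
      simp only
      rw [abs_mul, abs_of_pos (Real.exp_pos _), abs_of_nonneg ht]
      exact mul_le_mul_of_nonneg_right (hS _) (Real.exp_pos _).le
    intro t
    rcases le_total 0 t with ht | ht
    · exact key t ht
    · have := key (-t) (by linarith)
      rwa [hwe, abs_neg] at this
  -- the outer part
  obtain ⟨wp, hwpd⟩ : ∃ wp : ℝ → ℝ, wp = fun t => et (Real.exp t) * w t := ⟨_, rfl⟩
  have hetc := et_cont
  have hthc := th_cont
  have hwpc : Continuous wp := by rw [hwpd]; fun_prop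
  have hwpb : ∀ t, |wp t| ≤ S * Real.exp (-(m * |t|)) := by
    intro t
    rw [hwpd]
    simp only
    rw [abs_mul]
    calc |et (Real.exp t)| * |w t| ≤ 1 * |w t| := mul_le_mul_of_nonneg_right (et_abs _) (abs_nonneg _)
      _ ≤ _ := by rw [one_mul]; exact hwb t
  have hwpz : ∀ t, t ≤ a → wp t = 0 := by
    intro t ht
    rw [hwpd]
    simp only
    rw [et_zero (by rw [← hea]; exact Real.exp_le_exp.2 ht), zero_mul]
  -- the inner part
  obtain ⟨Bf, hBf⟩ : ∃ Bf : ℝ → ℝ, Bf = fun t => Real.exp (-(m * t)) * Ao P q₁ D m ℓ h (Real.exp t) := ⟨_, rfl⟩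
  have hAoc : Continuous (Ao P q₁ D m ℓ h) := hF.dual.cont hc hS
  have hBfc : Continuous Bf := by rw [hBf]; fun_prop
  have hBfz : ∀ t, a ≤ |t| → Bf t = 0 := by
    intro t ht
    rw [hBf]
    simp only
    unfold Ao fam
    have : ∀ i : ℕ × Fin D, kd P q₁ D m ℓ i (Real.exp t) * h (ar true (sp P q₁ D i) (Real.exp t)) = 0 := by
      intro i
      unfold kd lg
      rw [if_pos (Real.exp_pos t), Real.log_exp, GG_zero _ (far i.2.2 hP (by rw [← ha]; exact hDP) (by rw [← ha]; exact ht))]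
      ring
    simp_rw [this]
    rw [tsum_zero, mul_zero]
  -- the decomposition
  have hdec : ∀ t, w t = (wp t - Bf t) + (wp (-t) - Bf (-t)) := by
    have out : ∀ t, a ≤ t → w t = (wp t - Bf t) + (wp (-t) - Bf (-t)) := by
      intro t ht
      have ht0 : 0 ≤ t := by linarith
      rw [hBfz t (by rw [abs_of_nonneg ht0]; exact ht), hBfz (-t) (by rw [abs_neg, abs_of_nonneg ht0]; exact ht),
        hwpz (-t) (by linarith)]
      have he : 4 / 3 ≤ Real.exp t := by rw [← hea]; exact Real.exp_le_exp.2 ht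
      rcases le_or_gt (Real.exp t) 2 with h2 | h2
      · have : w t = 0 := by
          rw [hwd]
          simp only
          rw [hz _ he h2, zero_mul]
        rw [hwpd]
        simp only
        rw [this]
        ring
      · rw [hwpd]
        simp only
        rw [et_one h2.le]
        ring
    intro t
    rcases le_or_gt a t with h1 | h1
    · exact out t h1
    rcases le_or_gt a (-t) with h2 | h2
    · have h3 := out (-t) h2
      rw [neg_neg, hwe] at h3
      rw [h3]
      ring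
    · have e1 : Real.exp t < 4 / 3 := by rw [← hea]; exact Real.exp_lt_exp.2 h1
      have e2 : 3 / 4 < Real.exp t := by
        have h3 : Real.exp (-t) < 4 / 3 := by rw [← hea]; exact Real.exp_lt_exp.2 h2
        rw [Real.exp_neg, inv_lt_comm₀ (Real.exp_pos _) (by norm_num)] at h3
        linarith [show ((4:ℝ)/3)⁻¹ = 3/4 by norm_num]
      rw [hwpz t h1.le, hwpz (-t) h2.le, hwd, hBf]
      simp only
      rw [hi _ e2 e1, LL_eq _ (Real.exp_pos t), ← Real.exp_neg]
      have h2 : Real.exp t ^ (2 * m) = Real.exp (m * t) * Real.exp (m * t) := by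
        rw [← Real.exp_nat_mul, ← Real.exp_add]; congr 1; push_cast; ring
      have h3 : Real.exp (-((m:ℝ) * -t)) = Real.exp (m * t) := by congr 1; ring
      have h4 : Real.exp ((m:ℝ) * t) * Real.exp (-(m * t)) = 1 := by rw [← Real.exp_add]; simp
      rw [h2, h3]
      linear_combination -(Real.exp (m * t) * Ao P q₁ D m ℓ h (Real.exp (-t))) * h4
  -- the even function `u`
  obtain ⟨u, hud⟩ : ∃ u : ℝ → ℂ, u = fun t => v t + v (-t) := ⟨_, rfl⟩
  have huc : Continuous u := by rw [hud]; fun_prop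
  have hub : ∀ t, ‖u t‖ ≤ 2 * C * Real.exp (ξ * |t|) := by
    intro t
    rw [hud]
    simp only
    have h1 := hvb t
    have h2 := hvb (-t)
    rw [abs_neg] at h2
    refine (norm_add_le _ _).trans ?_
    linarith
  have hmξ : 0 < (m : ℝ) - ξ := by linarith
  have hprod : ∀ {f : ℝ → ℝ} {g : ℝ → ℂ} {A B : ℝ}, 0 ≤ A → 0 ≤ B → (∀ t, |f t| ≤ A * Real.exp (-(m * |t|))) →
      (∀ t, ‖g t‖ ≤ B * Real.exp (ξ * |t|)) → ∀ t, ‖((f t : ℝ) : ℂ) * g t‖ ≤ A * B * Real.exp (-((m - ξ) * |t|)) := by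
    intro f g A B hA hB hf hg t
    rw [norm_mul, Complex.norm_real, Real.norm_eq_abs]
    calc |f t| * ‖g t‖ ≤ (A * Real.exp (-(m * |t|))) * (B * Real.exp (ξ * |t|)) :=
          mul_le_mul (hf t) (hg t) (norm_nonneg _) (by positivity)
      _ = A * B * (Real.exp (-(m * |t|)) * Real.exp (ξ * |t|)) := by ring
      _ = _ := by rw [← Real.exp_add]; congr 2; ring
  have hint : ∀ {f : ℝ → ℝ} {g : ℝ → ℂ} {A B : ℝ}, Continuous f → Continuous g → 0 ≤ A → 0 ≤ B →
      (∀ t, |f t| ≤ A * Real.exp (-(m * |t|))) →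
      (∀ t, ‖g t‖ ≤ B * Real.exp (ξ * |t|)) → Integrable fun t => ((f t : ℝ) : ℂ) * g t := by
    intro f g A B hfc hgc hA hB hf hg
    refine ((int_exp_abs hmξ).const_mul (A * B)).mono' (by
      apply Continuous.aestronglyMeasurable
      fun_prop) (Filter.Eventually.of_forall fun t => ?_)
    exact hprod hA hB hf hg t
  have hBfb : ∃ A : ℝ, 0 ≤ A ∧ ∀ t, |Bf t| ≤ A * Real.exp (-(m * |t|)) := by
    obtain ⟨M, hM⟩ := isCompact_Icc.exists_bound_of_continuousOn (s := Set.Icc (-a) a) hBfc.continuousOn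
    refine ⟨max M 0 * Real.exp (m * a), by positivity, fun t => ?_⟩
    rcases le_or_gt a (|t|) with ht | ht
    · rw [hBfz t ht, abs_zero]; positivity
    · have h1 := hM t ⟨by linarith [neg_abs_le t], by linarith [le_abs_self t]⟩
      rw [Real.norm_eq_abs] at h1
      rw [mul_assoc, ← Real.exp_add]
      have h2 : 1 ≤ Real.exp (m * a + -(m * |t|)) := by
        apply Real.one_le_exp
        have : (m:ℝ) * |t| ≤ m * a := mul_le_mul_of_nonneg_left ht.le (Nat.cast_nonneg m)
        linarith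
      calc |Bf t| ≤ max M 0 * 1 := by rw [mul_one]; exact h1.trans (le_max_left _ _)
        _ ≤ _ := mul_le_mul_of_nonneg_left h2 (le_max_right _ _)
  obtain ⟨A, hA0, hA⟩ := hBfb
  have i_wpu : Integrable fun t => ((wp t : ℝ) : ℂ) * u t := hint hwpc huc hS0 (by positivity) hwpb hub
  have i_Bu : Integrable fun t => ((Bf t : ℝ) : ℂ) * u t := hint hBfc huc hA0 (by positivity) hA hub
  have i1 : Integrable fun t => ((wp t - Bf t : ℝ) : ℂ) * v t := by
    have h1 : Integrable fun t => ((wp t : ℝ) : ℂ) * v t := hint hwpc hv hS0 hC0 hwpb hvb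
    have h2 : Integrable fun t => ((Bf t : ℝ) : ℂ) * v t := hint hBfc hv hA0 hC0 hA hvb
    refine (h1.sub h2).congr (Filter.Eventually.of_forall fun t => ?_)
    simp only [Pi.sub_apply]
    push_cast
    ring
  have i2 : Integrable fun t => ((wp t - Bf t : ℝ) : ℂ) * v (-t) := by
    have hvb' : ∀ t, ‖v (-t)‖ ≤ C * Real.exp (ξ * |t|) := fun t => by
      have := hvb (-t)
      rwa [abs_neg] at this
    have h1 : Integrable fun t => ((wp t : ℝ) : ℂ) * v (-t) := hint hwpc (by fun_prop) hS0 hC0 hwpb hvb'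
    have h2 : Integrable fun t => ((Bf t : ℝ) : ℂ) * v (-t) := hint hBfc (by fun_prop) hA0 hC0 hA hvb'
    refine (h1.sub h2).congr (Filter.Eventually.of_forall fun t => ?_)
    simp only [Pi.sub_apply]
    push_cast
    ring
  -- reduction
  have hred : ∫ t : ℝ, ((w t : ℝ) : ℂ) * v t = (∫ t : ℝ, ((wp t : ℝ) : ℂ) * u t) - (∫ t : ℝ, ((Bf t : ℝ) : ℂ) * u t) := by
    have e1 : ∀ t, ((w t : ℝ) : ℂ) * v t = ((wp t - Bf t : ℝ) : ℂ) * v t + ((wp (-t) - Bf (-t) : ℝ) : ℂ) * v t := by
      intro t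
      rw [hdec t]
      push_cast
      ring
    simp_rw [e1]
    have i3 : Integrable fun t => ((wp (-t) - Bf (-t) : ℝ) : ℂ) * v t := by
      have := i2.comp_neg
      simpa using this
    rw [integral_add i1 i3]
    have e2 : ∫ t : ℝ, ((wp (-t) - Bf (-t) : ℝ) : ℂ) * v t = ∫ t : ℝ, ((wp t - Bf t : ℝ) : ℂ) * v (-t) := by
      have := integral_neg_eq_self (fun t : ℝ => ((wp t - Bf t : ℝ) : ℂ) * v (-t)) volume
      rw [← this]
      simp
    rw [e2, ← integral_add i1 i2, ← integral_sub i_wpu i_Bu]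
    apply integral_congr_ae
    refine Filter.Eventually.of_forall fun t => ?_
    simp only
    rw [hud]
    push_cast
    ring
  rw [hwd] at hred
  simp only at hred
  rw [hred, sub_eq_zero]
  -- the expansion of the inner part
  have hterm : ∀ (i : ℕ × Fin D) (t : ℝ), Real.exp (-(m * t)) * (kd P q₁ D m ℓ i (Real.exp t) *
      h (ar true (sp P q₁ D i) (Real.exp t))) =
      ℓ i.2 (q₁ + i.1) * (th (t / P - (i.2 : ℕ)) * wp (t + ((q₁ : ℝ) + i.1 - (i.2 : ℕ)) * P)) := by
    intro i t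
    unfold kd lg ar cp GG sp
    rw [if_pos (Real.exp_pos t), Real.log_exp, hwpd, hwd]
    simp only [if_true]
    have e1 : Real.exp (((q₁ : ℝ) + i.1 - (i.2 : ℕ)) * P) * Real.exp t =
        Real.exp (t + ((q₁ : ℝ) + i.1 - (i.2 : ℕ)) * P) := by
      rw [← Real.exp_add]; congr 1; ring
    have e2 : Real.exp (-(m * (t + ((q₁ : ℝ) + i.1 - (i.2 : ℕ)) * P))) =
        Real.exp (-(m * t)) * Real.exp (-(((q₁ : ℝ) + i.1 - (i.2 : ℕ)) * P * m)) := by
      rw [← Real.exp_add]; congr 1; ring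
    rw [e1, e2]
    ring
  obtain ⟨q, hq⟩ : ∃ q : ℕ → ℝ, q = fun j : ℕ => (q₁ : ℝ) + j := ⟨_, rfl⟩
  have hH1 : HasSum (fun i : ℕ × Fin D => ∫ t : ℝ, ((ℓ i.2 (q₁ + i.1) * (th (t / P - (i.2 : ℕ)) *
      wp (t + ((q₁ : ℝ) + i.1 - (i.2 : ℕ)) * P)) : ℝ) : ℂ) * u t) (∫ t : ℝ, ((Bf t : ℝ) : ℂ) * u t) := by
    apply hasSum_integral_of_dominated_convergence
      (fun (i : ℕ × Fin D) t => B0 i * (Set.indicator (Set.Icc (-a) a) (fun t => S * Real.exp (-(m * t)) * ‖u t‖) t))
    · intro i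
      apply Continuous.aestronglyMeasurable
      fun_prop
    · intro i
      refine Filter.Eventually.of_forall fun t => ?_
      by_cases ht : t ∈ Set.Icc (-a) a
      · rw [Set.indicator_of_mem ht, ← hterm i t, norm_mul, Complex.norm_real, Real.norm_eq_abs, abs_mul,
          abs_of_pos (Real.exp_pos _)]
        have h1 := hF.term_le hS i (Real.exp t)
        calc Real.exp (-(m * t)) * |kd P q₁ D m ℓ i (Real.exp t) * h (ar true (sp P q₁ D i) (Real.exp t))| * ‖u t‖
            ≤ Real.exp (-(m * t)) * (B0 i * S) * ‖u t‖ := by gcongr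
          _ = _ := by ring
      · rw [Set.indicator_of_notMem ht, mul_zero]
        have h1 : a ≤ |t| := by
          rw [Set.mem_Icc, not_and_or] at ht
          rw [le_abs]
          rcases ht with ht | ht
          · right; linarith
          · left; linarith
        rw [th_zero (far i.2.2 hP (by rw [← ha]; exact hDP) (by rw [← ha]; exact h1))]
        simp
    · exact Filter.Eventually.of_forall fun t => hF.sumB0.mul_right _
    · have : (fun t => ∑' i : ℕ × Fin D, B0 i * (Set.indicator (Set.Icc (-a) a) (fun t => S * Real.exp (-(m * t)) * ‖u t‖) t)) =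
          fun t => (∑' i, B0 i) * (Set.indicator (Set.Icc (-a) a) (fun t => S * Real.exp (-(m * t)) * ‖u t‖) t) := by
        funext t
        rw [tsum_mul_right]
      rw [this]
      apply Integrable.const_mul
      rw [integrable_indicator_iff measurableSet_Icc]
      apply Continuous.integrableOn_Icc
      fun_prop
    · refine Filter.Eventually.of_forall fun t => ?_
      apply HasSum.mul_right
      apply Complex.hasSum_ofReal.2
      have h1 := (hF.has hS (Real.exp t)).mul_left (Real.exp (-(m * t)))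
      have h2 : Bf t = Real.exp (-(m * t)) * fam (kd P q₁ D m ℓ) (fun _ => true) (sp P q₁ D) h (Real.exp t) := by
        rw [hBf]; rfl
      rw [h2]
      exact h1.congr_fun fun i => (hterm i t).symm
  -- the translated terms
  have htr : ∀ i : ℕ × Fin D, ∫ t : ℝ, ((ℓ i.2 (q₁ + i.1) * (th (t / P - (i.2 : ℕ)) *
      wp (t + ((q₁ : ℝ) + i.1 - (i.2 : ℕ)) * P)) : ℝ) : ℂ) * u t =
      ∫ s : ℝ, (th (s / P - (q₁ + i.1)) : ℂ) * ((wp s : ℝ) : ℂ) *
        ((ℓ i.2 (q₁ + i.1) : ℂ) * u ((s - (q₁ + i.1) * P) + (i.2 : ℕ) * P)) := by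
    intro i
    have h1 := integral_add_right_eq_self (μ := volume) (fun s : ℝ => (th (s / P - (q₁ + i.1)) : ℂ) * ((wp s : ℝ) : ℂ) *
        ((ℓ i.2 (q₁ + i.1) : ℂ) * u ((s - (q₁ + i.1) * P) + (i.2 : ℕ) * P))) (((q₁ : ℝ) + i.1 - (i.2 : ℕ)) * P)
    rw [← h1]
    apply integral_congr_ae
    refine Filter.Eventually.of_forall fun t => ?_
    simp only
    have e1 : (t + ((q₁ : ℝ) + i.1 - (i.2 : ℕ)) * P) / P - (q₁ + i.1) = t / P - (i.2 : ℕ) := by
      field_simp
      ring
    have e2 : t + ((q₁ : ℝ) + i.1 - (i.2 : ℕ)) * P - (q₁ + i.1) * P + (i.2 : ℕ) * P = t := by ring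
    rw [e1, e2]
    push_cast
    ring
  have hcell : ∀ j : ℕ, ∑ n : Fin D, ∫ t : ℝ, ((ℓ n (q₁ + j) * (th (t / P - (n : ℕ)) *
      wp (t + ((q₁ : ℝ) + j - (n : ℕ)) * P)) : ℝ) : ℂ) * u t =
      ∫ s : ℝ, (th (s / P - (q₁ + j)) : ℂ) * (((wp s : ℝ) : ℂ) * u s) := by
    intro j
    have h1 : ∀ n : Fin D, ∫ t : ℝ, ((ℓ n (q₁ + j) * (th (t / P - (n : ℕ)) *
      wp (t + ((q₁ : ℝ) + j - (n : ℕ)) * P)) : ℝ) : ℂ) * u t =
      ∫ s : ℝ, (th (s / P - (q₁ + j)) : ℂ) * ((wp s : ℝ) : ℂ) *
        ((ℓ n (q₁ + j) : ℂ) * u ((s - (q₁ + j) * P) + (n : ℕ) * P)) := fun n => htr (j, n)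
    simp_rw [h1]
    rw [← integral_finsetSum]
    · apply integral_congr_ae
      refine Filter.Eventually.of_forall fun s => ?_
      simp only
      rw [← mul_sum]
      have h2 : ∑ n : Fin D, (ℓ n (q₁ + j) : ℂ) * u ((s - (q₁ + j) * P) + (n : ℕ) * P) = u s := by
        rw [Fin.sum_univ_eq_sum_range (fun n : ℕ => (ℓ n (q₁ + j) : ℂ) * u ((s - (q₁ + j) * P) + n * P)) D, hud]
        simp only
        simp_rw [mul_add]
        rw [sum_add_distrib, hr1 (q₁ + j) (s - (q₁ + j) * P) (by omega), hr2 (q₁ + j) (s - (q₁ + j) * P) (by omega)]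
        have e : s - ((q₁:ℝ) + j) * P + ((q₁ + j : ℕ) : ℝ) * P = s := by push_cast; ring
        rw [e]
      rw [h2]
      ring
    · intro n _
      -- compact support
      apply Continuous.integrable_of_hasCompactSupport
      · fun_prop
      · apply HasCompactSupport.of_support_subset_isCompact
          (isCompact_Icc (a := ((q₁ + j : ℝ) - 1) * P) (b := ((q₁ + j : ℝ) + 1) * P))
        intro s hs
        by_contra hns
        apply hs
        have h3 : 1 ≤ |s / P - (q₁ + j)| := by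
          rw [Set.mem_Icc, not_and_or] at hns
          rw [le_abs]
          rcases hns with h | h
          · right
            push Not at h
            have : s / P < (q₁ + j : ℝ) - 1 := by rw [div_lt_iff₀ hP]; exact h
            linarith
          · left
            push Not at h
            have : (q₁ + j : ℝ) + 1 < s / P := by rw [lt_div_iff₀ hP]; exact h
            linarith
        simp only
        rw [th_zero h3]
        simp
  have hH2 : HasSum (fun j : ℕ => ∫ s : ℝ, (th (s / P - (q₁ + j)) : ℂ) * (((wp s : ℝ) : ℂ) * u s))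
      (∫ t : ℝ, ((Bf t : ℝ) : ℂ) * u t) := by
    have h1 := hH1.prod_fiberwise (fun j => (hasSum_fintype (fun n : Fin D => ∫ t : ℝ, ((ℓ n (q₁ + j) *
      (th (t / P - (n : ℕ)) * wp (t + ((q₁ : ℝ) + j - (n : ℕ)) * P)) : ℝ) : ℂ) * u t)))
    exact h1.congr_fun fun j => (hcell j).symm
  have hpt : ∀ s : ℝ, HasSum (fun j : ℕ => (th (s / P - (q₁ + j)) : ℂ) * (((wp s : ℝ) : ℂ) * u s))
      (((wp s : ℝ) : ℂ) * u s) := by
    intro s
    rcases le_or_gt s a with hs | hs
    · rw [hwpz s hs]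
      simp only [Complex.ofReal_zero, zero_mul, mul_zero]
      exact hasSum_zero
    · have hx : 0 ≤ s / P - q₁ := by
        have : (q₁ : ℝ) ≤ s / P := by rw [le_div_iff₀ hP]; linarith
        linarith
      have h1 := (Complex.hasSum_ofReal.2 (hasSum_th hx)).mul_right (((wp s : ℝ) : ℂ) * u s)
      simp only [Complex.ofReal_one, one_mul] at h1
      refine h1.congr_fun fun j => ?_
      congr 3
      ring
  have hptn : ∀ s : ℝ, HasSum (fun j : ℕ => th (s / P - (q₁ + j)) * ‖((wp s : ℝ) : ℂ) * u s‖)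
      (‖((wp s : ℝ) : ℂ) * u s‖) := by
    intro s
    rcases le_or_gt s a with hs | hs
    · rw [hwpz s hs]
      simp only [Complex.ofReal_zero, zero_mul, norm_zero, mul_zero]
      exact hasSum_zero
    · have hx : 0 ≤ s / P - q₁ := by
        have : (q₁ : ℝ) ≤ s / P := by rw [le_div_iff₀ hP]; linarith
        linarith
      have h1 := (hasSum_th hx).mul_right (‖((wp s : ℝ) : ℂ) * u s‖)
      simp only [one_mul] at h1
      refine h1.congr_fun fun j => ?_
      congr 2
      ring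
  have hH3 : HasSum (fun j : ℕ => ∫ s : ℝ, (th (s / P - (q₁ + j)) : ℂ) * (((wp s : ℝ) : ℂ) * u s))
      (∫ s : ℝ, ((wp s : ℝ) : ℂ) * u s) := by
    apply hasSum_integral_of_dominated_convergence (fun (j : ℕ) s => th (s / P - (q₁ + j)) * ‖((wp s : ℝ) : ℂ) * u s‖)
    · intro j
      apply Continuous.aestronglyMeasurable
      fun_prop
    · intro j
      refine Filter.Eventually.of_forall fun s => ?_
      rw [norm_mul, Complex.norm_real, Real.norm_eq_abs, abs_of_nonneg (th_nn _)]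
    · exact Filter.Eventually.of_forall fun s => (hptn s).summable
    · have : (fun s => ∑' j : ℕ, th (s / P - (q₁ + j)) * ‖((wp s : ℝ) : ℂ) * u s‖) =
          fun s => ‖((wp s : ℝ) : ℂ) * u s‖ := by
        funext s
        exact (hptn s).tsum_eq
      rw [this]
      exact i_wpu.norm
    · exact Filter.Eventually.of_forall hpt
  exact hH3.unique hH2

end Pool.Agent.Q286.AP
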