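import Mathlib
import Pool.Agent.Q286.AP.Van
import Pool.Agent.Q286.AP.Mel
import Pool.Agent.Q286.AP.Rep

set_option autoImplicit false

/-!
# Zeros of the Mellin transform of the boundary function, with multiplicities
-/

namespace Pool.Agent.Q286.AP

open Filter Topology MeasureTheory Set Complex Asymptotics
open Pool.Agent.H469R10.HO

/-- Mellin transform in exponential coordinates -/
theorem mellin_exp (f : ℝ → ℂ) (s : ℂ) : mellin f s = ∫ u : ℝ, Complex.exp (s * u) * f (Real.exp u) := by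
  have h1 : Real.exp '' univ = Ioi 0 := by rw [image_univ, Real.range_exp]
  unfold mellin
  rw [← h1, integral_image_eq_integral_abs_deriv_smul MeasurableSet.univ
    (fun x _ => (Real.hasDerivAt_exp x).hasDerivWithinAt) Real.exp_injective.injOn, Measure.restrict_univ]
  congr 1
  funext u
  rw [abs_of_pos (Real.exp_pos u), smul_eq_mul, Complex.real_smul, ← mul_assoc]
  congr 1
  rw [ofReal_exp, cpow_def_of_ne_zero (Complex.exp_ne_zero _), ← Complex.ofReal_exp, ← Complex.ofReal_log (Real.exp_pos u).le,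
    Real.log_exp, ofReal_exp, ← Complex.exp_add]
  congr 1
  ring

section iter

variable {h : ℝ → ℂ} {S : ℝ} {m : ℕ}

/-- the functions `(log x)^i h(x)` -/
noncomputable def li (h : ℝ → ℂ) (i : ℕ) (x : ℝ) : ℂ := ((Real.log x ^ i : ℝ) : ℂ) * h x

lemma li_top (hS : ∀ x, ‖h x‖ ≤ S) (i : ℕ) {r : ℝ} (hr : 0 < r) : li h i =O[atTop] (· ^ r : ℝ → ℝ) := by
  have h1 : (fun x : ℝ => Real.log x ^ (i : ℝ)) =O[atTop] fun x => x ^ r :=
    (isLittleO_log_rpow_rpow_atTop (i : ℝ) hr).isBigO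
  have h2 : (fun x : ℝ => ((Real.log x ^ i : ℝ) : ℂ)) =O[atTop] fun x => x ^ r := by
    refine IsBigO.trans ?_ h1
    refine IsBigO.of_bound 1 (Eventually.of_forall fun x => ?_)
    rw [norm_real, Real.rpow_natCast, one_mul]
  have h3 : h =O[atTop] fun _ : ℝ => (1 : ℝ) := IsBigO.of_bound S (Eventually.of_forall fun x => by
    rw [norm_one, mul_one]; exact hS x)
  have h4 := h2.mul h3
  simp only [mul_one] at h4
  exact h4

lemma li_bot (hS : ∀ x, 0 < x → ‖h x‖ ≤ S * x ^ (2 * m)) (i : ℕ) {r : ℝ} (hr : r < 2 * m) :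
    li h i =O[𝓝[>] 0] (· ^ r : ℝ → ℝ) := by
  have h1 : (fun x : ℝ => |Real.log x| ^ (i : ℝ)) =O[𝓝[>] 0] fun x => x ^ (r - 2 * m) :=
    (isLittleO_abs_log_rpow_rpow_nhdsGT_zero (i : ℝ) (by linarith)).isBigO
  have h2 : (fun x : ℝ => ((Real.log x ^ i : ℝ) : ℂ)) =O[𝓝[>] 0] fun x => x ^ (r - 2 * m) := by
    refine IsBigO.trans ?_ h1
    refine IsBigO.of_bound 1 (Eventually.of_forall fun x => ?_)
    rw [norm_real, Real.rpow_natCast, one_mul, Real.norm_eq_abs, Real.norm_eq_abs, abs_pow, abs_pow, abs_abs]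
  have h3 : h =O[𝓝[>] 0] fun x : ℝ => x ^ ((2 * m : ℕ) : ℝ) := by
    refine IsBigO.of_bound S ?_
    filter_upwards [self_mem_nhdsWithin] with x hx
    have hx0 : (0:ℝ) < x := hx
    rw [Real.norm_of_nonneg (Real.rpow_nonneg hx0.le _), Real.rpow_natCast]
    exact hS x hx0
  have h4 := h2.mul h3
  refine h4.congr' EventuallyEq.rfl ?_
  filter_upwards [self_mem_nhdsWithin] with x hx
  have hx0 : (0:ℝ) < x := hx
  rw [← Real.rpow_add hx0]
  congr 1
  push_cast
  ring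

lemma li_loc (hc : Continuous h) (i : ℕ) : LocallyIntegrableOn (li h i) (Ioi 0) := by
  refine ContinuousOn.locallyIntegrableOn ?_ measurableSet_Ioi
  unfold li
  apply ContinuousOn.mul _ hc.continuousOn
  apply Complex.continuous_ofReal.comp_continuousOn
  apply ContinuousOn.pow
  exact Real.continuousOn_log.mono fun x hx => (ne_of_gt hx)

lemma li_deriv (hc : Continuous h) (h1 : ∀ x, ‖h x‖ ≤ S) (h2 : ∀ x, 0 < x → ‖h x‖ ≤ S * x ^ (2 * m)) (i : ℕ)
    {s : ℂ} (hs1 : -(2 * m : ℝ) < s.re) (hs2 : s.re < 0) :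
    HasDerivAt (mellin (li h i)) (mellin (li h (i + 1)) s) s := by
  have h3 := (mellin_hasDerivAt_of_isBigO_rpow (f := li h i) (s := s) (a := s.re / 2) (b := (s.re - 2 * m) / 2)
    (li_loc hc i) (li_top h1 i (by linarith)) (by linarith)
    (li_bot h2 i (by linarith)) (by linarith)).2
  refine h3.congr_deriv ?_
  congr 1
  funext t
  unfold li
  rw [Complex.real_smul]
  push_cast
  ring

lemma li_iter (hc : Continuous h) (h1 : ∀ x, ‖h x‖ ≤ S) (h2 : ∀ x, 0 < x → ‖h x‖ ≤ S * x ^ (2 * m)) (i : ℕ) :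
    ∀ s : ℂ, -(2 * m : ℝ) < s.re → s.re < 0 → iteratedDeriv i (mellin h) s = mellin (li h i) s := by
  induction i with
  | zero =>
    intro s _ _
    rw [iteratedDeriv_zero]
    congr 1
    funext x
    unfold li
    simp
  | succ i ih =>
    intro s hs1 hs2
    rw [iteratedDeriv_succ]
    have ho : IsOpen {z : ℂ | -(2 * m : ℝ) < z.re ∧ z.re < 0} :=
      (isOpen_lt continuous_const Complex.continuous_re).inter (isOpen_lt Complex.continuous_re continuous_const)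
    have h3 : iteratedDeriv i (mellin h) =ᶠ[𝓝 s] mellin (li h i) := by
      filter_upwards [ho.mem_nhds (show s ∈ {z : ℂ | -(2 * m : ℝ) < z.re ∧ z.re < 0} from ⟨hs1, hs2⟩)] with z hz
      exact ih z hz.1 hz.2
    rw [h3.deriv_eq]
    exact (li_deriv hc h1 h2 i hs1 hs2).deriv

lemma mellin_an (hc : Continuous h) (h1 : ∀ x, ‖h x‖ ≤ S) (h2 : ∀ x, 0 < x → ‖h x‖ ≤ S * x ^ (2 * m))
    {s : ℂ} (hs1 : -(2 * m : ℝ) < s.re) (hs2 : s.re < 0) : AnalyticAt ℂ (mellin h) s := by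
  have ho : IsOpen {z : ℂ | -(2 * m : ℝ) < z.re ∧ z.re < 0} :=
    (isOpen_lt continuous_const Complex.continuous_re).inter (isOpen_lt Complex.continuous_re continuous_const)
  have h3 : DifferentiableOn ℂ (mellin h) {z : ℂ | -(2 * m : ℝ) < z.re ∧ z.re < 0} := by
    intro z hz
    have h4 := li_deriv hc h1 h2 0 hz.1 hz.2
    have e : li h 0 = h := by funext x; unfold li; simp
    rw [e] at h4
    exact h4.differentiableAt.differentiableWithinAt
  exact h3.analyticAt (ho.mem_nhds ⟨hs1, hs2⟩)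

end iter

/-- growth of exponential monomials -/
lemma em_bd (i : ℕ) (z : ℂ) {ξ : ℝ} (hξ : |z.re| < ξ) : ∃ C : ℝ, ∀ t : ℝ, ‖em i z t‖ ≤ C * Real.exp (ξ * |t|) := by
  obtain ⟨ε, hε⟩ : ∃ ε : ℝ, ε = ξ - |z.re| := ⟨_, rfl⟩
  have hε0 : 0 < ε := by rw [hε]; linarith
  refine ⟨i.factorial / ε ^ i, fun t => ?_⟩
  unfold em
  rw [norm_mul, norm_pow, norm_real, Real.norm_eq_abs, Complex.norm_exp]
  have h1 : |t| ^ i ≤ i.factorial / ε ^ i * Real.exp (ε * |t|) := by
    have := Real.pow_div_factorial_le_exp (ε * |t|) (by positivity) i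
    rw [div_le_iff₀ (by positivity), mul_pow] at this
    rw [div_mul_eq_mul_div, le_div_iff₀ (by positivity)]
    linarith
  have h2 : Real.exp ((z * (t : ℂ)).re) ≤ Real.exp (|z.re| * |t|) := by
    apply Real.exp_le_exp.2
    have : (z * (t : ℂ)).re = z.re * t := by simp
    rw [this, ← abs_mul]
    exact le_abs_self _
  calc |t| ^ i * Real.exp ((z * (t : ℂ)).re) ≤ (i.factorial / ε ^ i * Real.exp (ε * |t|)) * Real.exp (|z.re| * |t|) :=
        mul_le_mul h1 h2 (Real.exp_pos _).le (by positivity)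
    _ = i.factorial / ε ^ i * (Real.exp (ε * |t|) * Real.exp (|z.re| * |t|)) := by ring
    _ = _ := by rw [← Real.exp_add]; congr 2; rw [hε]; ring

lemma em_cont (i : ℕ) (z : ℂ) : Continuous (em i z) := by unfold em; fun_prop

lemma em_neg (i : ℕ) (z : ℂ) (t : ℝ) : em i z (-t) = (-1) ^ i * em i (-z) t := by
  unfold em
  push_cast
  rw [neg_pow, neg_mul_comm]
  ring_nf

/-- **zeros of the Mellin transform** -/
theorem mellin_order {P : ℝ} {q₁ N m : ℕ} {ℓ : ℕ → ℕ → ℝ} {κ : ℝ} (hm : 1 ≤ m) (hP : 0 < P)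
    (hDP : (4 * N : ℕ) * P ≤ Real.log (4 / 3)) (hqP : q₁ * P ≤ Real.log (4 / 3))
    (hG : Good P q₁ (4 * N) m ℓ κ)
    {h : ℝ → ℝ} (hc : Continuous h) {S : ℝ} (hS : ∀ x, |h x| ≤ S)
    (hrel : ∀ x : ℝ, 0 < x → h x = x ^ (2 * m) * h x⁻¹)
    (hz : ∀ x : ℝ, 4 / 3 ≤ x → x ≤ 2 → h x = 0)
    (hi : ∀ x : ℝ, 3 / 4 < x → x < 4 / 3 → h x = LL P q₁ (4 * N) m ℓ h x)
    {ζ : Fin N → ℂ}
    (hrep : ∀ (j : Fin N) (i : ℕ), i < Fintype.card {l : Fin N // ζ l = ζ j} → ∀ z : ℂ,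
      (Complex.exp (z * P) = Complex.exp (ζ j * P) ∨ Complex.exp (z * P) = Complex.exp (-(ζ j * P))) →
      ∀ (q : ℕ) (t : ℝ), ∑ n ∈ Finset.range (4 * N), (ℓ n q : ℂ) * em i z (t + n * P) = em i z (t + q * P))
    (j : Fin N) {z : ℂ} (hzj : Complex.exp (z * P) = Complex.exp (ζ j * P)) (hzm : |z.re| < m) :
    ((Fintype.card {l : Fin N // ζ l = ζ j} : ℕ) : ℕ∞) ≤ analyticOrderAt (mellin (fun x => (h x : ℂ))) (-m + z) := by
  obtain ⟨B0, B1, hF, -, -⟩ := hG.ex
  have hhc : Continuous fun x => (h x : ℂ) := Complex.continuous_ofReal.comp hc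
  have hb1 : ∀ x, ‖(h x : ℂ)‖ ≤ S := fun x => by rw [norm_real]; exact hS x
  have hb2 : ∀ x, 0 < x → ‖(h x : ℂ)‖ ≤ S * x ^ (2 * m) := fun x hx => by
    rw [norm_real, hrel x hx, norm_mul, Real.norm_of_nonneg (pow_nonneg hx.le _), mul_comm]
    exact mul_le_mul_of_nonneg_right (hS _) (pow_nonneg hx.le _)
  have hzm' := abs_lt.1 hzm
  have hre : (-m + z : ℂ).re = -m + z.re := by simp
  have hs1 : -(2 * m : ℝ) < (-m + z : ℂ).re := by rw [hre]; linarith
  have hs2 : (-m + z : ℂ).re < 0 := by rw [hre]; linarith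
  rw [natCast_le_analyticOrderAt_iff_iteratedDeriv_eq_zero (mellin_an hhc hb1 hb2 hs1 hs2)]
  intro i hi'
  rw [li_iter hhc hb1 hb2 i _ hs1 hs2, mellin_exp]
  obtain ⟨C, hC⟩ := em_bd i z (ξ := (|z.re| + m) / 2) (by linarith)
  have key := vanInt hP hDP hqP hF hc hS hrel hz hi (em_cont i z) (C := C) (ξ := (|z.re| + m) / 2)
    (by linarith) hC (fun q t _ => hrep j i hi' z (Or.inl hzj) q t) (fun q t _ => by
      simp_rw [em_neg]
      have h1 := hrep j i hi' (-z) (Or.inr (by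
        rw [neg_mul, Complex.exp_neg, hzj, ← Complex.exp_neg])) q t
      rw [← h1, Finset.mul_sum]
      exact Finset.sum_congr rfl fun n _ => by ring)
  rw [← key]
  congr 1
  funext t
  unfold li em
  rw [Real.log_exp]
  have e : Complex.exp ((-m + z) * t) = Complex.exp (-(m * t)) * Complex.exp (z * t) := by
    rw [← Complex.exp_add]; congr 1; ring
  rw [e]
  push_cast
  ring

end Pool.Agent.Q286.AP
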