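import Pool.Agent.Y532.SC.Deg
import Pool.Agent.Q286.AP.Mult

/-!
# Members of the Selberg class with prescribed zeros on a vertical arithmetic progression
-/

set_option autoImplicit false
set_option linter.unusedVariables false

open Finset Complex

namespace Pool.Agent.Q286.AP

open Pool.Agent.H469R10.HO Pool.Agent.Y532.SC
open Pool.Agent.W168.Wrap (mu kap aa ff FF FF_diff FF_series FF_growth FF_completed FF_strip uu_pos uu_zero)

/-- **the element of a solution of the boundary problem** -/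
theorem elt {m : ℕ} (hm1 : 1 ≤ m) {lam : ℝ} (hlm : 2 * m + 1 < lam) {Q : ℝ} (hQ0 : 0 < Q) {c : ℝ} (hc : 0 < c)
    (hQc : Real.exp (-(lam * Real.log c)) = Q) {β α : ℕ → ℝ}
    (hβ : ∀ p : ℕ, p.Prime → |β p| ≤ (p : ℝ) ^ (-(1 / 2 + m / lam)))
    (hα : ∀ n : ℕ, 1 ≤ n → α n = if Squarefree n then ∏ p ∈ n.primeFactors, β p else 0)
    (hsum : Summable (fun n => |α n|))
    (hrel : ∀ x : ℝ, 0 < x → Th c lam α x = x ^ (2 * m) * Th c lam α x⁻¹) :
    ∃ (g : ℕ → ℝ) (F : ℂ → ℂ),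
      One lam (m + 1 - lam / 2) Q ((-1) ^ (m + 1)) g F ∧
      (∀ z : ℂ, |z.re| < m → analyticOrderAt (mellin (fun x => (Th c lam α x : ℂ))) (-m + z) ≤
        analyticOrderAt F (1 / 2 + z / lam)) ∧
      ∀ k : ℕ, 1 ≤ k → k + 1 ≤ m → F (1 / 2 + (m - 2 * k) / lam) = 0 := by
  have hmR : (0:ℝ) ≤ m := Nat.cast_nonneg m
  have hl : 0 < lam := by linarith
  have hlam1 : 1 ≤ lam := by linarith
  have hF := Pool.Agent.H144R3.T469F.taskF
  have hG := Pool.Agent.H853R3.Bol.taskG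
  have hrel2 := hG m hm1 α (uu c lam) hsum (uu_zero hl) (fun n hn => uu_pos hc hn) 1 (Or.inl rfl)
    (fun x hx => by
      rw [one_mul]
      have := hrel x hx
      unfold Th at this
      simpa [div_eq_mul_inv] using this)
  obtain ⟨ε, hε⟩ : ∃ ε : ℝ, ε = (-1) ^ (m + 1) * 1 := ⟨_, rfl⟩
  have hε1 : ε = 1 ∨ ε = -1 := by
    rw [hε, mul_one]
    exact neg_one_pow_eq_or ℝ (m + 1)
  have hεε : ε * ε = 1 := by
    rcases hε1 with h | h <;> rw [h] <;> norm_num
  obtain ⟨Λ, hΛd, hΛfe, hΛc, hΛs, C, hΛg⟩ := hF c lam (2 * m + 2) hc hlam1 (by linarith)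
    (fun n => α n * uu c lam n ^ (2 * m + 1))
    (by rw [uu_zero hl]; simp)
    (by
      refine Summable.of_nonneg_of_le (fun n => by
        apply mul_nonneg (abs_nonneg _)
        apply Real.rpow_nonneg
        rcases Nat.eq_zero_or_pos n with h | h
        · rw [h, uu_zero hl]
        · exact (uu_pos hc h).le) (fun n => ?_) hsum
      rcases Nat.eq_zero_or_pos n with h | h
      · subst h
        rw [uu_zero hl]
        simp
      · have hu := uu_pos (lam := lam) hc h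
        rw [abs_mul, abs_of_pos (pow_pos hu _), mul_assoc, ← Real.rpow_natCast,
          ← Real.rpow_add hu]
        have : ((2 * m + 1 : ℕ) : ℝ) + -((2 * (m : ℝ) + 2) - 1) = 0 := by push_cast; ring
        rw [this, Real.rpow_zero, mul_one])
    ε hε1
    (by
      intro t ht
      have h1 := hrel2 t ht
      rw [hε]
      have h2 : t ^ (2 * (m : ℝ) + 2) = t ^ (2 * m + 2) := by
        rw [← Real.rpow_natCast]
        push_cast
        rfl
      rw [h2]
      exact h1)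
  obtain ⟨σ₀, hσ₀⟩ : ∃ σ₀ : ℝ, σ₀ = (2 * m + 2 + |mu lam m|) / lam + 1 := ⟨_, rfl⟩
  have hmu : 0 ≤ |mu lam m| := abs_nonneg _
  have hσ₀1 : 1 ≤ σ₀ := by
    rw [hσ₀]
    have : 0 ≤ (2 * m + 2 + |mu lam m|) / lam := by positivity
    linarith
  have hFser : ∀ s : ℂ, σ₀ < s.re → FF lam m c Λ s = LSeries (ff lam m α) s := by
    intro s hs
    refine (FF_series hc hl ?_).2
    apply hΛs
    have h1 : ((lam : ℂ) * s + mu lam m).re = lam * s.re + mu lam m := by
      simp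
    rw [h1]
    rw [hσ₀] at hs
    have h2 : (2 * m + 2 + |mu lam m|) / lam < s.re := by linarith
    rw [div_lt_iff₀ hl] at h2
    have := neg_abs_le (mu lam m)
    linarith
  obtain ⟨g, hgd⟩ : ∃ g : ℕ → ℝ, g = fun p => β p * (p : ℝ) ^ (kap lam m) := ⟨_, rfl⟩
  have hg1 : ∀ p : ℕ, p.Prime → |g p| ≤ 1 := by
    intro p hp
    have hp0 : (0 : ℝ) < p := by exact_mod_cast hp.pos
    rw [hgd]
    simp only
    rw [abs_mul, abs_of_pos (Real.rpow_pos_of_pos hp0 _)]
    calc |β p| * (p : ℝ) ^ kap lam m ≤ (p : ℝ) ^ (-kap lam m) * (p : ℝ) ^ kap lam m := by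
          gcongr
          exact hβ p hp
      _ = 1 := by rw [← Real.rpow_add hp0]; simp
  have hcoeff : ∀ s : ℂ, LSeries (ff lam m α) s = LSeries (co g) s := by
    intro s
    refine LSeries_congr (fun {n} hn => ?_) s
    unfold ff co Pool.Agent.H902R3.I469.ff
    rw [fr_eq_aa (fun p hp => by rw [hgd]) hα (Nat.one_le_iff_ne_zero.2 hn)]
  have hser : ∀ s : ℂ, 1 < s.re → FF lam m c Λ s = LSeries (co g) s := by
    intro s hs
    have hU : IsPreconnected {z : ℂ | 1 < z.re} := (convex_halfSpace_re_gt 1).isPreconnected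
    have hab : LSeries.abscissaOfAbsConv (co g) ≤ 1 := by
      apply LSeries.abscissaOfAbsConv_le_of_le_const
      exact ⟨1, fun n _ => co_bdd hg1 n⟩
    have h1 : AnalyticOnNhd ℂ (FF lam m c Λ) {z : ℂ | 1 < z.re} := fun z _ =>
      (FF_diff hΛd).analyticAt z
    have h2 : AnalyticOnNhd ℂ (LSeries (co g)) {z : ℂ | 1 < z.re} := by
      apply (LSeries_analyticOnNhd (co g)).mono
      intro z hz
      refine lt_of_le_of_lt hab ?_
      exact_mod_cast hz
    have h3 : FF lam m c Λ =ᶠ[nhds ((σ₀ + 1 : ℝ) : ℂ)] LSeries (co g) := by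
      have ho : IsOpen {z : ℂ | σ₀ < z.re} := isOpen_lt continuous_const Complex.continuous_re
      have hm : ((σ₀ + 1 : ℝ) : ℂ) ∈ {z : ℂ | σ₀ < z.re} := by
        change σ₀ < ((σ₀ + 1 : ℝ) : ℂ).re
        rw [Complex.ofReal_re]
        linarith
      filter_upwards [ho.mem_nhds hm] with z hz
      rw [hFser z hz, hcoeff]
    have h4 := h1.eqOn_of_preconnected_of_eventuallyEq h2 hU (z₀ := ((σ₀ + 1 : ℝ) : ℂ)) (by
      change (1 : ℝ) < ((σ₀ + 1 : ℝ) : ℂ).re
      rw [Complex.ofReal_re]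
      linarith) h3
    exact h4 hs
  have hmuv : mu lam m = m + 1 - lam / 2 := rfl
  have hmuc : (((m + 1 - lam / 2 : ℝ)) : ℂ) = (mu lam m : ℂ) := by rw [hmuv]
  have hεm : ((-1 : ℝ)) ^ (m + 1) = ε := by rw [hε, mul_one]
  rw [hεm]
  refine ⟨g, FF lam m c Λ, ⟨hε1, hg1, FF_diff hΛd, FF_growth3 hl hΛg, hser, ?_⟩, ?_, ?_⟩
  rotate_left
  · intro z hz
    have hz' := abs_lt.1 hz
    -- the order of `Λ`
    have hb1 : ∀ x, ‖(Th c lam α x : ℂ)‖ ≤ ∑' n, |α n| := fun x => by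
      rw [norm_real]; exact Th_bd hsum x
    have hb2 : ∀ x, 0 < x → ‖(Th c lam α x : ℂ)‖ ≤ (∑' n, |α n|) * x ^ (2 * m) := fun x hx => by
      rw [norm_real]; exact Th_small hsum hrel hx
    have hhc : Continuous fun x => (Th c lam α x : ℂ) := Complex.continuous_ofReal.comp (Th_cont hsum)
    have hre : (-m + z : ℂ).re = -m + z.re := by simp
    have hMan : AnalyticAt ℂ (mellin (fun x => (Th c lam α x : ℂ))) (-m + z) :=
      mellin_an hhc hb1 hb2 (by rw [hre]; linarith) (by rw [hre]; linarith)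
    obtain ⟨w, hw⟩ : ∃ w : ℂ, w = m + 1 + z := ⟨_, rfl⟩
    have hwre : w.re = m + 1 + z.re := by rw [hw]; simp
    have hw1 : 1 < w.re := by rw [hwre]; linarith
    have hw2 : w.re < 2 * m + 1 := by rw [hwre]; linarith
    have ho : IsOpen {z : ℂ | 1 < z.re ∧ z.re < 2 * m + 1} :=
      (isOpen_lt continuous_const Complex.continuous_re).inter (isOpen_lt Complex.continuous_re continuous_const)
    have hEv : Λ =ᶠ[nhds w] fun z => kapM m z * (mellin (fun x => (Th c lam α x : ℂ)) ∘ fun z => z - (2 * m + 1)) z := by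
      filter_upwards [ho.mem_nhds (show w ∈ {z : ℂ | 1 < z.re ∧ z.re < 2 * m + 1} from ⟨hw1, hw2⟩)] with y hy
      exact mel hc hlam1 hsum hrel hΛd hΛs hy.1 hy.2
    have hkan : AnalyticAt ℂ (kapM m) w := by
      have h1 : DifferentiableOn ℂ (kapM m) {z : ℂ | 1 < z.re ∧ z.re < 2 * m + 1} := fun y hy =>
        (kapM_diff (by linarith [hy.1]) (by linarith [hy.2])).differentiableWithinAt
      exact h1.analyticAt (ho.mem_nhds ⟨hw1, hw2⟩)
    have hwz : w - (2 * m + 1) = -m + z := by rw [hw]; ring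
    have htan : AnalyticAt ℂ (fun z : ℂ => z - (2 * m + 1)) w := by fun_prop
    have hcan : AnalyticAt ℂ (mellin (fun x => (Th c lam α x : ℂ)) ∘ fun z => z - (2 * m + 1)) w := by
      apply AnalyticAt.comp _ htan
      rw [hwz]
      exact hMan
    have hΛord : analyticOrderAt (mellin (fun x => (Th c lam α x : ℂ))) (-m + z) ≤ analyticOrderAt Λ w := by
      rw [analyticOrderAt_congr hEv]
      have h2 := analyticOrderAt_mul hkan hcan
      have h3 : analyticOrderAt (mellin (fun x => (Th c lam α x : ℂ)) ∘ fun z => z - (2 * m + 1)) w =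
          analyticOrderAt (mellin (fun x => (Th c lam α x : ℂ))) (-m + z) := by
        rw [analyticOrderAt_comp_of_deriv_ne_zero htan (by simp), hwz]
      have h4 : analyticOrderAt (fun z => kapM m z * (mellin (fun x => (Th c lam α x : ℂ)) ∘ fun z => z - (2 * m + 1)) z) w =
          analyticOrderAt (kapM m) w + analyticOrderAt (mellin (fun x => (Th c lam α x : ℂ)) ∘ fun z => z - (2 * m + 1)) w := h2
      rw [h4, h3]
      exact le_add_self
    refine hΛord.trans ?_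
    -- the order of `F`
    obtain ⟨s, hs⟩ : ∃ s : ℂ, s = 1 / 2 + z / lam := ⟨_, rfl⟩
    have hlc : (lam : ℂ) ≠ 0 := by exact_mod_cast hl.ne'
    have harg : (lam : ℂ) * s + mu lam m = w := by
      rw [hs, hw]
      unfold mu
      push_cast
      field_simp
      ring
    rw [← hs]
    have hL1 : AnalyticAt ℂ (fun s : ℂ => (lam : ℂ) * s + mu lam m) s := by fun_prop
    have hL2 : deriv (fun s : ℂ => (lam : ℂ) * s + mu lam m) s ≠ 0 := by
      have : HasDerivAt (fun s : ℂ => (lam : ℂ) * s + mu lam m) (lam : ℂ) s := by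
        have := ((hasDerivAt_id s).const_mul (lam : ℂ)).add_const (mu lam m : ℂ)
        simpa using this
      rw [this.deriv]
      exact hlc
    have h5 : analyticOrderAt (Λ ∘ fun s : ℂ => (lam : ℂ) * s + mu lam m) s = analyticOrderAt Λ w := by
      rw [analyticOrderAt_comp_of_deriv_ne_zero hL1 hL2, harg]
    have h6 : FF lam m c Λ = fun s => (Complex.exp ((Real.log c : ℂ) * ((lam : ℂ) * s + mu lam m - 2 * m - 1)) *
        (Complex.Gamma ((lam : ℂ) * s + mu lam m))⁻¹) * (Λ ∘ fun s : ℂ => (lam : ℂ) * s + mu lam m) s := by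
      funext s
      unfold FF
      simp only [Function.comp]
      ring
    have hf1 : Differentiable ℂ (fun s : ℂ => Complex.exp ((Real.log c : ℂ) * ((lam : ℂ) * s + mu lam m - 2 * m - 1)) *
        (Complex.Gamma ((lam : ℂ) * s + mu lam m))⁻¹) := by
      have h1 : Differentiable ℂ (fun s : ℂ => (lam : ℂ) * s + mu lam m) := by fun_prop
      have h2 : Differentiable ℂ (fun z : ℂ => (Complex.Gamma z)⁻¹) := Complex.differentiable_one_div_Gamma
      exact Differentiable.mul (by fun_prop) (h2.comp h1)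
    have hf2 : Differentiable ℂ (Λ ∘ fun s : ℂ => (lam : ℂ) * s + mu lam m) := hΛd.comp (by fun_prop)
    have h7 := analyticOrderAt_mul (hf1.analyticAt s) (hf2.analyticAt s)
    have h8 : analyticOrderAt (FF lam m c Λ) s = analyticOrderAt (fun s : ℂ => Complex.exp ((Real.log c : ℂ) * ((lam : ℂ) * s + mu lam m - 2 * m - 1)) *
        (Complex.Gamma ((lam : ℂ) * s + mu lam m))⁻¹) s + analyticOrderAt (Λ ∘ fun s : ℂ => (lam : ℂ) * s + mu lam m) s := by
      rw [h6]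
      exact h7
    rw [h8, h5]
    exact le_add_self
  · intro k hk hkm
    have h0 := Pool.Agent.Q286.SZ.van hc hlam1 hk hkm hsum (σ := 1) (by norm_num) (fun x hx => by
      rw [one_mul]
      have := hrel x hx
      unfold Th at this
      simpa [div_eq_mul_inv] using this) hΛd hΛs
    have harg : (lam : ℂ) * (1 / 2 + (m - 2 * k) / lam) + mu lam m = 2 * m + 1 - 2 * k := by
      have hlc : (lam : ℂ) ≠ 0 := by exact_mod_cast hl.ne'
      unfold mu
      push_cast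
      field_simp
      ring
    unfold FF
    rw [harg, h0, zero_mul, mul_zero]
  intro s hs1 hs2
  rw [hmuc] at hs1 hs2 ⊢
  have g1 := FF_completed (m := m) (c := c) (Λ := Λ) (s := s) hs1
  have g2 := FF_completed (m := m) (c := c) (Λ := Λ) (s := 1 - starRingEnd ℂ s) hs2
  rw [hQc] at g1 g2
  rw [g1, g2, map_mul, Complex.conj_ofReal, ← hΛc]
  have h3 : starRingEnd ℂ ((lam : ℂ) * (1 - starRingEnd ℂ s) + mu lam m) =
      (((2 * (m : ℝ) + 2 : ℝ)) : ℂ) - ((lam : ℂ) * s + mu lam m) := by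
    rw [map_add, map_mul, map_sub, map_one, Complex.conj_conj, Complex.conj_ofReal, Complex.conj_ofReal]
    unfold mu
    push_cast
    ring
  rw [h3, hΛfe]
  have h5 : (ε : ℂ) * ε = 1 := by exact_mod_cast hεε
  linear_combination (-((Real.exp (Real.log c * (mu lam m - 2 * m - 1)) : ℝ) : ℂ) *
    Λ ((lam : ℂ) * s + mu lam m)) * h5

/-- **periodic systems of zeros** -/
theorem single_ap (γ : ℝ) (hγ : 0 < γ) (N : ℕ) (hN : 1 ≤ N) : ∃ (m₀ : ℕ) (C : ℝ), 2 ≤ m₀ ∧ 0 < C ∧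
    ∀ m : ℕ, m₀ ≤ m → ∀ lam : ℝ, 2 * m + 1 < lam → lam ≤ 2 * m + 2 →
    ∀ ρ : Fin N → ℂ, (∀ j, γ ≤ (ρ j).re ∧ (ρ j).re ≤ 1 - γ) → ∀ δ : ℝ, C / lam ≤ δ →
    ∃ Q₀ : ℝ, 1 ≤ Q₀ ∧ ∀ Q : ℝ, Q₀ ≤ Q → ∃ (g : ℕ → ℝ) (F : ℂ → ℂ),
      One lam (m + 1 - lam / 2) Q ((-1) ^ (m + 1)) g F ∧
      (∀ (j : Fin N) (k : ℤ), ((Fintype.card {l : Fin N // ρ l = ρ j} : ℕ) : ℕ∞) ≤
        analyticOrderAt F (ρ j + k * δ * I)) ∧
      ∀ k : ℕ, 1 ≤ k → k + 1 ≤ m → F (1 / 2 + (m - 2 * k) / lam) = 0 := by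
  obtain ⟨A, hA⟩ : ∃ A : ℝ, A = Real.log (1 + 2 ^ (4 * N)) := ⟨_, rfl⟩
  have hA0 : 0 ≤ A := by
    rw [hA]
    apply Real.log_nonneg
    have : (0:ℝ) ≤ 2 ^ (4 * N) := by positivity
    linarith
  obtain ⟨q₁, P₀, hq1, hqD, hP0, hDP0, hqP0, hops⟩ := ops hγ hA0 (4 * N)
  obtain ⟨κ, hκ, mC, hmC2, hcore⟩ := core_gen
  obtain ⟨m₁, hm₁⟩ := hops κ hκ
  refine ⟨max (max mC m₁) ⌈1 / γ⌉₊, 2 * Real.pi / P₀, hmC2.trans ((le_max_left _ _).trans (le_max_left _ _)),
    by positivity, ?_⟩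
  intro m hm lam hlm hlm2 ρ hρ δ hδ
  have hmC' : mC ≤ m := ((le_max_left _ _).trans (le_max_left _ _)).trans hm
  have hm1' : m₁ ≤ m := ((le_max_right _ _).trans (le_max_left _ _)).trans hm
  have hmγ : 1 / γ ≤ m := Nat.ceil_le.1 ((le_max_right _ _).trans hm)
  have hm1 : 1 ≤ m := by omega
  have hmR : (1:ℝ) ≤ m := by exact_mod_cast hm1
  have hl : 0 < lam := by linarith
  have hδ0 : 0 < δ := lt_of_lt_of_le (by positivity) hδ
  -- the choice of `P`
  obtain ⟨x, hx⟩ : ∃ x : ℝ, x = P₀ * δ * lam / (2 * Real.pi) := ⟨_, rfl⟩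
  have hx1 : 1 ≤ x := by
    rw [hx, le_div_iff₀ (by positivity)]
    rw [div_div, div_le_iff₀ (by positivity)] at hδ
    linarith
  obtain ⟨J, hJ⟩ : ∃ J : ℕ, J = ⌊x⌋₊ := ⟨_, rfl⟩
  have hJ1 : 1 ≤ J := by rw [hJ]; exact Nat.le_floor (by exact_mod_cast hx1)
  have hJR : (1:ℝ) ≤ J := by exact_mod_cast hJ1
  have hJx : (J:ℝ) ≤ x := by rw [hJ]; exact Nat.floor_le (by linarith)
  have hxJ : x < J + 1 := by rw [hJ]; exact Nat.lt_floor_add_one x
  obtain ⟨P, hP⟩ : ∃ P : ℝ, P = 2 * Real.pi * J / (δ * lam) := ⟨_, rfl⟩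
  have hPp : 0 < P := by rw [hP]; positivity
  have hPx : P * x = P₀ * J := by rw [hP, hx]; field_simp
  have hP1 : P₀ / 2 ≤ P := by
    have h1 : x ≤ 2 * J := by linarith
    have h2 : P₀ * J ≤ P * (2 * J) := by rw [← hPx]; exact mul_le_mul_of_nonneg_left h1 hPp.le
    have hJ0 : (0:ℝ) < J := by linarith
    have h3 : P₀ * J ≤ (P * 2) * J := by linarith
    have := le_of_mul_le_mul_right h3 hJ0
    linarith
  have hP2 : P ≤ P₀ := by
    have h1 : P * x ≤ P₀ * x := by rw [hPx]; exact mul_le_mul_of_nonneg_left hJx hP0.le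
    exact le_of_mul_le_mul_right h1 (by linarith)
  have hDP : ((4 * N : ℕ) : ℝ) * P ≤ Real.log (4 / 3) :=
    (mul_le_mul_of_nonneg_left hP2 (Nat.cast_nonneg _)).trans hDP0
  have hqP : (q₁ : ℝ) * P ≤ Real.log (4 / 3) :=
    (mul_le_mul_of_nonneg_left hP2 (Nat.cast_nonneg _)).trans hqP0
  -- the points
  obtain ⟨ζ, hζ⟩ : ∃ ζ : Fin N → ℂ, ζ = fun j => (lam : ℂ) * (ρ j - 1 / 2) := ⟨_, rfl⟩
  have hlc : (lam : ℂ) ≠ 0 := by exact_mod_cast hl.ne'
  have hζre : ∀ j, |(ζ j).re| ≤ (1 - γ) * m := by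
    intro j
    have e : (ζ j).re = lam * ((ρ j).re - 1 / 2) := by
      rw [hζ]
      simp only
      rw [Complex.re_ofReal_mul]
      simp
    obtain ⟨h1, h2⟩ := hρ j
    have h3 : |(ρ j).re - 1 / 2| ≤ 1 / 2 - γ := by rw [abs_le]; constructor <;> linarith
    have h4 : 0 ≤ 1 / 2 - γ := (abs_nonneg _).trans h3
    rw [e, abs_mul, abs_of_pos hl]
    rw [div_le_iff₀ hγ] at hmγ
    calc lam * |(ρ j).re - 1 / 2| ≤ (2 * m + 2) * (1 / 2 - γ) := mul_le_mul hlm2 h3 (abs_nonneg _) (by linarith)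
      _ ≤ (1 - γ) * m := by nlinarith
  obtain ⟨r, hr⟩ : ∃ r : ℝ, r = Real.exp ((1 - γ) * m * P) := ⟨_, rfl⟩
  have hr1 : 1 ≤ r := by
    have : 0 ≤ (1 - γ) * m := by
      rcases isEmpty_or_nonempty (Fin N) with h | h
      · exact absurd (Fin.pos_iff_nonempty.1 (by omega : 0 < N)) (by rw [not_nonempty_iff]; exact h)
      · obtain ⟨j⟩ := h
        exact (abs_nonneg _).trans (hζre j)
    rw [hr]
    exact Real.one_le_exp (mul_nonneg this hPp.le)
  obtain ⟨ℓ, hℓb, hℓr⟩ := exists_rep N hN (ρ := r) hPp.le hr1 ζ (fun j => by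
    rw [hr]
    exact Real.exp_le_exp.2 (mul_le_mul_of_nonneg_right (hζre j) hPp.le))
  have hG : Good P q₁ (4 * N) m ℓ κ := by
    refine hm₁ m hm1' P hP1 hP2 ℓ fun n q hn _ => (hℓb n q hn).trans ?_
    have e1 : ((1 + 2 ^ (4 * N)) * r) ^ q = Real.exp (A * q + (1 - γ) * m * P * q) := by
      rw [mul_pow, hr, hA, ← Real.exp_nat_mul, Real.exp_add]
      congr 1
      · rw [mul_comm (Real.log (1 + 2 ^ (4 * N))) (q : ℝ), Real.exp_nat_mul, Real.exp_log (by positivity)]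
      · congr 1; ring
    rw [e1]
    apply Real.exp_le_exp.2
    linarith
  obtain ⟨ρ₀, hρ₀, hcL⟩ := hcore m hmC' lam hlm
  obtain ⟨c₀, hc₀, hcc⟩ := hcL _ (hG.loc hPp hDP)
  refine ⟨max 1 (c₀ ^ (-lam)), le_max_left _ _, fun Q hQ => ?_⟩
  have hQ0 : 0 < Q := lt_of_lt_of_le one_pos ((le_max_left _ _).trans hQ)
  obtain ⟨c, hcd⟩ : ∃ c : ℝ, c = Q ^ (-(1 / lam)) := ⟨_, rfl⟩
  have hc : 0 < c := by rw [hcd]; exact Real.rpow_pos_of_pos hQ0 _
  have hcc₀ : c ≤ c₀ := by
    rw [hcd]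
    calc Q ^ (-(1 / lam)) ≤ (c₀ ^ (-lam)) ^ (-(1 / lam)) :=
          Real.rpow_le_rpow_of_nonpos (Real.rpow_pos_of_pos hc₀ _) ((le_max_right _ _).trans hQ) (by
            rw [neg_nonpos]; positivity)
      _ = c₀ := by
          rw [← Real.rpow_mul hc₀.le]
          have : -lam * -(1 / lam) = 1 := by field_simp
          rw [this, Real.rpow_one]
  have hQc : Real.exp (-(lam * Real.log c)) = Q := by
    rw [hcd, Real.log_rpow hQ0]
    have : -(lam * (-(1 / lam) * Real.log Q)) = Real.log Q := by field_simp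
    rw [this, Real.exp_log hQ0]
  have hPP0 : ∀ j, PP (fun _ => (0:ℝ)) j = 0 := fun j => by unfold PP; simp
  obtain ⟨β, α, hβ, hα, hsum, hrel, hz, hi⟩ := hcc c hc hcc₀ (fun _ => 0)
    ⟨continuous_const, fun _ _ _ => rfl, fun _ _ => by simp⟩ (fun J => by
      simp_rw [hPP0]
      simp
      exact hρ₀.le)
  obtain ⟨g, F, hOne, hord, hreal⟩ := elt hm1 hlm hQ0 hc hQc hβ hα hsum hrel
  refine ⟨g, F, hOne, fun j k => ?_, hreal⟩
  -- the point
  obtain ⟨z, hz'⟩ : ∃ z : ℂ, z = ζ j + lam * k * δ * I := ⟨_, rfl⟩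
  have hzre : z.re = (ζ j).re := by
    have : (lam * k * δ * I : ℂ) = ((lam * k * δ : ℝ) : ℂ) * I := by push_cast; ring
    rw [hz', this]
    simp
  have hzm : |z.re| < m := by
    rw [hzre]
    refine (hζre j).trans_lt ?_
    have : 0 < γ * m := by positivity
    linarith
  have hexp : Complex.exp (z * P) = Complex.exp (ζ j * P) := by
    have e : z * P = ζ j * P + ((k * J : ℤ) : ℂ) * (2 * Real.pi * I) := by
      rw [hz', hP]
      push_cast
      have hδc : (δ : ℂ) ≠ 0 := by exact_mod_cast hδ0.ne'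
      field_simp
    rw [e, Complex.exp_add, Complex.exp_int_mul_two_pi_mul_I, mul_one]
  have h1 := mellin_order hm1 hPp hDP hqP hG (Th_cont hsum) (Th_bd hsum) hrel hz
    (fun x h1 h2 => by rw [hi x h1 h2]; ring) hℓr j hexp hzm
  have h2 := hord z hzm
  have e1 : (1 / 2 + z / lam : ℂ) = ρ j + k * δ * I := by
    rw [hz', hζ]
    simp only
    field_simp
    ring
  rw [e1] at h2
  have e3 : Fintype.card {l : Fin N // ρ l = ρ j} = Fintype.card {l : Fin N // ζ l = ζ j} := by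
    apply Fintype.card_congr
    apply Equiv.subtypeEquivRight
    intro l
    rw [hζ]
    simp only
    constructor
    · intro h; rw [h]
    · intro h
      have := mul_left_cancel₀ hlc h
      linear_combination this
  rw [e3]
  exact h1.trans h2

end Pool.Agent.Q286.AP
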